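import Pool.Agent.Run7.h358.U2.Dm
import Pool.Agent.N208.OU.Main

set_option autoImplicit false
set_option linter.unusedSectionVars false

/-!
# 1-motives over factors of abelian varieties of unitary type of rank two
-/

open Module Matrix TensorProduct

noncomputable section

namespace Pool.Agent.Run7.h358.U2

open Pool.Agent.Y102 Pool.Agent.W516.DR Pool.Agent.H204R3.GP Pool.Agent.W516.KC
  Pool.Agent.H204R3.SP Pool.Agent.TH119.MX Pool.Agent.R917 Pool.Agent.N208.AM Pool.Agent.N208.AD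
  Pool.Agent.N208.BT Pool.Agent.N208.CT Pool.Agent.N208.LC Pool.Agent.R917.OM Pool.Agent.R917.BX
  Pool.Agent.R917.DT Pool.Agent.N208.OneM

/-! ### The subalgebra of the elements with restriction in the Lie algebra of the group -/

section Fact

variable {g g' g'' : ℕ} {A : AbVar g} {C : AbVar g'} {D : AbVar g''} {f : A.H1 →ₗ[ℚ] C.H1}
  {p : C.H1 →ₗ[ℚ] A.H1} {z : Module.End ℚ C.H1} {Sg : Finset ℝ}

theorem hm_comp {f' : C.H1 →ₗ[ℚ] D.H1} (h : Hm A C f) (h' : Hm C D f') :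
    Hm A D (f'.comp f) := by
  obtain ⟨F, hF⟩ := h.tangent
  obtain ⟨F', hF'⟩ := h'.tangent
  obtain ⟨e, he⟩ := h.algebraic
  obtain ⟨e', he'⟩ := h'.algebraic
  refine ⟨⟨F'.comp F, fun w => ?_⟩, ⟨fun i l => ∑ j, e' i j * e j l, fun i w => ?_⟩⟩
  · rw [LinearMap.comp_apply, LinearMap.comp_apply, hF, hF']
  · rw [LinearMap.comp_apply, he']
    simp only [he, map_sum, map_mul, Finset.mul_sum, Finset.sum_mul]
    rw [Finset.sum_comm]
    exact Finset.sum_congr rfl fun l _ => Finset.sum_congr rfl fun j _ => by ring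

theorem fac_comp {f' : C.H1 →ₗ[ℚ] D.H1} {p' : D.H1 →ₗ[ℚ] C.H1} (h : DT.Fac A C f p)
    (h' : DT.Fac C D f' p') : DT.Fac A D (f'.comp f) (p.comp p') :=
  ⟨hm_comp h.hf h'.hf, hm_comp h'.hp h.hp, fun w => by
    rw [LinearMap.comp_apply, LinearMap.comp_apply, h'.pf, h.pf]⟩

/-- If the centre is in the subalgebra then the whole Lie algebra is. -/
theorem na_le (hL : HL' C z Sg) (hF : HF C z 2) {𝔮 : Submodule ℚ (Module.End ℚ C.H1)}
    (hq : C.Full 𝔮) (hc : C.CN ≤ 𝔮) : C.NA ≤ 𝔮 := by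
  intro X hX
  obtain ⟨q, h1, h2⟩ := skew_split hF (N768.BGPD.NA_CB hX) fun u v => C.NA_skew hX u v
  have h3 : X - Polynomial.aeval z q ∈ 𝔮 := hq.der_le (su_le_der hL hq h2)
  have h4 : Polynomial.aeval z q ∈ C.CN := by
    have e1 : Polynomial.aeval z q ∈ C.NA := by
      have h5 := C.NA.sub_mem hX (hq.le h3)
      rwa [sub_sub_cancel] at h5
    exact ⟨e1, fun Y hY => comm_aeval' (C.NA_comm hY hF.mem) q⟩
  have h5 := 𝔮.add_mem h3 (hc h4)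
  rwa [sub_add_cancel] at h5

/-- The centre, if the relations of the nonzero elements hold for all elements. -/
theorem cn_le_dom {al : ℝ} (h : HQ C z al) (hF : HF C z 2) (hd : GoodDom C z)
    {𝔮 : Submodule ℚ (Module.End ℚ C.H1)} (hq : C.Full 𝔮) (hRC : RC 𝔮) : C.CN ≤ 𝔮 := by
  intro Y hY
  obtain ⟨X, hX, hne, hXc⟩ := hex_of h hF 𝔮 hq
  have hXC : X ∈ C.CN := ⟨hq.le hX, fun Y hY => hq.comm X (fun Z hZ => (hXc Z hZ).symm) Y hY⟩
  exact Pool.Agent.N208.OU.mem_of_dom hRC hX hXC hY (hdom_of hF hd X hXC hne Y hY)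

/-- The centre, for factors of abelian varieties with a rigid centre. -/
theorem cn_le_fac (hA : DT.Fac A C f p) (hF : HF C z 2) {f' : C.H1 →ₗ[ℚ] D.H1}
    {p' : D.H1 →ₗ[ℚ] C.H1} (hD : DT.Fac C D f' p') (hrig : Rigid D)
    (hz : ∀ q : Polynomial ℚ, IsSkew C.om (Polynomial.aeval z q) →
      ∃ X ∈ D.CN, ∀ v, p' (X (f' v)) = Polynomial.aeval z q v)
    {𝔥 : Submodule ℚ (Module.End ℚ A.H1)}
    (hbr : ∀ X ∈ 𝔥, ∀ Y ∈ 𝔥, X * Y - Y * X ∈ 𝔥)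
    (h0 : ∀ (D : Derivation QBar ℂ ℂ) (lam : ℂ →ₗ[ℚ] ℚ), X0 A.basis tau D lam ∈ 𝔥)
    (hRC : RC 𝔥) : C.CN ≤ DT.Fac.qq f p 𝔥 := by
  intro Y hY
  obtain ⟨q, rfl, hs⟩ := cn_poly hF hY
  obtain ⟨X, hX, hXY⟩ := hz q hs
  have hAD := fac_comp hA hD
  have h1 : X ∈ DT.Fac.qq (f'.comp f) (p.comp p') 𝔥 :=
    Pool.Agent.N208.OU.CN_le (hAD.qq_full hbr h0) (hAD.qq_RC hRC) hrig hX
  refine ⟨hY.1, ?_⟩
  change rs f p (Polynomial.aeval z q) ∈ 𝔥
  have h2 : rs (f'.comp f) (p.comp p') X ∈ 𝔥 := h1.2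
  have h3 : rs (f'.comp f) (p.comp p') X = rs f p (Polynomial.aeval z q) := by
    refine LinearMap.ext fun v => ?_
    rw [rs_apply, rs_apply, LinearMap.comp_apply, LinearMap.comp_apply, hXY]
  rwa [h3] at h2

/-- **The complex structure.** -/
theorem detJ_two (hA : DT.Fac A C f p) (hL : HL' C z Sg) (hF : HF C z 2)
    (hc : ∀ 𝔥 : Submodule ℚ (Module.End ℚ A.H1), (∀ X ∈ 𝔥, ∀ Y ∈ 𝔥, X * Y - Y * X ∈ 𝔥) →
      (∀ (D : Derivation QBar ℂ ℂ) (lam : ℂ →ₗ[ℚ] ℚ), X0 A.basis tau D lam ∈ 𝔥) → RC 𝔥 →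
        C.CN ≤ DT.Fac.qq f p 𝔥) : DetJ A := by
  intro 𝔥 _ hbr h0 hRC r
  have h1 := na_le hL hF (hA.qq_full hbr h0) (hc 𝔥 hbr h0 hRC) (C.MA_le_NA (C.J_mem r))
  have h2 : rs f p (C.cmpE r AbVar.JJ) ∈ 𝔥 := h1.2
  rwa [hA.rs_J] at h2

end Fact

/-! ### The group -/

section Grp

variable {g n s : ℕ} {A : AbVarG g} {u : Fin n → Fin g → ℂ} {v : Fin s → Fin g → ℂ}
  {ℓ : Fin n → Fin s → ℂ} {G : Subgroup (GL (Betti g n s) ℂ)} {g' : ℕ} {C : AbVar g'}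
  {f : A.toAbVar.H1 →ₗ[ℚ] C.H1} {p : C.H1 →ₗ[ℚ] A.toAbVar.H1}

/-- The derived algebra, for an arbitrary real part. -/
theorem om_der (hM : IsOneMotive A u v ℓ) (hG : IsAlgebraicSubgroup G)
    (hP : ContainsPeriods A u v ℓ G) (hfc : DT.Fac A.toAbVar C f p) {U : Set (Fin g' → ℂ)}
    (hr : RPart C U)
    (hdom : ∀ N, RelR (Pool.Agent.N208.OU.hB p)
      (AbVar.JJ : (Fin g' → ℂ) →ₗ[ℝ] (Fin g' → ℂ)) N → DomU U (Pool.Agent.N208.OU.hB p) N)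
    {Z : Matrix (Betti g n s) (Betti g n s) ℚ}
    (hZ : Z ∈ derived (mtLie A u v ℓ)) (t : ℂ) :
    IsIn G (NormedSpace.exp (t • cplx Z)) := by
  obtain ⟨T, hT, q, hq, hqT⟩ := hP
  rw [periodMatrix_eq] at hqT
  have hpt := ptM_of hG hT hq hqT
  obtain ⟨K₁, hK₁, hrat⟩ := exists_rat_mult A (pt (dat A u v ℓ)) (by
    rintro (i | l)
    · exact Or.inl (hM.point i)
    · exact Or.inl (hM.dual l))
  have hLg := gg_Lg hpt
  obtain ⟨𝔮, h𝔮⟩ : ∃ 𝔮, 𝔮 = Pool.Agent.R917.DT.Fac.qq f p (aa (gg A.toAbVar n s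
    {M | ∃ x ∈ G, (x : Matrix (Betti g n s) (Betti g n s) ℂ) = M})) := ⟨_, rfl⟩
  have hfull : C.Full 𝔮 := by
    rw [h𝔮]
    exact hfc.qq_full (fun X hX Y hY => hLg.full.br X hX Y hY) (fun D lam => ⟨_, hLg.per D lam, rfl⟩)
  have hJ := N208.OU.ZZ_J hfc hfull hr hdom
  have hbr : ∀ x ∈ N208.OU.ZZ f p 𝔮, ∀ y ∈ N208.OU.ZZ f p 𝔮,
      x * y - y * x ∈ (Pool.Agent.Y102.der 𝔮).map (Pool.Agent.R917.DT.rs f p) :=
    fun x hx y hy => N208.OU.ZZ_br hfc hfull hx hy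
  have hle : (Pool.Agent.Y102.der 𝔮).map (Pool.Agent.R917.DT.rs f p) ≤ N208.OU.ZZ f p 𝔮 := le_sup_right
  have hle' : (Pool.Agent.Y102.der 𝔮).map (Pool.Agent.R917.DT.rs f p) ≤ aa (gg A.toAbVar n s
      {M | ∃ x ∈ G, (x : Matrix (Betti g n s) (Betti g n s) ℂ) = M}) := by
    rintro _ ⟨X, hX, rfl⟩
    have h1 := hfull.der_le hX
    rw [h𝔮] at h1
    exact h1.2
  have hNA := N208.OU.ZZ_NA hfc hfull
  have h1 : mtLie A u v ℓ ≤ N208.OU.LL A n s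
      {M | ∃ x ∈ G, (x : Matrix (Betti g n s) (Betti g n s) ℂ) = M} (N208.OU.ZZ f p 𝔮) := by
    refine sInf_le ⟨fun X hX Y hY => N208.OU.LL_brr hNA hX hY fun x hx y hy =>
      hle (hbr x hx y hy), fun w => ⟨_, ?_, lie_deligne A w⟩⟩
    have hc := fun lam => N208.OU.exists_LL hpt ⟨hM.point, hM.neg, hM.sub, hM.log⟩ hrat hJ lam
    refine Submodule.add_mem _ (Submodule.smul_mem _ _ ?_) (Submodule.smul_mem _ _ ?_)
    · refine N208.OU.mem_span_of_comp fun lam => ?_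
      rw [N208.OU.comp_tW]
      exact (hc lam).2
    · refine N208.OU.mem_span_of_comp fun lam => ?_
      rw [N208.OU.comp_tJ]
      exact (hc lam).1
  obtain ⟨W, hW, hW1, hW2⟩ := Pool.Agent.R917.DT.weight hpt
  have h2 : Z ∈ N208.OU.gQ A n s
      {M | ∃ x ∈ G, (x : Matrix (Betti g n s) (Betti g n s) ℂ) = M} := by
    unfold derived at hZ
    refine (Submodule.span_le.2 ?_) hZ
    rintro _ ⟨X, hX, Y, hY, rfl⟩
    exact N208.OU.LL_gQ hLg hW hW1 hW2 hle' (N208.OU.LL_brr hNA (h1 hX) (h1 hY) hbr)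
  obtain ⟨L, hL, rfl⟩ := h2
  exact Pool.Agent.R917.exp_mem hpt.grp fun k => (hL.2 k).smul t

/-- The group, if the complex structure is determined. -/
theorem om_all (hM : IsOneMotive A u v ℓ) (hG : IsAlgebraicSubgroup G)
    (hP : ContainsPeriods A u v ℓ G) (hdet : DetJ A.toAbVar) : mumfordTate A u v ℓ ≤ G := by
  obtain ⟨T, hT, q, hq, hqT⟩ := hP
  rw [periodMatrix_eq] at hqT
  have hpt := ptM_of hG hT hq hqT
  obtain ⟨K₁, hK₁, hrat⟩ := exists_rat_mult A (pt (dat A u v ℓ)) (by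
    rintro (i | l)
    · exact Or.inl (hM.point i)
    · exact Or.inl (hM.dual l))
  obtain ⟨h1, h2⟩ := Pool.Agent.R917.DT.hodge_stab6 hpt
    ⟨hM.point, hM.neg, hM.sub, hM.log⟩ hrat hdet
  refine sInf_le ⟨hG, fun z hz => ?_⟩
  obtain ⟨x, hx, hxe⟩ := Pool.Agent.R917.exp_mem hpt.grp fun k =>
    ((h2 k).smul ((Complex.log z).re : ℂ)).add ((h1 k).smul ((Complex.log z).im : ℂ))
  exact ⟨x, hx, deligne_exp A hz hxe⟩

end Grp

end Pool.Agent.Run7.h358.U2
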