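import Pool.Agent.Y102.V11
import Pool.Agent.N208.LC.Cen

set_option autoImplicit false
set_option linter.unusedSectionVars false

/-!
# Quartic fields without imaginary quadratic subfields

Let `F = ℚ[z]` be a quartic field with an involution `z ↦ -z`, such that the squares of the skew
elements `x ≠ 0` are not rational. Then the relations between the conjugates of a skew element
`x ≠ 0` hold for all skew elements: there are no relations except those of the involution.
-/

open Module TensorProduct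

noncomputable section

namespace Pool.Agent.Run7.h358.U2

open Pool.Agent.Y102

section

variable {V : Type} [AddCommGroup V] [Module ℚ V] [FiniteDimensional ℚ V]

/-- symmetric endomorphisms -/
def Sym (ω : V →ₗ[ℚ] V →ₗ[ℚ] ℚ) (T : Module.End ℚ V) : Prop := ∀ u v, ω (T u) v = ω u (T v)

/-- skew endomorphisms -/
def Skw (ω : V →ₗ[ℚ] V →ₗ[ℚ] ℚ) (T : Module.End ℚ V) : Prop := ∀ u v, ω (T u) v = -ω u (T v)

variable {ω : V →ₗ[ℚ] V →ₗ[ℚ] ℚ}

theorem sym_skw (hω : ∀ u, (∀ v, ω u v = 0) → u = 0) {T : Module.End ℚ V} (h1 : Sym ω T)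
    (h2 : Skw ω T) : T = 0 := by
  refine LinearMap.ext fun u => hω _ fun v => ?_
  have e1 := h1 u v
  have e2 := h2 u v
  linarith

theorem Sym.add {S T : Module.End ℚ V} (h : Sym ω S) (h' : Sym ω T) : Sym ω (S + T) :=
  fun u v => by simp only [LinearMap.add_apply, map_add, h u v, h' u v]

theorem Sym.smul {S : Module.End ℚ V} (c : ℚ) (h : Sym ω S) : Sym ω (c • S) :=
  fun u v => by simp only [LinearMap.smul_apply, map_smul, h u v, smul_eq_mul]

theorem Skw.add {S T : Module.End ℚ V} (h : Skw ω S) (h' : Skw ω T) : Skw ω (S + T) :=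
  fun u v => by
    simp only [LinearMap.add_apply, map_add, h u v, h' u v]
    ring

theorem Skw.smul {S : Module.End ℚ V} (c : ℚ) (h : Skw ω S) : Skw ω (c • S) :=
  fun u v => by
    simp only [LinearMap.smul_apply, map_smul, h u v, smul_eq_mul]
    ring

theorem Skw.neg {S : Module.End ℚ V} (h : Skw ω S) : Skw ω (-S) :=
  fun u v => by simp only [LinearMap.neg_apply, map_neg, h u v]

theorem Sym.neg {S : Module.End ℚ V} (h : Sym ω S) : Sym ω (-S) :=
  fun u v => by simp only [LinearMap.neg_apply, map_neg, h u v]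

theorem sym_one : Sym ω (1 : Module.End ℚ V) := fun _ _ => rfl

theorem Skw.sq {S : Module.End ℚ V} (h : Skw ω S) : Sym ω (S * S) := fun u v => by
  rw [Module.End.mul_apply, Module.End.mul_apply, h, h, neg_neg]

theorem Skw.mul_sym {S T : Module.End ℚ V} (h : Skw ω S) (h' : Sym ω T) (hc : S * T = T * S) :
    Skw ω (S * T) := fun u v => by
  rw [Module.End.mul_apply, h, h', ← Module.End.mul_apply, ← hc]

end

section

variable {V : Type} [AddCommGroup V] [Module ℚ V] [FiniteDimensional ℚ V]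
  {ω : V →ₗ[ℚ] V →ₗ[ℚ] ℚ} {z : Module.End ℚ V}

/-- the hypotheses -/
structure QF (ω : V →ₗ[ℚ] V →ₗ[ℚ] ℚ) (z : Module.End ℚ V) : Prop where
  nd : ∀ u, (∀ v, ω u v = 0) → u = 0
  field : ∀ q : Polynomial ℚ, Polynomial.aeval z q ≠ 0 →
    Function.Injective (Polynomial.aeval z q)
  dim : finrank ℚ (Algebra.adjoin ℚ {z}) = 4
  irr : ∀ q : Polynomial ℚ, Polynomial.aeval z q ≠ 0 → Skw ω (Polynomial.aeval z q) → ∀ r : ℚ,
    Polynomial.aeval z q * Polynomial.aeval z q ≠ r • (1 : Module.End ℚ V)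

theorem mem_adj {T : Module.End ℚ V} :
    T ∈ Algebra.adjoin ℚ {z} ↔ ∃ q : Polynomial ℚ, T = Polynomial.aeval z q := by
  rw [Algebra.adjoin_singleton_eq_range_aeval]
  exact ⟨fun ⟨q, hq⟩ => ⟨q, hq.symm⟩, fun ⟨q, hq⟩ => ⟨q, hq.symm⟩⟩

theorem adj_comm {S T : Module.End ℚ V} (hS : S ∈ Algebra.adjoin ℚ {z})
    (hT : T ∈ Algebra.adjoin ℚ {z}) : S * T = T * S := by
  obtain ⟨p, rfl⟩ := mem_adj.1 hS
  obtain ⟨q, rfl⟩ := mem_adj.1 hT
  rw [← map_mul, ← map_mul, mul_comm]

/-- nonzero elements of the field are injective -/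
theorem QF.inj (h : QF ω z) {T : Module.End ℚ V} (hT : T ∈ Algebra.adjoin ℚ {z}) (h0 : T ≠ 0) :
    Function.Injective T := by
  obtain ⟨q, rfl⟩ := mem_adj.1 hT
  exact h.field q h0

theorem QF.cancel (h : QF ω z) {S T : Module.End ℚ V} (hS : S ∈ Algebra.adjoin ℚ {z})
    (hST : S * T = 0) (hT : T ≠ 0) : S = 0 := by
  by_contra h0
  apply hT
  refine LinearMap.ext fun v => h.inj hS h0 ?_
  rw [LinearMap.zero_apply, map_zero, ← Module.End.mul_apply, hST, LinearMap.zero_apply]

/-- `a + b x²` is zero only if `a = b = 0` -/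
theorem QF.indep (h : QF ω z) {X : Module.End ℚ V} (hX : X ∈ Algebra.adjoin ℚ {z}) (h0 : X ≠ 0)
    (hs : Skw ω X) {a b : ℚ} (hab : a • (1 : Module.End ℚ V) + b • (X * X) = 0) :
    a = 0 ∧ b = 0 := by
  have h1 : (1 : Module.End ℚ V) ≠ 0 := by
    intro h1
    apply h0
    rw [← mul_one X, h1, mul_zero]
  by_cases hb : b = 0
  · rw [hb, zero_smul, add_zero] at hab
    exact ⟨(smul_eq_zero.1 hab).resolve_right h1, hb⟩
  · exfalso
    obtain ⟨q, rfl⟩ := mem_adj.1 hX
    refine h.irr q h0 hs (-a / b) ?_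
    have h2 : b • (Polynomial.aeval z q * Polynomial.aeval z q) = -(a • (1 : Module.End ℚ V)) :=
      eq_neg_of_add_eq_zero_right hab
    have h3 := congrArg (fun T => b⁻¹ • T) h2
    simp only [smul_smul, inv_mul_cancel₀ hb, one_smul, smul_neg] at h3
    rw [h3, ← neg_smul]
    congr 1
    field_simp

/-- every element is a combination of `1, x², x, x³` -/
theorem QF.rep (h : QF ω z) {X : Module.End ℚ V} (hX : X ∈ Algebra.adjoin ℚ {z}) (h0 : X ≠ 0)
    (hs : Skw ω X) {T : Module.End ℚ V} (hT : T ∈ Algebra.adjoin ℚ {z}) :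
    ∃ a b c d : ℚ, T = (a • (1 : Module.End ℚ V) + b • (X * X)) + (c • X + d • (X * (X * X))) := by
  have hXX := (Algebra.adjoin ℚ {z}).mul_mem hX hX
  have hXXX := (Algebra.adjoin ℚ {z}).mul_mem hX hXX
  let e : Fin 4 → Algebra.adjoin ℚ {z} := ![1, ⟨X * X, hXX⟩, ⟨X, hX⟩, ⟨X * (X * X), hXXX⟩]
  have hsk3 : Skw ω (X * (X * X)) := hs.mul_sym hs.sq (mul_assoc X X X).symm
  have hli : LinearIndependent ℚ e := by
    rw [Fintype.linearIndependent_iff]
    intro f hf
    have h1 := congrArg Subtype.val hf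
    rw [Fin.sum_univ_four] at h1
    have h2 : (f 0 • (1 : Module.End ℚ V) + f 1 • (X * X)) +
        (f 2 • X + f 3 • (X * (X * X))) = 0 := by
      rw [← add_assoc]
      exact h1
    have h3 : f 0 • (1 : Module.End ℚ V) + f 1 • (X * X) = -(f 2 • X + f 3 • (X * (X * X))) :=
      eq_neg_of_add_eq_zero_left h2
    have h4 : f 0 • (1 : Module.End ℚ V) + f 1 • (X * X) = 0 :=
      sym_skw h.nd ((sym_one.smul _).add (hs.sq.smul _))
        (by rw [h3]; exact ((hs.smul _).add (hsk3.smul _)).neg)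
    have h5 : (f 2 • (1 : Module.End ℚ V) + f 3 • (X * X)) * X = 0 := by
      rw [h4, zero_add] at h2
      rw [add_mul, smul_mul_assoc, smul_mul_assoc, one_mul, mul_assoc]
      exact h2
    have h6 := h.cancel ((Algebra.adjoin ℚ {z}).add_mem
      ((Algebra.adjoin ℚ {z}).smul_mem (Algebra.adjoin ℚ {z}).one_mem _)
      ((Algebra.adjoin ℚ {z}).smul_mem hXX _)) h5 h0
    obtain ⟨k0, k1⟩ := h.indep hX h0 hs h4
    obtain ⟨k2, k3⟩ := h.indep hX h0 hs h6
    intro i
    fin_cases i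
    · exact k0
    · exact k1
    · exact k2
    · exact k3
  have hsp := hli.span_eq_top_of_card_eq_finrank (by rw [Fintype.card_fin, h.dim])
  have h1 : (⟨T, hT⟩ : Algebra.adjoin ℚ {z}) ∈ Submodule.span ℚ (Set.range e) := by
    rw [hsp]
    exact Submodule.mem_top
  obtain ⟨f, hf⟩ := (Submodule.mem_span_range_iff_exists_fun ℚ).1 h1
  have h2 := congrArg Subtype.val hf
  rw [Fin.sum_univ_four] at h2
  refine ⟨f 0, f 1, f 2, f 3, ?_⟩
  rw [← add_assoc]
  exact h2.symm

theorem QF.skew_rep (h : QF ω z) {X : Module.End ℚ V} (hX : X ∈ Algebra.adjoin ℚ {z}) (h0 : X ≠ 0)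
    (hs : Skw ω X) {T : Module.End ℚ V} (hT : T ∈ Algebra.adjoin ℚ {z}) (hTs : Skw ω T) :
    ∃ c d : ℚ, T = c • X + d • (X * (X * X)) := by
  obtain ⟨a, b, c, d, hr⟩ := h.rep hX h0 hs hT
  have hsk3 : Skw ω (X * (X * X)) := hs.mul_sym hs.sq (mul_assoc X X X).symm
  refine ⟨c, d, ?_⟩
  have h1 : a • (1 : Module.End ℚ V) + b • (X * X) = T + -(c • X + d • (X * (X * X))) := by
    rw [hr]
    abel
  have h2 : a • (1 : Module.End ℚ V) + b • (X * X) = 0 :=
    sym_skw h.nd ((sym_one.smul _).add (hs.sq.smul _))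
      (by rw [h1]; exact hTs.add ((hs.smul _).add (hsk3.smul _)).neg)
  rw [hr, h2, zero_add]

theorem QF.sq_rep (h : QF ω z) {X : Module.End ℚ V} (hX : X ∈ Algebra.adjoin ℚ {z}) (h0 : X ≠ 0)
    (hs : Skw ω X) : ∃ a b : ℚ, X * X * (X * X) = a • (1 : Module.End ℚ V) + b • (X * X) := by
  have hXX := (Algebra.adjoin ℚ {z}).mul_mem hX hX
  obtain ⟨a, b, c, d, hr⟩ := h.rep hX h0 hs ((Algebra.adjoin ℚ {z}).mul_mem hXX hXX)
  have hsk3 : Skw ω (X * (X * X)) := hs.mul_sym hs.sq (mul_assoc X X X).symm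
  refine ⟨a, b, ?_⟩
  have hsy : Sym ω (X * X * (X * X)) := fun u v => by
    have e1 := hs.sq ((X * X) u) v
    have e2 := hs.sq u ((X * X) v)
    change ω ((X * X) ((X * X) u)) v = ω u ((X * X) ((X * X) v))
    rw [e1, e2]
  have h1 : c • X + d • (X * (X * X)) =
      X * X * (X * X) + -(a • (1 : Module.End ℚ V) + b • (X * X)) := by
    rw [hr]
    abel
  have h2 : c • X + d • (X * (X * X)) = 0 :=
    sym_skw h.nd (by rw [h1]; exact hsy.add ((sym_one.smul _).add (hs.sq.smul _)).neg)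
      ((hs.smul _).add (hsk3.smul _))
  rw [hr, h2, add_zero]

/-- sums of numbers with the same square -/
theorem sum_sq {κ : Type} (s : Finset κ) (x : κ → ℂ) (t : ℂ) (hx : ∀ k ∈ s, x k * x k = t) :
    ∃ m : ℤ, (∑ k ∈ s, x k) * (∑ k ∈ s, x k) = (m : ℂ) * m * t := by
  classical
  rcases s.eq_empty_or_nonempty with rfl | ⟨k0, hk0⟩
  · exact ⟨0, by simp⟩
  · have h1 : ∀ k ∈ s, ∃ e : ℤ, x k = e * x k0 := by
      intro k hk
      have h2 : (x k - x k0) * (x k + x k0) = 0 := by
        linear_combination hx k hk - hx k0 hk0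
      rcases mul_eq_zero.1 h2 with h3 | h3
      · exact ⟨1, by rw [sub_eq_zero.1 h3]; simp⟩
      · exact ⟨-1, by rw [eq_neg_of_add_eq_zero_left h3]; simp⟩
    choose! e he using h1
    refine ⟨∑ k ∈ s, e k, ?_⟩
    have h2 : ∑ k ∈ s, x k = ((∑ k ∈ s, e k : ℤ) : ℂ) * x k0 := by
      push_cast
      rw [Finset.sum_mul]
      exact Finset.sum_congr rfl he
    rw [h2, ← hx k0 hk0]
    ring

/-- **Quartic fields without imaginary quadratic subfields.** -/
theorem QF.dom (h : QF ω z) {X Y : Module.End ℚ V} (hX : X ∈ Algebra.adjoin ℚ {z}) (h0 : X ≠ 0)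
    (hs : Skw ω X) (hY : Y ∈ Algebra.adjoin ℚ {z}) (hYs : Skw ω Y) : Dom X Y := by
  classical
  intro r v x y hv hx hy hsum
  obtain ⟨c, d, hcd⟩ := h.skew_rep hX h0 hs hY hYs
  obtain ⟨a, b, hab⟩ := h.sq_rep hX h0 hs
  have hXX : ∀ k, (X * X).baseChange ℂ (v k) = (x k * x k) • v k := by
    intro k
    rw [Module.End.mul_eq_comp, LinearMap.baseChange_comp, LinearMap.comp_apply, hx, map_smul, hx,
      smul_smul]
  have hsm : ∀ (c : ℚ) (T : Module.End ℚ V) (w : ℂ ⊗[ℚ] V),
      (c • T).baseChange ℂ w = (c : ℂ) • T.baseChange ℂ w := by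
    intro c T w
    rw [LinearMap.baseChange_smul, LinearMap.smul_apply]
    exact (Rat.cast_smul_eq_qsmul ℂ c _).symm
  have hone : ∀ w : ℂ ⊗[ℚ] V, (1 : Module.End ℚ V).baseChange ℂ w = w := by
    intro w
    rw [Module.End.one_eq_id, LinearMap.baseChange_id, LinearMap.id_apply]
  have hyk : ∀ k, y k = c * x k + d * (x k * (x k * x k)) := by
    intro k
    have h1 := hy k
    rw [hcd, LinearMap.baseChange_add, LinearMap.add_apply, hsm, hsm, hx, Module.End.mul_eq_comp X,
      LinearMap.baseChange_comp, LinearMap.comp_apply, hXX, map_smul, hx, smul_smul, smul_smul,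
      smul_smul, ← add_smul] at h1
    have h2 := sub_eq_zero.2 h1
    rw [← sub_smul] at h2
    have h3 := (smul_eq_zero.1 h2).resolve_right (hv k)
    linear_combination -h3
  have hx4 : ∀ k, x k * x k * (x k * x k) = a + b * (x k * x k) := by
    intro k
    have h1 : (X * X * (X * X)).baseChange ℂ (v k) = (x k * x k * (x k * x k)) • v k := by
      rw [Module.End.mul_eq_comp (X * X), LinearMap.baseChange_comp, LinearMap.comp_apply, hXX,
        map_smul, hXX, smul_smul]
    rw [hab, LinearMap.baseChange_add, LinearMap.add_apply, hsm, hsm, hXX, hone, smul_smul,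
      ← add_smul] at h1
    have h2 := sub_eq_zero.2 h1
    rw [← sub_smul] at h2
    have h3 := (smul_eq_zero.1 h2).resolve_right (hv k)
    linear_combination -h3
  -- squares are not rational
  have hirr : ∀ k (ρ : ℚ), x k * x k ≠ ρ := by
    intro k ρ hρ
    have hXXm := (Algebra.adjoin ℚ {z}).mul_mem hX hX
    have hm : X * X + (-ρ) • (1 : Module.End ℚ V) ∈ Algebra.adjoin ℚ {z} :=
      (Algebra.adjoin ℚ {z}).add_mem hXXm ((Algebra.adjoin ℚ {z}).smul_mem
        (Algebra.adjoin ℚ {z}).one_mem _)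
    have hne : X * X + (-ρ) • (1 : Module.End ℚ V) ≠ 0 := by
      intro h1
      have h2 := h.indep hX h0 hs (a := -ρ) (b := 1) (by rw [one_smul, add_comm]; exact h1)
      exact one_ne_zero h2.2
    obtain ⟨T, hT, hT1⟩ := N208.LC.inv_of_field z h.field _ hm hne
    have h1 : T * (X * X + (-ρ) • (1 : Module.End ℚ V)) = 1 := by
      rw [adj_comm hT hm, hT1]
    have h2 : (X * X + (-ρ) • (1 : Module.End ℚ V)).baseChange ℂ (v k) = 0 := by
      rw [LinearMap.baseChange_add, LinearMap.add_apply, hsm, hXX, hone, hρ, ← add_smul]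
      push_cast
      rw [add_neg_cancel, zero_smul]
    have h3 := hone (v k)
    rw [← h1, Module.End.mul_eq_comp, LinearMap.baseChange_comp, LinearMap.comp_apply, h2,
      map_zero] at h3
    exact hv k h3.symm
  have hcube : ∑ k, x k * (x k * x k) = 0 := by
    rcases isEmpty_or_nonempty (Fin r) with he | ⟨⟨k0⟩⟩
    · rw [Finset.univ_eq_empty, Finset.sum_empty]
    obtain ⟨s1, hs1⟩ : ∃ s1, s1 = x k0 * x k0 := ⟨_, rfl⟩
    obtain ⟨s2, hs2⟩ : ∃ s2 : ℂ, s2 = b - s1 := ⟨_, rfl⟩
    have hroot : ∀ k, x k * x k = s1 ∨ x k * x k = s2 := by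
      intro k
      have e1 := hx4 k
      have e2 := hx4 k0
      rw [← hs1] at e2
      have h1 : (x k * x k - s1) * (x k * x k - s2) = 0 := by
        rw [hs2]
        linear_combination e1 - e2
      rcases mul_eq_zero.1 h1 with h2 | h2
      · exact Or.inl (sub_eq_zero.1 h2)
      · exact Or.inr (sub_eq_zero.1 h2)
    obtain ⟨K, hK⟩ : ∃ K : Finset (Fin r), K = Finset.univ.filter fun k => x k * x k = s1 :=
      ⟨_, rfl⟩
    obtain ⟨P, hP⟩ : ∃ P, P = ∑ k ∈ K, x k := ⟨_, rfl⟩
    obtain ⟨Q, hQ⟩ : ∃ Q, Q = ∑ k ∈ Kᶜ, x k := ⟨_, rfl⟩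
    have hK1 : ∀ k ∈ K, x k * x k = s1 := by
      intro k hk
      rw [hK, Finset.mem_filter] at hk
      exact hk.2
    have hK2 : ∀ k ∈ Kᶜ, x k * x k = s2 := by
      intro k hk
      rw [Finset.mem_compl, hK, Finset.mem_filter, not_and] at hk
      exact (hroot k).resolve_left (hk (Finset.mem_univ k))
    have hPQ : P + Q = 0 := by
      rw [hP, hQ, Finset.sum_add_sum_compl, hsum]
    obtain ⟨m, hm⟩ := sum_sq K x s1 hK1
    obtain ⟨n, hn⟩ := sum_sq Kᶜ x s2 hK2
    rw [← hP] at hm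
    rw [← hQ] at hn
    have hP0 : P = 0 := by
      by_contra hne
      have hQ0 : Q ≠ 0 := by
        intro hq
        rw [hq, add_zero] at hPQ
        exact hne hPQ
      have hm0 : (m : ℂ) ≠ 0 := by
        intro h1
        rw [h1] at hm
        apply hne
        have : P * P = 0 := by rw [hm]; ring
        exact mul_self_eq_zero.1 this
      have hn0 : (n : ℂ) ≠ 0 := by
        intro h1
        rw [h1] at hn
        apply hQ0
        have : Q * Q = 0 := by rw [hn]; ring
        exact mul_self_eq_zero.1 this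
      have hmn : (m : ℂ) * m * s1 = n * n * s2 := by
        rw [← hm, ← hn]
        linear_combination (P - Q) * hPQ
      have hmnz : ((m : ℂ) * m + n * n) ≠ 0 := by
        have h1 : (m * m + n * n : ℤ) ≠ 0 := by
          have hm' : m ≠ 0 := by exact_mod_cast hm0
          have e1 := mul_self_pos.2 hm'
          have e2 := mul_self_nonneg n
          exact ne_of_gt (by linarith)
        exact_mod_cast h1
      have hs1r : s1 = (((b * (n * n)) / (m * m + n * n) : ℚ) : ℂ) := by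
        push_cast
        rw [eq_div_iff hmnz]
        have h1 : s1 + s2 = b := by rw [hs2]; ring
        linear_combination (-(n : ℂ) * n) * (-h1) + hmn
      exact hirr k0 _ (hs1.symm.trans hs1r)
    have hQ0 : Q = 0 := by
      rw [hP0, zero_add] at hPQ
      exact hPQ
    rw [← Finset.sum_add_sum_compl K]
    have e1 : ∑ k ∈ K, x k * (x k * x k) = P * s1 := by
      rw [hP, Finset.sum_mul]
      exact Finset.sum_congr rfl fun k hk => by rw [hK1 k hk]
    have e2 : ∑ k ∈ Kᶜ, x k * (x k * x k) = Q * s2 := by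
      rw [hQ, Finset.sum_mul]
      exact Finset.sum_congr rfl fun k hk => by rw [hK2 k hk]
    rw [e1, e2, hP0, hQ0, zero_mul, zero_mul, add_zero]
  calc ∑ k, y k = ∑ k, (c * x k + d * (x k * (x k * x k))) :=
        Finset.sum_congr rfl fun k _ => hyk k
    _ = c * ∑ k, x k + d * ∑ k, x k * (x k * x k) := by
        rw [Finset.sum_add_distrib, Finset.mul_sum, Finset.mul_sum]
    _ = 0 := by rw [hsum, hcube, mul_zero, mul_zero, add_zero]

end

end Pool.Agent.Run7.h358.U2
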