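import Pool.Agent.Run7.h358.U2.Link
import Pool.Agent.Run7.h358.U2.Quart
import Pool.Agent.N208.LC.Fin
import Pool.Agent.N297.LCCOREG

set_option autoImplicit false
set_option linter.unusedSectionVars false

/-!
# de Rham-Betti classes of all degrees, if the Lie algebra is the full unitary one
-/

open Module Matrix TensorProduct

noncomputable section

namespace Pool.Agent.Run7.h358.U2

open Pool.Agent.Y102 Pool.Agent.W516.DR Pool.Agent.H204R3.GP Pool.Agent.W516.KC
  Pool.Agent.H204R3.SP Pool.Agent.TH119.MX Pool.Agent.R917 Pool.Agent.N208.AM Pool.Agent.N208.AD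
  Pool.Agent.N208.BT Pool.Agent.N208.LC

variable {g : ℕ} {A : AbVar g} {z : Module.End ℚ A.H1} {N m : ℕ} {Sg : Finset ℝ}

/-- The Lie algebra of the unitary group annihilates all de Rham-Betti classes. -/
theorem skew_le' (hUU : UU A z ≤ A.LA) (hF : HF A z N)
    (hc : ∀ q : Polynomial ℚ, (∀ u v, A.om (Polynomial.aeval z q u) v +
      A.om u (Polynomial.aeval z q v) = 0) → Polynomial.aeval z q ∈ A.LA)
    {T : Module.End ℚ A.H1} (hT : T ∈ CB A) (hTs : ∀ u v, A.om (T u) v + A.om u (T v) = 0) :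
    T ∈ A.LA := by
  obtain ⟨q, h1, h2⟩ := skew_split hF hT hTs
  have h4 := A.LA.add_mem (hUU h2) (hc q h1)
  rwa [sub_add_cancel] at h4

/-- **Main theorem**, all degrees. -/
theorem main_all' (hADB : S_ADB) (hBRG : S_BRG) (hAP1 : S_AP1) (hUU : UU A z ≤ A.LA)
    (hF : HF A z N)
    (hc : ∀ q : Polynomial ℚ, (∀ u v, A.om (Polynomial.aeval z q u) v +
      A.om u (Polynomial.aeval z q v) = 0) → Polynomial.aeval z q ∈ A.LA)
    {φ : MultilinearMap ℚ (fun _ : Fin m × Fin 2 => A.H1) ℚ}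
    (hφ : IsDeRhamBettiForm QBar A.dR tau m φ) :
    φ ∈ Submodule.span ℚ (PrB (Fin m × Fin 2) m (QE A : Set (A.H1 →ₗ[ℚ] A.H1 →ₗ[ℚ] ℚ))) := by
  obtain ⟨P, T, iT, iT', pl, e, h1, h2⟩ := hADB (ℂ ⊗[ℚ] A.H1) _ _ _ _ _ (hAP1 g A z N hF)
  have hkill : ∀ X ∈ cx (CB A), (∀ u v, LinearMap.BilinForm.baseChange ℂ A.om (X u) v +
      LinearMap.BilinForm.baseChange ℂ A.om u (X v) = 0) → Kil X (bcm (Ω := ℂ) A.bas φ) := by
    intro X hX hs
    have h3 := (kills_bcm_iff (b := A.bas) φ X).2 fun lam => by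
      have h4 := cmp_of_ext (CB A) hX lam
      refine A.kills_of_mem hφ (skew_le' hUU hF hc h4 fun u v => ?_)
      have h5 : ∀ (Y : ℂ ⊗[ℚ] A.H1) (v : A.H1),
          lam (LinearMap.BilinForm.baseChange ℂ A.om Y (1 ⊗ₜ[ℚ] v)) = A.om (cmp lam Y) v := by
        intro Y v
        induction Y using TensorProduct.induction_on with
        | zero => simp
        | add a b ha hb => simp only [map_add, LinearMap.add_apply, ha, hb]
        | tmul a w =>
          rw [LinearMap.BilinForm.baseChange_tmul, cmp_tmul, mul_one, map_smul, map_smul,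
            LinearMap.smul_apply, smul_eq_mul, smul_eq_mul, mul_comm]
      have h6 : ∀ (Y : ℂ ⊗[ℚ] A.H1) (u : A.H1),
          lam (LinearMap.BilinForm.baseChange ℂ A.om (1 ⊗ₜ[ℚ] u) Y) = A.om u (cmp lam Y) := by
        intro Y u
        induction Y using TensorProduct.induction_on with
        | zero => simp
        | add a b ha hb => simp only [map_add, ha, hb]
        | tmul a w =>
          rw [LinearMap.BilinForm.baseChange_tmul, cmp_tmul, one_mul, map_smul, map_smul,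
            smul_eq_mul, smul_eq_mul, mul_comm]
      rw [cmpE_apply, cmpE_apply, ← h5, ← h6, ← map_add, hs, map_zero]
    exact h3
  have h3 := hBRG P N m T
    (Fin m × Fin 2) (ℂ ⊗[ℚ] A.H1) pl e (by simp [mul_comm]) (bcm (Ω := ℂ) A.bas φ)
    (fun b x => hkill _ (h1 b x).1 (h1 b x).2.1)
  refine Pool.Agent.N441.LCDESC.main A.H1 _ A.bas (Fin m × Fin 2) m (QE A) φ
    (Submodule.span_mono ?_ h3)
  rintro ψ ⟨ε, c, hc, hψ⟩
  refine ⟨ε, c, fun i => ?_, hψ⟩
  obtain ⟨Q, hQ, hQ'⟩ := h2 _ (hc i)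
  exact mem_QE hQ _ hQ'

/-- **de Rham-Betti classes of all degrees**. -/
theorem fin_all' (hUU : UU A z ≤ A.LA) (hF : HF A z N)
    (hc : ∀ q : Polynomial ℚ, (∀ u v, A.om (Polynomial.aeval z q u) v +
      A.om u (Polynomial.aeval z q v) = 0) → Polynomial.aeval z q ∈ A.LA)
    {φ : MultilinearMap ℚ (fun _ : Fin m × Fin 2 => A.H1) ℚ}
    (hφ : IsDeRhamBettiForm QBar A.dR tau m φ) :
    φ ∈ Submodule.span ℚ {ψ | IsProductOfHodgeBilinear (A.per : A.H1 →+ (Fin g → ℂ)) ψ} :=
  Submodule.span_mono (fun _ h => prB_hodge h)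
    (main_all' N803.LCADB.main (N160.LCBRG.main N297.LCCOREG.main) N492.LCAP1.main hUU hF hc hφ)

/-! ### The centre -/

/-- The centre of the Lie algebra is not zero, and if the relations between the conjugates of the
elements of the centre hold for all skew elements of `ℚ[z]` then these are in the Lie algebra. -/
theorem skew_mem_of_dom {al : ℝ} (h : HQ A z al) (hF : HF A z 2)
    (hd : ∀ p q : Polynomial ℚ, IsSkew A.om (Polynomial.aeval z p) →
      IsSkew A.om (Polynomial.aeval z q) → Polynomial.aeval z p ≠ 0 →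
      Dom (Polynomial.aeval z p) (Polynomial.aeval z q)) (q : Polynomial ℚ)
    (hq : IsSkew A.om (Polynomial.aeval z q)) : Polynomial.aeval z q ∈ A.LA := by
  obtain ⟨X, hX, hne, hXc⟩ := centre_ne h hF.field hF.deg A.full_LA
  have hXE : X ∈ A.EA := fun Y hY => (hXc Y hY).symm
  obtain ⟨p, rfl⟩ := hF.gen X hXE fun Q hQ => hQ X hX
  have hqE : Polynomial.aeval z q ∈ A.EA := fun Y hY => comm_aeval' (hF.mem Y hY) q
  intro m φ hφ
  exact A.kills_of_dom ⟨hXE, A.LA_skew hX, fun Q hQ => hQ _ hX⟩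
    ⟨hqE, hq, fun Q hQ => (comm_aeval' (hF.cen Q hQ).symm q).symm⟩ (hd p q (A.LA_skew hX) hq hne)
    (hX m φ hφ)

/-- Quartic fields without imaginary quadratic subfields. -/
theorem dom_quartic (hF : HF A z 2) (hdim : finrank ℚ (Algebra.adjoin ℚ {z}) = 4)
    (hirr : ∀ q : Polynomial ℚ, Polynomial.aeval z q ≠ 0 → IsSkew A.om (Polynomial.aeval z q) →
      ∀ r : ℚ, Polynomial.aeval z q * Polynomial.aeval z q ≠ r • (1 : Module.End ℚ A.H1))
    (p q : Polynomial ℚ) (hp : IsSkew A.om (Polynomial.aeval z p))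
    (hq : IsSkew A.om (Polynomial.aeval z q)) (hne : Polynomial.aeval z p ≠ 0) :
    Dom (Polynomial.aeval z p) (Polynomial.aeval z q) := by
  have hsk : ∀ T : Module.End ℚ A.H1, Skw A.om T ↔ IsSkew A.om T := fun T =>
    ⟨fun h u v => by rw [h u v, neg_add_cancel], fun h u v => eq_neg_of_add_eq_zero_left (h u v)⟩
  have hQF : QF A.om z :=
    { nd := fun u hu => A.om_nondeg hu
      field := hF.field
      dim := hdim
      irr := fun q h0 hs r => hirr q h0 ((hsk _).1 hs) r }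
  exact hQF.dom (mem_adj.2 ⟨p, rfl⟩) hne ((hsk _).2 hp) (mem_adj.2 ⟨q, rfl⟩) ((hsk _).2 hq)

end Pool.Agent.Run7.h358.U2
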