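import Pool.Agent.Run7.h358.U2.Ct
import Pool.Agent.Run7.h358.U2.Fn

set_option autoImplicit false
set_option linter.unusedSectionVars false

/-!
# The Lie algebra of the group of a motive, for abelian varieties of unitary type of rank two
-/

open Module Function TensorProduct Matrix

noncomputable section

namespace Pool.Agent.Run7.h358.U2

open Pool.Agent.Y102 Pool.Agent.W516.DR Pool.Agent.H204R3.GP Pool.Agent.W516.KC
  Pool.Agent.H204R3.SP Pool.Agent.TH119.MX Pool.Agent.R917 Pool.Agent.N208.AM Pool.Agent.N208.AD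
  Pool.Agent.N208.BT Pool.Agent.N208.CT Pool.Agent.N208.LC

variable {g : ℕ} {A : AbVar g} {s n : ℕ} {r : Fin s → ℕ} {B : Fin n → Ten A r} {w : Fin s → ℤ}
  {P : Matrix (Fin n) (Fin n) ℂ} {H : Set (Matrix (Fin n) (Fin n) ℂ)}
  {Wt : Matrix (Fin n) (Fin n) ℚ} {N : Matrix (Fin n) (Fin n) ℝ}
  {z : Module.End ℚ A.H1} {Sg : Finset ℝ}

/-- The derived algebra is contained in the special unitary Lie algebra. -/
theorem der_le_UU (hz : z ∈ A.EA) : der A.NA ≤ UU A z := by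
  unfold der
  refine Submodule.span_le.2 ?_
  rintro _ ⟨X, hX, Y, hY, rfl⟩
  have h1 := A.NA_bracket hX hY
  refine ⟨N768.BGPD.NA_CB h1, fun u v => A.NA_skew h1 u v, fun q => ?_⟩
  have h2 : Y * Polynomial.aeval z q = Polynomial.aeval z q * Y :=
    comm_aeval' (A.NA_comm hY hz) q
  have h3 : (X * Y - Y * X) * Polynomial.aeval z q =
      X * (Polynomial.aeval z q * Y) - Y * (X * Polynomial.aeval z q) := by
    rw [sub_mul, mul_assoc X Y, h2, mul_assoc Y X]
  rw [h3, map_sub, LinearMap.trace_mul_comm ℚ Y, mul_assoc X, sub_self]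

/-- The relations between the conjugates of a skew element different from zero of `ℚ[z]` hold for
all skew elements. -/
def GoodDom (A : AbVar g) (z : Module.End ℚ A.H1) : Prop :=
  ∀ p q : Polynomial ℚ, IsSkew A.om (Polynomial.aeval z p) →
    IsSkew A.om (Polynomial.aeval z q) → Polynomial.aeval z p ≠ 0 →
    Dom (Polynomial.aeval z p) (Polynomial.aeval z q)

theorem cn_poly {M : ℕ} (hF : HF A z M) {X : Module.End ℚ A.H1} (hX : X ∈ A.CN) :
    ∃ p : Polynomial ℚ, X = Polynomial.aeval z p ∧ IsSkew A.om X := by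
  have h1 := A.CN_le_ZA hX
  obtain ⟨p, hp⟩ := hF.gen X h1.1 h1.2.2
  exact ⟨p, hp, h1.2.1⟩

theorem hdom_of {M : ℕ} (hF : HF A z M) (hd : GoodDom A z) :
    ∀ X ∈ A.CN, X ≠ 0 → ∀ Y ∈ A.CN, Dom X Y := by
  intro X hX hne Y hY
  obtain ⟨p, rfl, hp⟩ := cn_poly hF hX
  obtain ⟨q, rfl, hq⟩ := cn_poly hF hY
  exact hd p q hp hq hne

theorem hex_of {al : ℝ} (h : HQ A z al) (hF : HF A z 2) :
    ∀ 𝔮 : Submodule ℚ (Module.End ℚ A.H1), A.Full 𝔮 →
      ∃ X ∈ 𝔮, X ≠ 0 ∧ ∀ Y ∈ 𝔮, X * Y = Y * X :=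
  fun _ hq => centre_ne h hF.field hF.deg hq

/-- **The derived algebra** is in the Lie algebra of the group. -/
theorem der_LQ (hL : HL' A z Sg) (hz : z ∈ A.EA) (h : Mot w B P) (hW : WRel w B Wt)
    (hH : PtM P H) {Z : Module.End ℚ A.H1} (hZ : Z ∈ der A.NA) {M : Matrix (Fin n) (Fin n) ℚ}
    (hM : Rel B Z M) : M ∈ LQ H := by
  have h1 := su_le_der hL (qM_full h hW hH) (der_le_UU hz hZ)
  obtain ⟨-, M', hM', h2⟩ := der_mem h hW h1
  rwa [Rel.uniq h.li hM hM']

end Pool.Agent.Run7.h358.U2
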