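import Pool.Agent.N208.BT.PDiv

set_option autoImplicit false
set_option linter.unusedSectionVars false

/-!
# All full subalgebras have the same derived algebra on the parts, if there are no links

The same as `Pool.Agent.N441.BGSJ` (by helper441), with the absence of links instead of the separation
of the places as a hypothesis.
-/

open Module Matrix

noncomputable section

namespace Pool.Agent.Run7.h358.U2

open Pool.Agent.Y102 Pool.Agent.W516.DR Pool.Agent.H204R3.GP Pool.Agent.W516.KC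
  Pool.Agent.H204R3.SP Pool.Agent.TH119.MX Pool.Agent.R917 Pool.Agent.N208.AM Pool.Agent.N208.AD
  Pool.Agent.N208.BT Pool.Agent.N441.BGSJ

/-- the hypotheses for a finite set of eigenvalues: there are no links, and all full subalgebras
contain the long roots at the indefinite places -/
structure HG' {g : ℕ} (A : AbVar g) (z : Module.End ℚ A.H1) (Sg : Finset ℝ) : Prop where
  hq : ∀ al ∈ Sg, HQ A z al
  disj : ∀ al ∈ Sg, -al ∉ Sg
  nolink : ∀ al ∈ Sg, ∀ be ∈ Sg, al ≠ be → ∀ (N N' : ℕ) (sg : Fin N → ℝ) (sg' : Fin N' → ℝ)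
    (φ : VN N →ₗ[ℝ] (Fin g → ℂ)) (φ' : VN N' →ₗ[ℝ] (Fin g → ℂ)),
    WN A z al N sg φ → WN A z be N' sg' φ' →
    ∀ 𝔮 : Submodule ℚ (Module.End ℚ A.H1), A.Full 𝔮 → ¬ Linked (rN2 A (der 𝔮) φ φ')
  big : ∀ al ∈ Sg, ∀ (N : ℕ) (sg : Fin N → ℝ) (φ : VN N →ₗ[ℝ] (Fin g → ℂ)), WN A z al N sg φ →
    Mixed sg ∧ ∀ 𝔮 : Submodule ℚ (Module.End ℚ A.H1), A.Full 𝔮 → Big sg (rN A (der 𝔮) φ)

variable {g : ℕ} {A : AbVar g}

/-- two places -/
theorem pair (hSU : G_SU) (hPA : G_PA) (hRR : G_RR) {z : Module.End ℚ A.H1}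
    {Sg : Finset ℝ} (H : HG' A z Sg) {al be : ℝ} (hal : al ∈ Sg) (hbe : be ∈ Sg) (hne : al ≠ be)
    {N N' : ℕ} {sg : Fin N → ℝ} {sg' : Fin N' → ℝ} {φ : VN N →ₗ[ℝ] (Fin g → ℂ)}
    {φ' : VN N' →ₗ[ℝ] (Fin g → ℂ)} (w : WN A z al N sg φ) (w' : WN A z be N' sg' φ')
    {𝔮 : Submodule ℚ (Module.End ℚ A.H1)} (hq : A.Full 𝔮) {m : MN N} (hsk : IsSks sg m)
    (ht : m.trace = 0) : (m, (0 : MN N')) ∈ rN2 A (der 𝔮) φ φ' := by
  have hmx := (H.big al hal N sg φ w).1
  have hmx' := (H.big be hbe N' sg' φ' w').1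
  have hB := (H.big al hal N sg φ w).2 𝔮 hq
  have hB' := (H.big be hbe N' sg' φ' w').2 𝔮 hq
  have hr := hRR g A z al (H.hq al hal) N sg φ w 𝔮 hq
  have hr' := hRR g A z be (H.hq be hbe) N' sg' φ' w' 𝔮 hq
  have k1 : ∀ p ∈ rN2 A (der 𝔮) φ φ', p.1 ∈ rN A (der 𝔮) φ := by
    rintro p ⟨y, hy, h1, _⟩
    exact ⟨y, hy, h1⟩
  have k2 : ∀ p ∈ rN2 A (der 𝔮) φ φ', p.2 ∈ rN A (der 𝔮) φ' := by
    rintro p ⟨y, hy, _, h2⟩
    exact ⟨y, hy, h2⟩
  have hPR : PRs sg sg' (rN2 A (der 𝔮) φ φ') := by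
    refine ⟨?_, fun p hp => hr.sk _ (k1 p hp), fun p hp => hr'.sk _ (k2 p hp),
      fun p hp => trace_zero hr (k1 p hp), fun p hp => trace_zero hr' (k2 p hp), ?_, ?_⟩
    · rintro p ⟨y, hy, h1, h2⟩ q ⟨y', hy', h1', h2'⟩
      refine ⟨y * y' - y' * y, der_br hq y hy y' hy', fun x => ?_, fun x => ?_⟩
      · rw [LinearMap.sub_apply, Module.End.mul_apply, Module.End.mul_apply, h1', h1, h1, h1',
          ← map_sub, Matrix.mulVec_mulVec, Matrix.mulVec_mulVec, ← Matrix.sub_mulVec]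
        rfl
      · rw [LinearMap.sub_apply, Module.End.mul_apply, Module.End.mul_apply, h2', h2, h2, h2',
          ← map_sub, Matrix.mulVec_mulVec, Matrix.mulVec_mulVec, ← Matrix.sub_mulVec]
        rfl
    · intro x hx
      obtain ⟨y, hy, h1⟩ := hB x hx
      obtain ⟨m', hm'⟩ := mat_spE (H.hq be hbe) w' (der_spE hq hy)
      exact ⟨m', y, hy, h1, hm'⟩
    · intro x hx
      obtain ⟨y, hy, h1⟩ := hB' x hx
      obtain ⟨m', hm'⟩ := mat_spE (H.hq al hal) w (der_spE hq hy)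
      exact ⟨m', y, hy, hm', h1⟩
  have h3 := (hPA N N' sg sg' w.isSg hmx w'.isSg hmx' _ hPR).resolve_right
    (H.nolink al hal be hbe hne N N' sg sg' φ φ' w w' 𝔮 hq)
  have h4 := hSU N sg w.isSg hmx m hsk ht
  have h5 : Submodule.span ℝ {Y : MN N | ∃ x : VN N, hs sg x x = 0 ∧ Y = Complex.I • Rs sg x x} ≤
      (rN2 A (der 𝔮) φ φ').comap (LinearMap.inl ℝ (MN N) (MN N')) := by
    refine Submodule.span_le.mpr ?_
    rintro Y ⟨x, hx, rfl⟩
    exact h3 x hx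
  exact h5 h4

/-- an element of the derived algebra which is prescribed at one place and zero at the others -/
theorem one_place (hSU : G_SU) (hPA : G_PA) (hRR : G_RR) {z : Module.End ℚ A.H1}
    {Sg : Finset ℝ} (H : HG' A z Sg) (N : Sg → ℕ) (sg : ∀ a, Fin (N a) → ℝ)
    (φ : ∀ a, VN (N a) →ₗ[ℝ] (Fin g → ℂ)) (w : ∀ a : Sg, WN A z a.1 (N a) (sg a) (φ a))
    {𝔮 : Submodule ℚ (Module.End ℚ A.H1)} (hq : A.Full 𝔮) (al : Sg) (T : Finset Sg)
    (hT : al ∉ T) : ∀ m : MN (N al), IsSks (sg al) m → m.trace = 0 →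
      ∃ y ∈ spE A (der 𝔮 : Set (Module.End ℚ A.H1)), (∀ x, y (φ al x) = φ al (m *ᵥ x)) ∧
        ∀ be ∈ T, ∀ x, y (φ be x) = 0 := by
  have hr := hRR g A z al.1 (H.hq al.1 al.2) (N al) (sg al) (φ al) (w al) 𝔮 hq
  have hB := H.big al.1 al.2 (N al) (sg al) (φ al) (w al)
  induction T using Finset.induction_on with
  | empty =>
    intro m hs ht
    obtain ⟨y, hy, h1⟩ := full_mem hSU (w al).isSg hB.1 (hB.2 𝔮 hq) hs ht
    exact ⟨y, hy, h1, fun be hbe => absurd hbe (Finset.notMem_empty be)⟩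
  | insert be T hbe ih =>
    have hne : al.1 ≠ be.1 := fun h0 => hT (by
      rw [Subtype.ext h0]
      exact Finset.mem_insert_self _ _)
    have ih' := ih fun h0 => hT (Finset.mem_insert_of_mem h0)
    intro m hs ht
    have h1 := hr.perf (full_mem hSU (w al).isSg hB.1 (hB.2 𝔮 hq) hs ht)
    clear hs ht
    induction h1 using Submodule.span_induction with
    | mem m hm =>
      obtain ⟨X, hX, Y, hY, rfl⟩ := hm
      obtain ⟨y1, hy1, e1, k1⟩ := ih' X (hr.sk X hX) (trace_zero hr hX)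
      obtain ⟨y2, hy2, e2, k2⟩ := pair hSU hPA hRR H al.2 be.2 hne (w al) (w be) hq
        (hr.sk Y hY) (trace_zero hr hY)
      refine ⟨y1 * y2 - y2 * y1, der_br hq y1 hy1 y2 hy2, fun x => ?_, fun t ht x => ?_⟩
      · have e2' : ∀ x, y2 (φ al x) = φ al (Y *ᵥ x) := e2
        rw [LinearMap.sub_apply, Module.End.mul_apply, Module.End.mul_apply, e2', e1, e1, e2',
          ← map_sub, Matrix.mulVec_mulVec, Matrix.mulVec_mulVec, ← Matrix.sub_mulVec]
      · rw [LinearMap.sub_apply, Module.End.mul_apply, Module.End.mul_apply]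
        rcases Finset.mem_insert.mp ht with rfl | ht
        · have k2' : ∀ x, y2 (φ t x) = 0 := fun x => by
            rw [k2, Matrix.zero_mulVec, map_zero]
          obtain ⟨m1, hm1⟩ := mat_spE (H.hq t.1 t.2) (w t) (der_spE hq hy1)
          rw [k2', map_zero, hm1, k2', sub_zero]
        · obtain ⟨m2, hm2⟩ := mat_spE (H.hq t.1 t.2) (w t) (der_spE hq hy2)
          rw [k1 t ht, map_zero, hm2, k1 t ht, sub_zero]
    | zero =>
      exact ⟨0, Submodule.zero_mem _, fun x => by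
        rw [LinearMap.zero_apply, Matrix.zero_mulVec, map_zero], fun t _ x => by
        rw [LinearMap.zero_apply]⟩
    | add a b _ _ ha hb =>
      obtain ⟨ya, hya, ea, ka⟩ := ha
      obtain ⟨yb, hyb, eb, kb⟩ := hb
      exact ⟨ya + yb, Submodule.add_mem _ hya hyb, fun x => by
        rw [LinearMap.add_apply, Matrix.add_mulVec, map_add, ea, eb], fun t ht x => by
        rw [LinearMap.add_apply, ka t ht, kb t ht, add_zero]⟩
    | smul c a _ ha =>
      obtain ⟨ya, hya, ea, ka⟩ := ha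
      exact ⟨c • ya, Submodule.smul_mem _ c hya, fun x => by
        rw [LinearMap.smul_apply, Matrix.smul_mulVec, map_smul, ea], fun t ht x => by
        rw [LinearMap.smul_apply, ka t ht, smul_zero]⟩

theorem sj (hSU : G_SU) (hPA : G_PA) (hWA : G_WA) (hWB : G_WB) (hRR : G_RR)
    {z : Module.End ℚ A.H1} {Sg : Finset ℝ} (H : HG' A z Sg)
    {𝔮 : Submodule ℚ (Module.End ℚ A.H1)} (hq : A.Full 𝔮) {X : Module.End ℝ (Fin g → ℂ)}
    (hX : X ∈ spE A (der A.NA : Set (Module.End ℚ A.H1))) :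
    ∃ y ∈ spE A (der 𝔮 : Set (Module.End ℚ A.H1)), ∀ al ∈ Sg, ∀ x ∈ V0 A z al, X x = y x := by
  have h1 : ∀ a : Sg, ∃ (N : ℕ) (sg : Fin N → ℝ) (φ : VN N →ₗ[ℝ] (Fin g → ℂ)),
      WN A z a.1 N sg φ := by
    intro a
    obtain ⟨W, hW⟩ := hWA g A z a.1 (H.hq a.1 a.2)
    exact hWB g A z a.1 (H.hq a.1 a.2) W hW
  choose N sg φ w using h1
  have hXN : X ∈ spE A (A.NA : Set (Module.End ℚ A.H1)) := der_spE full_NA hX
  have h2 : ∀ a : Sg, ∃ m : MN (N a), ∀ x, X (φ a x) = φ a (m *ᵥ x) := fun a =>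
    mat_spE (H.hq a.1 a.2) (w a) hXN
  choose m hm using h2
  have h3 : ∀ a : Sg, ∃ y ∈ spE A (der 𝔮 : Set (Module.End ℚ A.H1)),
      (∀ x, y (φ a x) = φ a (m a *ᵥ x)) ∧
        ∀ be ∈ (Finset.univ : Finset Sg).erase a, ∀ x, y (φ be x) = 0 := by
    intro a
    have hr := hRR g A z a.1 (H.hq a.1 a.2) (N a) (sg a) (φ a) (w a) A.NA full_NA
    have hma : m a ∈ rN A (der A.NA) (φ a) := ⟨X, hX, hm a⟩
    exact one_place hSU hPA hRR H N sg φ w hq a _ (Finset.notMem_erase a _) (m a)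
      (hr.sk _ hma) (trace_zero hr hma)
  choose y hy e k using h3
  refine ⟨∑ a, y a, Submodule.sum_mem _ fun a _ => hy a, fun al hal x hx => ?_⟩
  have hsum : ∑ a, y a ∈ spE A (A.NA : Set (Module.End ℚ A.H1)) :=
    Submodule.sum_mem _ fun a _ => der_spE hq (hy a)
  have h5 := (w ⟨al, hal⟩).gen (X - ∑ a, y a)
    (fun P hP => spE_comm (Submodule.sub_mem _ hXN hsum) hP)
    (fun u => by
      rw [LinearMap.sub_apply, LinearMap.sum_apply, Finset.sum_eq_single ⟨al, hal⟩, e, hm,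
        sub_self]
      · intro b _ hb
        exact k b ⟨al, hal⟩ (Finset.mem_erase.mpr ⟨fun h => hb h.symm, Finset.mem_univ _⟩) u
      · intro h
        exact absurd (Finset.mem_univ _) h)
    x hx
  rw [LinearMap.sub_apply, sub_eq_zero] at h5
  exact h5

/-- The unitary part. -/
theorem rpart' {z : Module.End ℚ A.H1} {Sg : Finset ℝ} (h : HG' A z Sg) : RPart A (US A z Sg) where
  stab X hX u hu := by
    obtain ⟨al, hal, hu⟩ := hu
    exact ⟨al, hal, V0_NA (h.hq al hal).mem hX hu⟩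
  der 𝔮 h𝔮 X hX := by
    obtain ⟨y, hy, h1⟩ := sj N749.BGSU.main gpa_main N755.BGWA.main N455.BGWB.main N755.BGRR.main h
      h𝔮 hX
    refine ⟨y, hy, fun u hu => ?_⟩
    obtain ⟨al, hal, hu⟩ := hu
    exact h1 al hal u hu

end Pool.Agent.Run7.h358.U2
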