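import Pool.Agent.Run7.h358.U2.Ch2
import Pool.Agent.N383.LCU

set_option autoImplicit false
set_option linter.unusedSectionVars false

/-!
# The derived algebra of a full subalgebra is the special unitary Lie algebra, if there are no links

The same as the last part of `Pool.Agent.N383.LCU` (by helper383), with the absence of links instead of
the separation of the places as a hypothesis.
-/

open Module Matrix Polynomial

noncomputable section

namespace Pool.Agent.Run7.h358.U2

open Pool.Agent.Y102 Pool.Agent.W516.DR Pool.Agent.H204R3.GP Pool.Agent.W516.KC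
  Pool.Agent.H204R3.SP Pool.Agent.TH119.MX Pool.Agent.R917 Pool.Agent.N208.AM Pool.Agent.N208.AD
  Pool.Agent.N208.BT Pool.Agent.N208.LC Pool.Agent.N383.LCU

variable {g : ℕ} {A : AbVar g} {z : Module.End ℚ A.H1}

/-! ### The orthogonal complement of the derived algebra -/

open Pool.Agent.N755.BGWA in
theorem claim {Sg : Finset ℝ} (H : HL' A z Sg)
    {𝔮 : Submodule ℚ (Module.End ℚ A.H1)} (hq : A.Full 𝔮) {T : Module.End ℚ A.H1}
    (hT : T ∈ UU A z) (h0 : ∀ d ∈ der 𝔮, LinearMap.trace ℚ A.H1 (T * d) = 0) : T = 0 := by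
  obtain ⟨hTC, hTs, hTt⟩ := hT
  obtain ⟨al, hal⟩ := H.ne
  have hQ := H.hg.hq al hal
  obtain ⟨W, hW⟩ := N755.BGWA.main g A z al hQ
  obtain ⟨N, sg, φ, w⟩ := N455.BGWB.main g A z al hQ W hW
  obtain ⟨t, ht⟩ := mat_CB hQ w hTC
  have hsk : IsSks sg t := sks_of w (skewE hTs) ht
  have hNpos : (N : ℂ) ≠ 0 := by
    have := w.pos
    exact_mod_cast this.ne'
  obtain ⟨ρ, hρ⟩ : ∃ ρ : ℝ, t.trace = N * ((ρ : ℂ) * Complex.I) := by
    refine ⟨t.trace.im / N, ?_⟩
    have h1 : t.trace = (t.trace.im : ℂ) * Complex.I := by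
      apply Complex.ext
      · rw [trace_re w.isSg hsk]
        simp
      · simp
    conv_lhs => rw [h1]
    push_cast
    field_simp
  -- commutation
  have hTP : ∀ P ∈ A.EA, A.ext T * A.ext P = A.ext P * A.ext T := fun P hP => by
    rw [← Pool.Agent.N208.AD.ext_mul, ← Pool.Agent.N208.AD.ext_mul, hTC P hP]
  have hzP : ∀ P ∈ A.EA, A.ext z * A.ext P = A.ext P * A.ext z := fun P hP => by
    rw [← Pool.Agent.N208.AD.ext_mul, ← Pool.Agent.N208.AD.ext_mul, hQ.cen P hP]
  have hJP : ∀ P ∈ A.EA, (AbVar.JJ : Module.End ℝ (Fin g → ℂ)) * A.ext P = A.ext P * AbVar.JJ :=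
    fun P hP => LinearMap.ext fun x => by
      rw [Module.End.mul_apply, Module.End.mul_apply, AbVar.JJ_apply, AbVar.JJ_apply,
        AbVar.CR_complex A.endAlg (mem_CR hP)]
  obtain ⟨q, e1, e2, e3, e4⟩ := proj hQ
  obtain ⟨e, he⟩ : ∃ e, e = aeval (A.ext z) q := ⟨_, rfl⟩
  rw [← he] at e1 e2 e3 e4
  have hze : e * A.ext z = A.ext z * e := by
    rw [he]
    exact (comm_aeval rfl q).symm
  have hzV : ∀ x ∈ V0 A z al, A.ext z x ∈ V0 A z al := (V0_good hQ).stabz
  have hz2 : ∀ x ∈ V0 A z al, A.ext z (A.ext z x) = -((al ^ 2) • x) := fun x hx =>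
    eq_neg_of_add_eq_zero_left (mem_V0.1 hx)
  -- the trace is zero
  have hρ0 : ρ = 0 := by
    have htr0 : (t - ((ρ : ℂ) * Complex.I) • (1 : MN N)).trace = 0 := by
      rw [Matrix.trace_sub, Matrix.trace_smul, Matrix.trace_one, Fintype.card_fin, hρ, smul_eq_mul]
      ring
    obtain ⟨y, hy, hy1, hy2⟩ := C2.cpt H hal w hq (sks_sub hsk ρ) htr0
    have hyN := N441.BGSJ.der_spE hq hy
    have hV := w.gen (A.ext T - y - (ρ * al⁻¹) • A.ext z)
      (fun P hP => by
        rw [sub_mul, sub_mul, mul_sub, mul_sub, hTP P hP, N441.BGSJ.spE_comm hyN hP,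
          smul_mul_assoc, mul_smul_comm, hzP P hP])
      (fun x => by
        have e7 : (ρ * al⁻¹) • A.ext z (φ x) = ρ • φ (Complex.I • x) := by
          rw [w.mulI, smul_smul]
        rw [LinearMap.sub_apply, LinearMap.sub_apply, LinearMap.smul_apply, ht, hy1, e7,
          Matrix.sub_mulVec, Matrix.smul_mulVec, Matrix.one_mulVec, ← map_smul,
          ← map_sub, ← map_sub]
        have e5 : t *ᵥ x - (t *ᵥ x - ((ρ : ℂ) * Complex.I) • x) - ρ • (Complex.I • x) = 0 := by
          rw [mul_smul]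
          have e6 : ρ • (Complex.I • x) = (ρ : ℂ) • (Complex.I • x) := rfl
          rw [e6]
          abel
        rw [e5, map_zero])
    have hop : A.ext T * (A.ext z * e) = y * A.ext z + (-(ρ * al⁻¹ * al ^ 2)) • e := by
      have h1 : y * A.ext z = y * (A.ext z * e) := by
        conv_lhs => rw [← e3 y hy2]
        rw [mul_assoc, hze]
      rw [h1]
      refine LinearMap.ext fun x => ?_
      have h2 := hV _ (hzV _ (e1 x))
      rw [LinearMap.sub_apply, LinearMap.sub_apply, LinearMap.smul_apply, hz2 _ (e1 x)] at h2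
      rw [LinearMap.add_apply, LinearMap.smul_apply]
      simp only [Module.End.mul_apply]
      have h3 : A.ext T (A.ext z (e x)) = (A.ext T (A.ext z (e x)) - y (A.ext z (e x)) -
          (ρ * al⁻¹) • -((al ^ 2) • e x)) + (y (A.ext z (e x)) +
          (ρ * al⁻¹) • -((al ^ 2) • e x)) := by abel
      rw [h3, h2, zero_add]
      congr 1
      module
    have htr1 := tr_poly hTt (X * q)
    have hXq : aeval (A.ext z) (X * q) = A.ext z * e := by rw [map_mul, aeval_X, he]
    rw [hXq, hop, map_add, map_smul] at htr1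
    have htr2 : LinearMap.trace ℝ (Fin g → ℂ) (y * A.ext z) = 0 := by
      rw [LinearMap.trace_mul_comm]
      refine tr_sp (T := z) (S := der 𝔮) (fun d hd => ?_) hy
      have h1 := (der_le_UU hQ.mem hq hd).2.2 X
      rw [aeval_X] at h1
      rw [LinearMap.trace_mul_comm]
      exact h1
    have htr3 : LinearMap.trace ℝ (Fin g → ℂ) e = finrank ℝ (V0 A z al) :=
      LinearMap.IsProj.trace ⟨e1, e2⟩
    have hpos : 0 < finrank ℝ (V0 A z al) := by
      obtain ⟨x, hx, hx0⟩ := hQ.ex
      have : Nontrivial (V0 A z al) := ⟨⟨⟨x, hx⟩, 0, fun h1 => hx0 (congrArg Subtype.val h1)⟩⟩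
      exact finrank_pos
    rw [htr2, zero_add, htr3, smul_eq_mul] at htr1
    have h5 : ((finrank ℝ (V0 A z al) : ℕ) : ℝ) ≠ 0 := by exact_mod_cast hpos.ne'
    have h6 := (mul_eq_zero.1 htr1).resolve_right h5
    have h7 : ρ * al = 0 := by
      have h8 := hQ.ne
      field_simp at h6
      linarith
    exact (mul_eq_zero.1 h7).resolve_right hQ.ne
  have htr : t.trace = 0 := by
    rw [hρ, hρ0]
    simp
  -- the adjoint
  obtain ⟨T', hT'⟩ : ∃ T' : Module.End ℝ (Fin g → ℂ), T' = AbVar.JJ * A.ext T * AbVar.JJ := ⟨_, rfl⟩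
  have hT'x : ∀ x, T' x = Complex.I • A.ext T (Complex.I • x) := fun x => by rw [hT']; rfl
  have hT'm : ∀ x, T' (φ x) = φ ((DJ sg * t * DJ sg) *ᵥ x) := by
    intro x
    rw [hT'x, DJ_spec w, ht, DJ_spec w, Matrix.mulVec_mulVec, Matrix.mulVec_mulVec, mul_assoc]
  have hT's : ∀ u v, A.E (T' u) v = -A.E u (T' v) := by
    intro u v
    rw [hT'x, hT'x, E_J, skewE hTs, E_J, neg_neg]
  obtain ⟨y', hy', hy1', hy2'⟩ := C2.cpt H hal w hq (sks_of w hT's hT'm)
    (by rw [trace_conj w.isSg, htr, neg_zero])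
  have hyN' := N441.BGSJ.der_spE hq hy'
  have hV' := w.gen (T' - y')
    (fun P hP => by
      rw [sub_mul, mul_sub, N441.BGSJ.spE_comm hyN' hP, hT', comm3 (hJP P hP) (hTP P hP)])
    (fun x => by rw [LinearMap.sub_apply, hT'm, hy1', sub_self])
  have hyT : y' = T' * e := by
    rw [← e3 y' hy2']
    refine LinearMap.ext fun x => ?_
    have h1 := hV' _ (e1 x)
    rw [LinearMap.sub_apply, sub_eq_zero] at h1
    exact h1.symm
  have htr4 := tr_sp h0 hy'
  rw [hyT] at htr4
  have hT'z : T' * A.ext z = A.ext z * T' := by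
    rw [hT', comm3 (hJP z hQ.mem) (hTP z hQ.mem)]
  have hT'e : T' * e = e * T' := by
    rw [he]
    exact comm_aeval hT'z q
  have hee : e * e = e := LinearMap.ext fun x => e2 _ (e1 x)
  have hTe : A.ext T * e = 0 := by
    by_contra hne
    have h1 := tr_adj_pos (A := A) (Y := A.ext T * e) (Y' := e * T') (fun u v => by
      rw [Module.End.mul_apply, Module.End.mul_apply, ← e4, A.PF_apply, A.PF_apply, skewE hTs,
        hT'x, smul_smul, Complex.I_mul_I, neg_one_smul, map_neg]) hne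
    have h2 : A.ext T * e * (e * T') = A.ext T * (T' * e) := by
      rw [hT'e, mul_assoc, ← mul_assoc e, hee]
    rw [h2, htr4] at h1
    exact lt_irrefl _ h1
  refine K hQ H.field fun x hx => ?_
  rw [← e2 x hx, ← Module.End.mul_apply, hTe, LinearMap.zero_apply]

/-- **LC/U.** -/
theorem su_le_der {Sg : Finset ℝ} (H : HL' A z Sg) {𝔮 : Submodule ℚ (Module.End ℚ A.H1)}
    (hq : A.Full 𝔮) : UU A z ≤ der 𝔮 := by
  obtain ⟨al, hal⟩ := H.ne
  have hz := (H.hg.hq al hal).mem
  have h1 := der_le_UU hz hq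
  let f : UU A z →ₗ[ℚ] Module.Dual ℚ (der 𝔮) :=
    { toFun := fun T => ((LinearMap.trace ℚ A.H1).comp (LinearMap.mulLeft ℚ T.1)).comp
        (der 𝔮).subtype
      map_add' := fun a b => by
        refine LinearMap.ext fun d => ?_
        change LinearMap.trace ℚ A.H1 ((a.1 + b.1) * d.1) =
          LinearMap.trace ℚ A.H1 (a.1 * d.1) + LinearMap.trace ℚ A.H1 (b.1 * d.1)
        rw [add_mul, map_add]
      map_smul' := fun c a => by
        refine LinearMap.ext fun d => ?_
        change LinearMap.trace ℚ A.H1 ((c • a.1) * d.1) = c • LinearMap.trace ℚ A.H1 (a.1 * d.1)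
        rw [smul_mul_assoc, map_smul] }
  have hf : Function.Injective f := by
    rw [injective_iff_map_eq_zero]
    intro T hT
    refine Subtype.ext (claim H hq T.2 fun d hd => ?_)
    exact LinearMap.congr_fun hT ⟨d, hd⟩
  have h2 := LinearMap.finrank_le_finrank_of_injective hf
  have h3 : finrank ℚ (Module.Dual ℚ (der 𝔮)) = finrank ℚ (der 𝔮) :=
    Subspace.dual_finrank_eq (K := ℚ) (V := der 𝔮)
  exact (Submodule.eq_of_le_of_finrank_le h1 (h2.trans h3.le)).ge


end Pool.Agent.Run7.h358.U2
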