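import Pool.Agent.Run7.h358.U2.Rank

set_option autoImplicit false
set_option linter.unusedSectionVars false

/-!
# The centre is not trivial

If the commutant is of dimension four over the centre, then the squares of the elements of the
derived algebra of a full subalgebra are central. It follows that the full subalgebra is not equal to
its derived algebra, so its centre is not zero.
-/

open Module Matrix

noncomputable section

namespace Pool.Agent.Run7.h358.U2

open Pool.Agent.Y102 Pool.Agent.W516.DR Pool.Agent.H204R3.GP Pool.Agent.W516.KC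
  Pool.Agent.H204R3.SP Pool.Agent.TH119.MX Pool.Agent.R917 Pool.Agent.N208.AM Pool.Agent.N208.AD
  Pool.Agent.N208.BT

theorem sq_scalar {N : ℕ} (hN : N ≤ 2) (t : MN N) (ht : t.trace = 0) :
    ∃ c : ℂ, t * t = c • (1 : MN N) := by
  interval_cases N
  · exact ⟨0, by ext i; exact i.elim0⟩
  · refine ⟨0, ?_⟩
    rw [Matrix.trace_fin_one] at ht
    ext i j
    rw [Matrix.mul_apply, Fin.sum_univ_one, Subsingleton.elim i 0, ht, zero_mul, zero_smul,
      Matrix.zero_apply]
  · refine ⟨t 0 0 * t 0 0 + t 0 1 * t 1 0, ?_⟩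
    rw [Matrix.trace_fin_two] at ht
    have h1 : t 1 1 = -t 0 0 := by linear_combination ht
    ext i j
    rw [Matrix.mul_apply, Fin.sum_univ_two, Matrix.smul_apply, smul_eq_mul]
    fin_cases i <;> fin_cases j
    · simp
    · simp [h1]
      ring
    · simp [h1]
      ring
    · simp [h1]
      ring

variable {g : ℕ} {A : AbVar g} {z : Module.End ℚ A.H1} {al : ℝ} {N : ℕ} {sg : Fin N → ℝ}
  {φ : VN N →ₗ[ℝ] (Fin g → ℂ)} {𝔮 : Submodule ℚ (Module.End ℚ A.H1)}

theorem central_of_scalar (h : HQ A z al) (w : WN A z al N sg φ)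
    (field : ∀ q : Polynomial ℚ, Polynomial.aeval z q ≠ 0 →
      Function.Injective (Polynomial.aeval z q))
    {T : Module.End ℚ A.H1} (hT : T ∈ CB A) {c : ℂ} (hc : ∀ x, A.ext T (φ x) = φ (c • x)) :
    ∀ Y ∈ CB A, T * Y = Y * T := by
  intro Y hY
  obtain ⟨s, hs⟩ := N383.LCU.mat_CB h w hY
  rw [← sub_eq_zero]
  refine zero_of_W h w field ((CB A).sub_mem (N768.BGPD.CB_mul hT hY) (N768.BGPD.CB_mul hY hT))
    fun x => ?_
  rw [ext_sub, Pool.Agent.N208.AD.ext_mul, Pool.Agent.N208.AD.ext_mul, LinearMap.sub_apply,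
    Module.End.mul_apply, Module.End.mul_apply, hs, hc, hc, hs, Matrix.mulVec_smul, sub_self]

theorem der_CB (hq : A.Full 𝔮) {X : Module.End ℚ A.H1} (hX : X ∈ der 𝔮) : X ∈ CB A :=
  N768.BGPD.NA_CB (hq.le (hq.der_le hX))

/-- The squares of the elements of the derived algebra are scalar. -/
theorem der_sq (h : HQ A z al) (w : WN A z al N sg φ) (hN : N ≤ 2) (hq : A.Full 𝔮)
    {X : Module.End ℚ A.H1} (hX : X ∈ der 𝔮) :
    ∃ c : ℂ, ∀ x, A.ext (X * X) (φ x) = φ (c • x) := by
  obtain ⟨t, ht⟩ := N383.LCU.mat_CB h w (der_CB hq hX)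
  have hR := N755.BGRR.main g A z al h N sg φ w 𝔮 hq
  have h1 : t.trace = 0 := trace_zero_of_perf hR.perf t ⟨A.ext X, mem_spE hX, ht⟩
  obtain ⟨c, hc⟩ := sq_scalar hN t h1
  refine ⟨c, fun x => ?_⟩
  rw [Pool.Agent.N208.AD.ext_mul, Module.End.mul_apply, ht, ht, Matrix.mulVec_mulVec, hc,
    Matrix.smul_mulVec, Matrix.one_mulVec]

theorem der_sq_central (h : HQ A z al) (w : WN A z al N sg φ)
    (field : ∀ q : Polynomial ℚ, Polynomial.aeval z q ≠ 0 →
      Function.Injective (Polynomial.aeval z q)) (hN : N ≤ 2) (hq : A.Full 𝔮)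
    {X : Module.End ℚ A.H1} (hX : X ∈ der 𝔮) : ∀ Y ∈ CB A, X * X * Y = Y * (X * X) := by
  obtain ⟨c, hc⟩ := der_sq h w hN hq hX
  exact central_of_scalar h w field (N768.BGPD.CB_mul (der_CB hq hX) (der_CB hq hX)) hc

theorem skew_der (hq : A.Full 𝔮) {X : Module.End ℚ A.H1} (hX : X ∈ der 𝔮) (u v : A.H1) :
    A.om (X u) v = -A.om u (X v) :=
  eq_neg_of_add_eq_zero_left (A.NA_skew (hq.le (hq.der_le hX)) u v)

/-- the symmetric central elements of the commutant -/
def C0 (A : AbVar g) : Submodule ℚ (Module.End ℚ A.H1) where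
  carrier := {W | W ∈ CB A ∧ (∀ Y ∈ CB A, W * Y = Y * W) ∧ ∀ u v, A.om (W u) v = A.om u (W v)}
  zero_mem' := ⟨(CB A).zero_mem, fun Y _ => by rw [zero_mul, mul_zero], fun u v => by simp⟩
  add_mem' := by
    rintro X Y ⟨h1, h2, h3⟩ ⟨h1', h2', h3'⟩
    refine ⟨(CB A).add_mem h1 h1', fun Z hZ => by rw [add_mul, mul_add, h2 Z hZ, h2' Z hZ],
      fun u v => ?_⟩
    simp only [LinearMap.add_apply, map_add, h3, h3']
  smul_mem' := by
    rintro c X ⟨h1, h2, h3⟩
    refine ⟨(CB A).smul_mem c h1, fun Z hZ => by rw [smul_mul_assoc, mul_smul_comm, h2 Z hZ],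
      fun u v => ?_⟩
    simp only [LinearMap.smul_apply, map_smul, smul_eq_mul, h3]

theorem C0_mul {a b : Module.End ℚ A.H1} (ha : a ∈ C0 A) (hb : b ∈ C0 A) : a * b ∈ C0 A := by
  obtain ⟨h1, h2, h3⟩ := ha
  obtain ⟨h1', h2', h3'⟩ := hb
  refine ⟨N768.BGPD.CB_mul h1 h1', fun Y hY => ?_, fun u v => ?_⟩
  · rw [mul_assoc, h2' Y hY, ← mul_assoc, h2 Y hY, mul_assoc]
  · rw [Module.End.mul_apply, h3, h3', ← Module.End.mul_apply, ← h2 b h1']

theorem C0_one : (1 : Module.End ℚ A.H1) ∈ C0 A :=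
  ⟨N768.BGPD.CB_one, fun Y _ => by rw [one_mul, mul_one], fun u v => by
    rw [Module.End.one_apply, Module.End.one_apply]⟩

/-- **The squares are symmetric and central.** -/
theorem der_sq_C0 (h : HQ A z al) (w : WN A z al N sg φ)
    (field : ∀ q : Polynomial ℚ, Polynomial.aeval z q ≠ 0 →
      Function.Injective (Polynomial.aeval z q)) (hN : N ≤ 2) (hq : A.Full 𝔮)
    {X : Module.End ℚ A.H1} (hX : X ∈ der 𝔮) : X * X ∈ C0 A :=
  ⟨N768.BGPD.CB_mul (der_CB hq hX) (der_CB hq hX), der_sq_central h w field hN hq hX, fun u v => by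
    rw [Module.End.mul_apply, Module.End.mul_apply, skew_der hq hX, skew_der hq hX, neg_neg]⟩

theorem anti_C0 (h : HQ A z al) (w : WN A z al N sg φ)
    (field : ∀ q : Polynomial ℚ, Polynomial.aeval z q ≠ 0 →
      Function.Injective (Polynomial.aeval z q)) (hN : N ≤ 2) (hq : A.Full 𝔮)
    {X Y : Module.End ℚ A.H1} (hX : X ∈ der 𝔮) (hY : Y ∈ der 𝔮) : X * Y + Y * X ∈ C0 A := by
  have h1 : X * Y + Y * X = (X + Y) * (X + Y) - X * X - Y * Y := by
    rw [add_mul, mul_add, mul_add]
    abel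
  rw [h1]
  exact (C0 A).sub_mem ((C0 A).sub_mem (der_sq_C0 h w field hN hq ((der 𝔮).add_mem hX hY))
    (der_sq_C0 h w field hN hq hX)) (der_sq_C0 h w field hN hq hY)

/-- the products of symmetric central elements and elements of the derived algebra -/
def PP (𝔮 : Submodule ℚ (Module.End ℚ A.H1)) : Submodule ℚ (Module.End ℚ A.H1) :=
  Submodule.span ℚ {T | ∃ c ∈ C0 A, ∃ X ∈ der 𝔮, T = c * X}

theorem C0_PP {c p : Module.End ℚ A.H1} (hc : c ∈ C0 A) (hp : p ∈ PP 𝔮) : c * p ∈ PP 𝔮 := by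
  unfold PP at hp
  induction hp using Submodule.span_induction with
  | mem p hp =>
    obtain ⟨c', hc', X, hX, rfl⟩ := hp
    rw [← mul_assoc]
    exact Submodule.subset_span ⟨_, C0_mul hc hc', X, hX, rfl⟩
  | zero => rw [mul_zero]; exact Submodule.zero_mem _
  | add a b _ _ ha hb => rw [mul_add]; exact Submodule.add_mem _ ha hb
  | smul r a _ ha => rw [mul_smul_comm]; exact Submodule.smul_mem _ _ ha

theorem PP_CB (hq : A.Full 𝔮) {p : Module.End ℚ A.H1} (hp : p ∈ PP 𝔮) : p ∈ CB A := by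
  unfold PP at hp
  induction hp using Submodule.span_induction with
  | mem p hp =>
    obtain ⟨c', hc', X, hX, rfl⟩ := hp
    exact N768.BGPD.CB_mul hc'.1 (der_CB hq hX)
  | zero => exact Submodule.zero_mem _
  | add a b _ _ ha hb => exact Submodule.add_mem _ ha hb
  | smul r a _ ha => exact Submodule.smul_mem _ _ ha

theorem PP_PP (h : HQ A z al) (w : WN A z al N sg φ)
    (field : ∀ q : Polynomial ℚ, Polynomial.aeval z q ≠ 0 →
      Function.Injective (Polynomial.aeval z q)) (hN : N ≤ 2) (hq : A.Full 𝔮)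
    {p p' : Module.End ℚ A.H1} (hp : p ∈ PP 𝔮) (hp' : p' ∈ PP 𝔮) : p * p' ∈ C0 A ⊔ PP 𝔮 := by
  unfold PP at hp
  induction hp using Submodule.span_induction with
  | mem p hp =>
    obtain ⟨c, hc, X, hX, rfl⟩ := hp
    unfold PP at hp'
    induction hp' using Submodule.span_induction with
    | mem p' hp' =>
      obtain ⟨c', hc', X', hX', rfl⟩ := hp'
      have e1 : c * X * (c' * X') = c * c' * (X * X') := by
        rw [mul_assoc c X, ← mul_assoc X c', ← hc'.2.1 X (der_CB hq hX), mul_assoc c' X X',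
          mul_assoc c c']
      have e2 : c * c' * (X * X') = (1 / 2 : ℚ) • (c * c' * (X * X' + X' * X)) +
          (1 / 2 : ℚ) • (c * c' * (X * X' - X' * X)) := by
        rw [mul_add, mul_sub]
        module
      rw [e1, e2]
      refine Submodule.add_mem _ (Submodule.mem_sup_left (Submodule.smul_mem _ _
        (C0_mul (C0_mul hc hc') (anti_C0 h w field hN hq hX hX')))) (Submodule.mem_sup_right
        (Submodule.smul_mem _ _ (C0_PP (C0_mul hc hc') (Submodule.subset_span ⟨1, C0_one, _,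
          Submodule.subset_span ⟨X, hq.der_le hX, X', hq.der_le hX', rfl⟩, by rw [one_mul]⟩))))
    | zero => rw [mul_zero]; exact Submodule.zero_mem _
    | add a b ha' hb' ha hb => rw [mul_add]; exact Submodule.add_mem _ ha hb
    | smul r a ha' ha => rw [mul_smul_comm]; exact Submodule.smul_mem _ _ ha
  | zero => rw [zero_mul]; exact Submodule.zero_mem _
  | add a b _ _ ha hb => rw [add_mul]; exact Submodule.add_mem _ ha hb
  | smul r a _ ha => rw [smul_mul_assoc]; exact Submodule.smul_mem _ _ ha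

theorem sup_mul (h : HQ A z al) (w : WN A z al N sg φ)
    (field : ∀ q : Polynomial ℚ, Polynomial.aeval z q ≠ 0 →
      Function.Injective (Polynomial.aeval z q)) (hN : N ≤ 2) (hq : A.Full 𝔮)
    {T T' : Module.End ℚ A.H1} (hT : T ∈ C0 A ⊔ PP 𝔮) (hT' : T' ∈ C0 A ⊔ PP 𝔮) :
    T * T' ∈ C0 A ⊔ PP 𝔮 := by
  obtain ⟨c, hc, p, hp, rfl⟩ := Submodule.mem_sup.1 hT
  obtain ⟨c', hc', p', hp', rfl⟩ := Submodule.mem_sup.1 hT'
  rw [add_mul, mul_add, mul_add, ← hc'.2.1 p (PP_CB hq hp)]
  exact Submodule.add_mem _ (Submodule.add_mem _ (Submodule.mem_sup_left (C0_mul hc hc'))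
    (Submodule.mem_sup_right (C0_PP hc hp'))) (Submodule.add_mem _
      (Submodule.mem_sup_right (C0_PP hc' hp)) (PP_PP h w field hN hq hp hp'))

/-- **The centre of a full subalgebra is not zero.** -/
theorem centre_ne (h : HQ A z al)
    (field : ∀ q : Polynomial ℚ, Polynomial.aeval z q ≠ 0 →
      Function.Injective (Polynomial.aeval z q))
    (deg : finrank ℚ (CB A) = 2 ^ 2 * finrank ℚ (Algebra.adjoin ℚ {z})) (hq : A.Full 𝔮) :
    ∃ X ∈ 𝔮, X ≠ 0 ∧ ∀ Y ∈ 𝔮, X * Y = Y * X := by
  obtain ⟨W, hW⟩ := N755.BGWA.main g A z al h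
  obtain ⟨N, sg, φ, w⟩ := N455.BGWB.main g A z al h W hW
  have hN : N ≤ 2 := rank_le h w field deg
  by_contra hcon
  push Not at hcon
  have hder : 𝔮 ≤ der 𝔮 := by
    intro X hX
    obtain ⟨Z, hZ, d, hd, rfl, hZc⟩ := hq.dec hX
    have hZ0 : Z = 0 := by
      by_contra hne
      obtain ⟨Y, hY, hne'⟩ := hcon Z hZ hne
      exact hne' (hZc Y hY)
    rw [hZ0, zero_add]
    exact hd
  have hzM : z ∈ C0 A ⊔ PP 𝔮 := by
    have key : ∀ T ∈ Algebra.adjoin ℚ (𝔮 : Set (Module.End ℚ A.H1)), T ∈ C0 A ⊔ PP 𝔮 := by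
      intro T hT
      induction hT using Algebra.adjoin_induction with
      | mem X hX => exact Submodule.mem_sup_right (Submodule.subset_span
          ⟨1, C0_one, X, hder hX, by rw [one_mul]⟩)
      | algebraMap r =>
        rw [Algebra.algebraMap_eq_smul_one]
        exact Submodule.smul_mem _ _ (Submodule.mem_sup_left C0_one)
      | add a b _ _ ha hb => exact Submodule.add_mem _ ha hb
      | mul a b _ _ ha hb => exact sup_mul h w field hN hq ha hb
    exact key z (N768.BGPD.CB_adjoin hq (z_CB h))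
  have hzskew : ∀ u v, A.om (z u) v = -A.om u (z v) :=
    fun u v => eq_neg_of_add_eq_zero_left (h.skew u v)
  have htr : LinearMap.trace ℚ A.H1 (z * z) = 0 := by
    obtain ⟨c, hc, p, hp, hcp⟩ := Submodule.mem_sup.1 hzM
    have h1 : LinearMap.trace ℚ A.H1 (c * z) = 0 := by
      have h2 := N208.LC.trace_adj A.om (fun v hv => A.om_nondeg fun u => by
        rw [A.om_anti, hv, neg_zero]) (X := c * z) (X' := -(c * z)) fun u v => by
          rw [LinearMap.neg_apply, map_neg, Module.End.mul_apply, hc.2.2, hzskew,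
            ← Module.End.mul_apply, ← hc.2.1 z (z_CB h)]
      rw [map_neg] at h2
      linarith
    have h2 : LinearMap.trace ℚ A.H1 (p * z) = 0 := by
      unfold PP at hp
      clear hcp
      induction hp using Submodule.span_induction with
      | mem p hp =>
        obtain ⟨c', hc', X, hX, rfl⟩ := hp
        unfold der at hX
        induction hX using Submodule.span_induction with
        | mem X hX =>
          obtain ⟨a, ha, b, hb, rfl⟩ := hX
          have hac := N768.BGPD.NA_CB (hq.le ha)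
          have hbc := N768.BGPD.NA_CB (hq.le hb)
          have e1 : c' * (a * b - b * a) * z = (a * b - b * a) * (c' * z) := by
            rw [hc'.2.1 _ ((CB A).sub_mem (N768.BGPD.CB_mul hac hbc) (N768.BGPD.CB_mul hbc hac)),
              mul_assoc]
          have e2 : b * (c' * z) = c' * z * b := by
            rw [← mul_assoc, ← hc'.2.1 b hbc, mul_assoc, mul_assoc, hbc z h.mem]
          rw [e1, Pool.Agent.N208.AD.tr_br, e2, sub_self, mul_zero, map_zero]
        | zero => rw [mul_zero, zero_mul, map_zero]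
        | add a b _ _ ha hb => rw [mul_add, add_mul, map_add, ha, hb, add_zero]
        | smul r a _ ha => rw [mul_smul_comm, smul_mul_assoc, map_smul, ha, smul_zero]
      | zero => rw [zero_mul, map_zero]
      | add a b _ _ ha hb => rw [add_mul, map_add, ha, hb, add_zero]
      | smul r a _ ha => rw [smul_mul_assoc, map_smul, ha, smul_zero]
    have h3 : z * z = c * z + p * z := by
      rw [← add_mul, hcp]
    rw [h3, map_add, h1, h2, add_zero]
  have hne : A.ext z ≠ 0 := by
    intro h0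
    obtain ⟨x, hx, hx0⟩ := h.ex
    have h1 := N755.BGWA.mem_V0.1 hx
    rw [h0, LinearMap.zero_apply, zero_add] at h1
    exact hx0 ((smul_eq_zero.1 h1).resolve_left (pow_ne_zero 2 h.ne))
  have hpos := tr_adj_pos (A := A) (Y := A.ext z) (Y' := -A.ext z) (fun u v => by
    rw [N755.BGWA.zPF h, LinearMap.neg_apply, map_neg]) hne
  have e1 : A.ext z * -A.ext z = -(A.ext (z * z)) := by
    rw [Pool.Agent.N208.AD.ext_mul]
    refine LinearMap.ext fun v => ?_
    change A.ext z (-(A.ext z v)) = -(A.ext z (A.ext z v))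
    rw [map_neg]
  rw [e1, map_neg, trace_ext, htr, Rat.cast_zero, neg_zero] at hpos
  exact lt_irrefl _ hpos

end Pool.Agent.Run7.h358.U2
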