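import Pool.Agent.Run7.h358.U2.Link
import Pool.Agent.N208.CT.Main

set_option autoImplicit false
set_option linter.unusedSectionVars false

/-!
# The Mumford-Tate group is in the group, if there are no links and if the conjugates are independent
-/

open Module Function TensorProduct Matrix

noncomputable section

namespace Pool.Agent.Run7.h358.U2

open Pool.Agent.Y102 Pool.Agent.W516.DR Pool.Agent.H204R3.GP Pool.Agent.W516.KC
  Pool.Agent.H204R3.SP Pool.Agent.TH119.MX Pool.Agent.R917 Pool.Agent.N208.AM Pool.Agent.N208.AD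
  Pool.Agent.N208.BT Pool.Agent.N208.CT

variable {g : ℕ} {A : AbVar g} {s n : ℕ} {r : Fin s → ℕ} {B : Fin n → Ten A r} {w : Fin s → ℤ}
  {P : Matrix (Fin n) (Fin n) ℂ} {H : Set (Matrix (Fin n) (Fin n) ℂ)}
  {Wt : Matrix (Fin n) (Fin n) ℚ} {N : Matrix (Fin n) (Fin n) ℝ}
  {z : Module.End ℚ A.H1} {Sg : Finset ℝ}

/-! ### The domain -/

theorem pR_rel {S : Submodule ℚ (Module.End ℚ A.H1)}
    {p : Module.End ℝ (Fin g → ℂ) × Matrix (Fin n) (Fin n) ℝ} (hp : p ∈ pR B S) :
    p.1 ∈ spE A (S : Set (Module.End ℚ A.H1)) ∧ RelR B p.1 p.2 := by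
  induction hp using Submodule.span_induction with
  | mem p hp =>
    obtain ⟨X, hX, M, hM, rfl⟩ := hp
    exact ⟨mem_spE hX, hM.real⟩
  | zero => exact ⟨Submodule.zero_mem _, RelR.zero⟩
  | add a b _ _ ha hb => exact ⟨Submodule.add_mem _ ha.1 hb.1, ha.2.add hb.2⟩
  | smul c a _ ha => exact ⟨Submodule.smul_mem _ c ha.1, ha.2.smul c⟩

/-- If all indefinite places are in the set, then it determines the Mumford-Tate domain. -/
theorem domU (hL : HL' A z Sg) (hli : LinearIndependent ℚ B) (hN : RelR B AbVar.JJ N) :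
    DomU (US A z Sg) B N := by
  intro p hp h0
  obtain ⟨h1, h2⟩ := pR_rel hp
  have h3 : p.1 ∈ C2.KK A z Sg A.NA := ⟨h1, fun be hbe x hx => h0 x ⟨be, hbe, hx⟩⟩
  have h4 := C2.KK_J hL full_NA h3
  have h5 := h2.br hN
  rw [h4, sub_self] at h5
  have h6 := h5.uniq hli RelR.zero
  exact (sub_eq_zero.1 h6).symm

/-! ### The centre -/

/-- **The centre is in the Lie algebra of the group**, if the centres of all full subalgebras are not
zero, and the relations of the nonzero elements of the centre hold for all elements of the centre. -/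
theorem cen_mem' (h : Mot w B P) (hW : WRel w B Wt) (hH : PtM P H)
    (hex : ∀ 𝔮 : Submodule ℚ (Module.End ℚ A.H1), A.Full 𝔮 →
      ∃ X ∈ 𝔮, X ≠ 0 ∧ ∀ Y ∈ 𝔮, X * Y = Y * X)
    (hdom : ∀ X ∈ A.CN, X ≠ 0 → ∀ Y ∈ A.CN, Dom X Y)
    {Y : Module.End ℚ A.H1} (hY : Y ∈ A.CN) {M : Matrix (Fin n) (Fin n) ℚ} (hM : Rel B Y M) :
    M ∈ LQ H := by
  have hf := qM_full h hW hH
  obtain ⟨X, hX, hne, hc⟩ := hex _ hf
  have hXC : X ∈ A.CN := ⟨hf.le hX, fun Y hY => hf.comm X (fun Z hZ => (hc Z hZ).symm) Y hY⟩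
  obtain ⟨-, MX, hMX, c, hc'⟩ := hX
  exact (replica_M h hW hH hXC hY hMX hM hc' (hdom X hXC hne Y hY)).1

theorem stab_cen'
    (hcen : ∀ Y ∈ A.CN, ∀ M : Matrix (Fin n) (Fin n) ℚ, Rel B Y M → M ∈ LQ H)
    {M : Matrix (Fin n) (Fin n) ℝ} (hM : M ∈ spR B (cenA A : Set (Module.End ℚ A.H1))) (d : ℕ) :
    Stab H d (cxm M) := by
  induction hM using Submodule.span_induction with
  | mem M hM =>
    obtain ⟨Z, hZ, Mq, hMq, rfl⟩ := hM
    have hZ' : Z ∈ A.CN := by rw [← cenA_eq]; exact hZ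
    have h3 : cxm (rq Mq) = cq Mq := by
      ext i j
      simp [cxm]
    rw [h3]
    exact hcen Z hZ' Mq hMq d
  | zero =>
    have h3 : cxm (0 : Matrix (Fin n) (Fin n) ℝ) = 0 := by
      ext i j
      simp [cxm]
    rw [h3]
    exact Stab.zero
  | add a b _ _ ha hb =>
    have h3 : cxm (a + b) = cxm a + cxm b := by
      ext i j
      simp [cxm]
    rw [h3]
    exact ha.add hb
  | smul c a _ ha =>
    have h3 : cxm (c • a) = (c : ℂ) • cxm a := by
      ext i j
      simp [cxm]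
    rw [h3]
    exact ha.smul _

/-- **Main theorem.** -/
theorem main_CT' (h : Mot w B P) (hW : WRel w B Wt) (hH : PtM P H)
    (hcen : ∀ Y ∈ A.CN, ∀ M : Matrix (Fin n) (Fin n) ℚ, Rel B Y M → M ∈ LQ H)
    (hL : HL' A z Sg) (hN : RelR B AbVar.JJ N)
    {u : ℂ} (hu : u ≠ 0) : NormedSpace.exp (KK Wt N u) ∈ H ∧
      HRel w B u (NormedSpace.exp (KK Wt N u)) := by
  obtain ⟨N', hN', t, X, M, h1, h2⟩ := exists_J h
  have h3 : N = N' := hN.uniq h.li hN'
  subst h3
  have h4 : N ∈ spR B (A.NA : Set (Module.End ℚ A.H1)) := by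
    rw [h2]
    exact Submodule.sum_mem _ fun k _ => Submodule.smul_mem _ _ (mem_spR (h1 k).1 (h1 k).2)
  obtain ⟨Nc, hNc, Nd, hNd, hNe⟩ := exists_dec h h4
  have h5 := N_memU h hW hH (rpart' hL.hg) hN hNc hNd hNe (domU hL h.li hN)
  refine ⟨exp_mem hH.grp fun d => ?_, hrel_exp hW hN hu⟩
  have h6 : cxm N = cxm Nc + cxm Nd := by
    rw [hNe]
    ext i j
    simp [cxm]
  unfold KK
  rw [h6]
  exact ((Wt_mem' h hW hH d).smul _).add
    (((stab_cen' hcen hNc d).add (stab_spR h hW h5 d)).smul _)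

/-! ### Factors of abelian varieties with a rigid centre -/

section Fac

variable {g' : ℕ} {A' : AbVar g'}

/-- `A` is a factor of `A'`: `f` and `p` are homomorphisms. -/
structure Fct (A : AbVar g) (A' : AbVar g') (f : A.H1 →ₗ[ℚ] A'.H1) (p : A'.H1 →ₗ[ℚ] A.H1) :
    Prop where
  fa : ∃ e : Fin g' ⊕ Fin g' → Fin g ⊕ Fin g → QBar,
    ∀ i w, A'.dR i (f w) = ∑ j, algebraMap QBar ℂ (e i j) * A.dR j w
  pa : ∃ e : Fin g ⊕ Fin g → Fin g' ⊕ Fin g' → QBar,
    ∀ i w, A.dR i (p w) = ∑ j, algebraMap QBar ℂ (e i j) * A'.dR j w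
  pt : ∃ F : (Fin g' → ℂ) →ₗ[ℂ] (Fin g → ℂ), ∀ w, F (A'.per w) = A.per (p w)
  pf : ∀ w, p (f w) = w

variable {f : A.H1 →ₗ[ℚ] A'.H1} {p : A'.H1 →ₗ[ℚ] A.H1}

theorem Fct.mem_EA (h : Fct A A' f p) : (f.comp p : Module.End ℚ A'.H1) ∈ A'.EA := by
  rw [AbVar.mem_EA]
  obtain ⟨e, he⟩ := h.fa
  obtain ⟨e', he'⟩ := h.pa
  refine ⟨fun i l => ∑ j, e i j * e' j l, fun i w => ?_⟩
  rw [LinearMap.comp_apply, he]
  simp only [he', map_sum, map_mul, Finset.mul_sum, Finset.sum_mul]
  rw [Finset.sum_comm]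
  exact Finset.sum_congr rfl fun l _ => Finset.sum_congr rfl fun j _ => by ring

/-- The projection intertwines an element of the Lie algebra and its restriction. -/
theorem Fct.inter (h : Fct A A' f p) {Y : Module.End ℚ A'.H1} (hY : Y ∈ A'.NA)
    {X : Module.End ℚ A.H1} (hX : ∀ v, p (Y (f v)) = X v) (w : A'.H1) : p (Y w) = X (p w) := by
  have h1 := congrArg (fun T : Module.End ℚ A'.H1 => p (T w)) (A'.NA_comm hY h.mem_EA)
  change p (Y (f (p w))) = p (f (p (Y w))) at h1
  rw [h.pf, hX] at h1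
  exact h1.symm

/-- The pulled back tensors. -/
def pull (p : A'.H1 →ₗ[ℚ] A.H1) (B : Fin n → Ten A r) : Fin n → Ten A' r :=
  fun a i => (B a i).compLinearMap fun _ => p

theorem pull_apply (B : Fin n → Ten A r) (a : Fin n) (i : Fin s) (v : Fin (r i) → A'.H1) :
    pull p B a i v = B a i (fun k => p (v k)) := rfl

theorem pull_rel (h : Fct A A' f p) {Y : Module.End ℚ A'.H1} (hY : Y ∈ A'.NA)
    {X : Module.End ℚ A.H1} (hX : ∀ v, p (Y (f v)) = X v) {M : Matrix (Fin n) (Fin n) ℚ}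
    (hM : Rel B X M) : Rel (pull p B) Y M := by
  intro a i
  refine MultilinearMap.ext fun v => ?_
  have h1 := congrArg (fun φ : MultilinearMap ℚ (fun _ : Fin (r i) => A.H1) ℚ =>
    φ (fun k => p (v k))) (hM a i)
  simp only [dact_apply, _root_.sum_apply, _root_.smul_apply] at h1 ⊢
  simp only [pull_apply]
  rw [← h1]
  refine Finset.sum_congr rfl fun k _ => ?_
  congr 1
  funext l
  by_cases hl : l = k
  · subst hl
    rw [Function.update_self, Function.update_self, h.inter hY hX]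
  · rw [Function.update_of_ne hl, Function.update_of_ne hl]

theorem pull_wrel (hW : WRel w B Wt) : WRel w (pull p B) Wt := by
  intro a i
  refine MultilinearMap.ext fun v => ?_
  have h1 := congrArg (fun φ : MultilinearMap ℚ (fun _ : Fin (r i) => A.H1) ℚ =>
    φ (fun k => p (v k))) (hW a i)
  simp only [_root_.sum_apply, _root_.smul_apply] at h1 ⊢
  simp only [pull_apply]
  exact h1

theorem Fct.rs_NA (h : Fct A A' f p) {Y : Module.End ℚ A'.H1} (hY : Y ∈ A'.NA) :
    (p.comp (Y.comp f) : Module.End ℚ A.H1) ∈ A.NA := by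
  intro m φ h1 h2 v
  have h3 := hY m (φ.compLinearMap fun _ => p) ?_ ?_ (fun l => f (v l))
  · rw [← h3]
    refine Finset.sum_congr rfl fun k _ => ?_
    rw [MultilinearMap.compLinearMap_apply]
    congr 1
    funext l
    by_cases hl : l = k
    · subst hl
      rw [Function.update_self, Function.update_self]
      rfl
    · rw [Function.update_of_ne hl, Function.update_of_ne hl]
      exact (h.pf _).symm
  · obtain ⟨Ψ, h1, h2⟩ := h1
    obtain ⟨F, hF⟩ := h.pt
    refine ⟨Ψ.compLinearMap fun _ => F.restrictScalars ℝ, fun v => ?_, fun z hz u => ?_⟩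
    · change Ψ (fun l => F (A'.per (v l))) = φ (fun l => p (v l))
      rw [← h1]
      congr 1
      funext l
      exact hF (v l)
    · change Ψ (fun l => F (z • u l)) = Ψ (fun l => F (u l))
      rw [← h2 z hz fun l => F (u l)]
      congr 1
      funext l
      exact map_smul F z (u l)
  · classical
    obtain ⟨r, hr⟩ := h2
    obtain ⟨e, he⟩ := h.pa
    refine ⟨fun J' => ∑ J, r J * ∏ l, e (J l) (J' l), fun v => ?_⟩
    have h1 : tau ^ m * algebraMap ℚ ℂ ((φ.compLinearMap fun _ => p) v) =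
        ∑ J, algebraMap QBar ℂ (r J) * ∏ l, A.dR (J l) (p (v l)) := hr fun l => p (v l)
    have h2 : ∀ J : Fin m × Fin 2 → Fin g ⊕ Fin g, ∏ l, A.dR (J l) (p (v l)) =
        ∑ J' : Fin m × Fin 2 → Fin g' ⊕ Fin g',
          (∏ l, algebraMap QBar ℂ (e (J l) (J' l))) * ∏ l, A'.dR (J' l) (v l) := by
      intro J
      rw [Finset.prod_congr rfl fun l _ => he (J l) (v l), Finset.prod_univ_sum,
        Fintype.piFinset_univ]
      exact Finset.sum_congr rfl fun J' _ => Finset.prod_mul_distrib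
    have h3 : ∀ J : Fin m × Fin 2 → Fin g ⊕ Fin g,
        algebraMap QBar ℂ (r J) * ∏ l, A.dR (J l) (p (v l)) =
        ∑ J' : Fin m × Fin 2 → Fin g' ⊕ Fin g',
          algebraMap QBar ℂ (r J * ∏ l, e (J l) (J' l)) * ∏ l, A'.dR (J' l) (v l) := by
      intro J
      rw [h2, Finset.mul_sum]
      refine Finset.sum_congr rfl fun J' _ => ?_
      rw [map_mul, map_prod, mul_assoc]
    refine h1.trans ?_
    rw [Finset.sum_congr rfl fun J _ => h3 J, Finset.sum_comm]
    refine Finset.sum_congr rfl fun J' _ => ?_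
    rw [map_sum, Finset.sum_mul]

/-- The motive as a motive over the larger abelian variety. -/
theorem pull_mot (h : Fct A A' f p) (hM : Mot w B P) : Mot w (pull p B) P where
  li := by
    refine Fintype.linearIndependent_iff.2 fun c hc => ?_
    refine Fintype.linearIndependent_iff.1 hM.li c ?_
    funext i
    refine MultilinearMap.ext fun v => ?_
    have h1 := congrArg (fun T : Ten A' r => T i (fun k => f (v k))) hc
    simp only [Finset.sum_apply, Pi.smul_apply, Pi.zero_apply, _root_.sum_apply,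
      _root_.smul_apply, pull_apply, h.pf] at h1 ⊢
    exact h1
  st := by
    intro Y hY
    obtain ⟨M, h1⟩ := hM.st _ (h.rs_NA hY)
    exact ⟨M, pull_rel h hY (fun v => rfl) h1⟩
  wt := by
    obtain ⟨M, h1⟩ := hM.wt
    exact ⟨M, pull_wrel h1⟩
  det := hM.det
  dR := by
    classical
    obtain ⟨c, h1, h2⟩ := hM.dR
    obtain ⟨e, he⟩ := h.pa
    refine ⟨fun a i J' => ∑ J, c a i J * ∏ l, algebraMap QBar ℂ (e (J l) (J' l)),
      fun a i J' => ?_, fun a i v => ?_⟩
    · have key : (∑ J, c a i J * ∏ l, algebraMap QBar ℂ (e (J l) (J' l))) ∈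
          algebraicClosure ℚ ℂ :=
        sum_mem fun J _ => mul_mem (mem_algebraicClosure_iff.2 (h1 a i J))
          (prod_mem fun l _ => (e (J l) (J' l)).2)
      exact mem_algebraicClosure_iff.1 key
    · have h4 := h2 a i fun k => p (v k)
      refine Eq.trans ?_ h4
      have h3 : ∀ J : Fin (r i) → Fin g ⊕ Fin g, c a i J * ∏ l, A.dR (J l) (p (v l)) =
          ∑ J' : Fin (r i) → Fin g' ⊕ Fin g',
            c a i J * (∏ l, algebraMap QBar ℂ (e (J l) (J' l))) * ∏ l, A'.dR (J' l) (v l) := by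
        intro J
        rw [Finset.prod_congr rfl fun l _ => he (J l) (v l), Finset.prod_univ_sum,
          Fintype.piFinset_univ, Finset.mul_sum]
        refine Finset.sum_congr rfl fun J' _ => ?_
        rw [Finset.prod_mul_distrib, mul_assoc]
      rw [Finset.sum_congr rfl fun J _ => h3 J, Finset.sum_comm]
      refine Finset.sum_congr rfl fun J' _ => ?_
      rw [Finset.sum_mul]

/-- **The centre**, if the abelian variety is a factor of an abelian variety with a rigid centre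
which acts by all elements of the centre. -/
theorem cen_fac (h : Fct A A' f p) (hM : Mot w B P) (hW : WRel w B Wt) (hH : PtM P H)
    (hrig : Rigid A') {Y : Module.End ℚ A.H1}
    (hY : ∃ X ∈ A'.CN, ∀ v, p (X (f v)) = Y v) {M : Matrix (Fin n) (Fin n) ℚ} (hR : Rel B Y M) :
    M ∈ LQ H := by
  obtain ⟨X, hX, hXY⟩ := hY
  exact cen_mem (pull_mot h hM) (pull_wrel hW) hH hrig hX (pull_rel h hX.1 hXY hR)

end Fac

end Pool.Agent.Run7.h358.U2
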