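import Pool.Agent.N208.AM.Qm

set_option autoImplicit false
set_option linter.unusedSectionVars false

/-!
# de Rham-Betti homomorphisms and subobjects of tensor powers, and algebraic groups

`P` is a complex period matrix. Homomorphisms between the tensor powers which are rational on the Betti
side and algebraic on the de Rham side are fixed by every algebraic group over `ℚ` which is minimal
among those with a torsor over `ℚ̄` containing `P`. A point of the torsor with algebraic coordinates is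
given by the Nullstellensatz.
-/

open Matrix

noncomputable section

namespace Pool.Agent.Run7.h358.U2

open Pool.Agent.Y102 Pool.Agent.R917

/-! ### Kronecker powers -/

section Kron

variable {n : ℕ} {R S : Type} [CommRing R] [CommRing S]

/-- The action on the tensor power. -/
def tpow (a : ℕ) (x : Matrix (Fin n) (Fin n) R) : Matrix (Fin a → Fin n) (Fin a → Fin n) R :=
  Matrix.of fun J K => ∏ k, x (J k) (K k)

theorem tpow_mul (a : ℕ) (x y : Matrix (Fin n) (Fin n) R) :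
    tpow a (x * y) = tpow a x * tpow a y := by
  ext J K
  rw [Matrix.mul_apply]
  change ∏ k, (x * y) (J k) (K k) =
    ∑ L : Fin a → Fin n, (∏ k, x (J k) (L k)) * ∏ k, y (L k) (K k)
  simp only [Matrix.mul_apply]
  rw [Finset.prod_univ_sum, Fintype.piFinset_univ]
  exact Finset.sum_congr rfl fun L _ => Finset.prod_mul_distrib

theorem tpow_one (a : ℕ) : tpow a (1 : Matrix (Fin n) (Fin n) R) = 1 := by
  ext J K
  change ∏ k, (1 : Matrix (Fin n) (Fin n) R) (J k) (K k) = _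
  by_cases h : J = K
  · subst h
    rw [Matrix.one_apply_eq]
    exact Finset.prod_eq_one fun k _ => Matrix.one_apply_eq _
  · rw [Matrix.one_apply_ne h]
    obtain ⟨k, hk⟩ : ∃ k, J k ≠ K k := by
      by_contra hcon
      push Not at hcon
      exact h (funext hcon)
    exact Finset.prod_eq_zero (Finset.mem_univ k) (Matrix.one_apply_ne hk)

theorem tpow_inv (a : ℕ) {x y : Matrix (Fin n) (Fin n) R} (h : x * y = 1) :
    tpow a x * tpow a y = 1 := by
  rw [← tpow_mul, h, tpow_one]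

end Kron

/-! ### The polynomials -/

section Pol

variable {n : ℕ} {K : Type} [Field K] [Algebra K ℂ]

/-- The generic matrix. -/
def gen (n : ℕ) (K : Type) [Field K] : Matrix (Fin n) (Fin n) (MvPolynomial (Fin n × Fin n) K) :=
  Matrix.of fun i j => MvPolynomial.X (i, j)

/-- the evaluation at a matrix -/
def ev (x : Matrix (Fin n) (Fin n) ℂ) : MvPolynomial (Fin n × Fin n) K →ₐ[K] ℂ :=
  MvPolynomial.aeval fun b : Fin n × Fin n => x b.1 b.2

theorem ev_tpow (x : Matrix (Fin n) (Fin n) ℂ) (a : ℕ) (J J' : Fin a → Fin n) :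
    ev (K := K) x (tpow a (gen n K) J J') = tpow a x J J' := by
  change ev x (∏ k, gen n K (J k) (J' k)) = ∏ k, x (J k) (J' k)
  rw [map_prod]
  refine Finset.prod_congr rfl fun k _ => ?_
  exact MvPolynomial.aeval_X _ _

/-- The constants. -/
def cst (n : ℕ) {I J : Type} (A : Matrix I J K) :
    Matrix I J (MvPolynomial (Fin n × Fin n) K) :=
  Matrix.of fun i j => MvPolynomial.C (A i j)

/-- the polynomials `A tpow(x) B` -/
def lin {a : ℕ} {I L : Type} (A : Matrix I (Fin a → Fin n) K) (B : Matrix (Fin a → Fin n) L K) :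
    Matrix I L (MvPolynomial (Fin n × Fin n) K) :=
  cst n A * tpow a (gen n K) * cst n B

theorem ev_cst {I J : Type} (x : Matrix (Fin n) (Fin n) ℂ) (A : Matrix I J K) (i : I) (j : J) :
    ev x (cst n A i j) = algebraMap K ℂ (A i j) :=
  MvPolynomial.aeval_C _ _

/-- the entries of `A tpow(x) B` are polynomials in the entries of `x` -/
theorem ev_lin {a : ℕ} {I L : Type} (x : Matrix (Fin n) (Fin n) ℂ)
    (A : Matrix I (Fin a → Fin n) K) (B : Matrix (Fin a → Fin n) L K) (i : I) (l : L) :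
    ev x (lin A B i l) =
    (A.map (algebraMap K ℂ) * tpow a x * B.map (algebraMap K ℂ) : Matrix I L ℂ) i l := by
  unfold lin
  simp only [Matrix.mul_apply, Matrix.map_apply, map_sum, map_mul, ev_tpow, ev_cst]

end Pol

/-! ### A point with algebraic coordinates -/

/-- **Nullstellensatz.** -/
theorem exists_point {n : ℕ} (P : Matrix (Fin n) (Fin n) ℂ) (hP : P.det ≠ 0) :
    ∃ F : Matrix (Fin n) (Fin n) ℂ, (∀ i j, IsAlgebraic ℚ (F i j)) ∧ F.det ≠ 0 ∧
      ∀ p : MvPolynomial (Fin n × Fin n) QBar, ev P p = 0 → ev F p = 0 := by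
  classical
  let s : Finset ℂ := insert (P.det)⁻¹ (Finset.univ.image fun b : Fin n × Fin n => P b.1 b.2)
  let S : Subalgebra QBar ℂ := Algebra.adjoin QBar (s : Set ℂ)
  have hft : Algebra.FiniteType QBar S := Subalgebra.fg_iff_finiteType S |>.1 ⟨s, rfl⟩
  obtain ⟨m, hm⟩ := Ideal.exists_maximal S
  let k := S ⧸ m
  letI : Field k := Ideal.Quotient.field m
  have hft' : Algebra.FiniteType QBar k := Algebra.FiniteType.of_surjective
    (Ideal.Quotient.mkₐ QBar m) (Ideal.Quotient.mkₐ_surjective QBar m)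
  have hfin : Module.Finite QBar k := finite_of_finite_type_of_isJacobsonRing QBar k
  have hbij : Function.Bijective (algebraMap QBar k) :=
    IsAlgClosed.algebraMap_bijective_of_isIntegral
  let e : QBar ≃ₐ[QBar] k := AlgEquiv.ofBijective (Algebra.ofId QBar k) hbij
  let φ : S →ₐ[QBar] QBar := (e.symm : k →ₐ[QBar] QBar).comp (Ideal.Quotient.mkₐ QBar m)
  let PS : Matrix (Fin n) (Fin n) S := Matrix.of fun i j => ⟨P i j, Algebra.subset_adjoin (by
    simp only [s, Finset.coe_insert, Set.mem_insert_iff, Finset.mem_coe, Finset.mem_image,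
      Finset.mem_univ, true_and]
    exact Or.inr ⟨(i, j), rfl⟩)⟩
  have hPS : PS.map (S.val : S → ℂ) = P := by
    ext i j
    rfl
  let dS : S := ⟨(P.det)⁻¹, Algebra.subset_adjoin (by
    simp only [s, Finset.coe_insert, Set.mem_insert_iff, true_or])⟩
  have hd : PS.det * dS = 1 := by
    apply Subtype.ext
    have h1 : ((PS.det : S) : ℂ) = P.det := by
      have h2 := (S.val : S →ₐ[QBar] ℂ).toRingHom.map_det PS
      rw [← hPS]
      exact h2
    change ((PS.det : S) : ℂ) * (P.det)⁻¹ = 1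
    rw [h1, mul_inv_cancel₀ hP]
  let F0 : Matrix (Fin n) (Fin n) QBar := PS.map φ
  have hF0 : F0.det ≠ 0 := by
    intro h0
    have h1 : φ PS.det = F0.det := (φ : S →ₐ[QBar] QBar).toRingHom.map_det PS
    have h2 := congrArg φ hd
    rw [map_mul, h1, h0, zero_mul, map_one] at h2
    exact zero_ne_one h2
  refine ⟨F0.map (algebraMap QBar ℂ), fun i j => ?_, ?_, fun p hp => ?_⟩
  · exact mem_algebraicClosure_iff.1 (F0 i j).2
  · have h1 := (algebraMap QBar ℂ).map_det F0
    rw [RingHom.mapMatrix_apply] at h1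
    rw [← h1]
    exact fun h0 => hF0 ((map_eq_zero _).1 h0)
  · have h1 : ∀ p : MvPolynomial (Fin n × Fin n) QBar,
        S.val (MvPolynomial.aeval (fun b : Fin n × Fin n => PS b.1 b.2) p) = ev P p := by
      intro p
      have h2 : (S.val.comp (MvPolynomial.aeval fun b : Fin n × Fin n => PS b.1 b.2) :
          MvPolynomial (Fin n × Fin n) QBar →ₐ[QBar] ℂ) = ev P := by
        apply MvPolynomial.algHom_ext
        intro b
        change S.val (MvPolynomial.aeval (fun b : Fin n × Fin n => PS b.1 b.2)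
          (MvPolynomial.X b)) = MvPolynomial.aeval (fun b : Fin n × Fin n => P b.1 b.2)
          (MvPolynomial.X b)
        rw [MvPolynomial.aeval_X, MvPolynomial.aeval_X]
        rfl
      exact congrArg (fun f => f p) h2
    have h2 : MvPolynomial.aeval (fun b : Fin n × Fin n => PS b.1 b.2) p = 0 := by
      apply Subtype.ext
      exact (h1 p).trans hp
    have h3 : algebraMap QBar ℂ (φ (MvPolynomial.aeval (fun b : Fin n × Fin n => PS b.1 b.2) p)) =
        ev (F0.map (algebraMap QBar ℂ)) p := by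
      have h4 : (Algebra.ofId QBar ℂ).comp φ (MvPolynomial.aeval
          (fun b : Fin n × Fin n => PS b.1 b.2) p) = ev (F0.map (algebraMap QBar ℂ)) p := by
        have h5 : (((Algebra.ofId QBar ℂ).comp φ).comp
            (MvPolynomial.aeval fun b : Fin n × Fin n => PS b.1 b.2) :
            MvPolynomial (Fin n × Fin n) QBar →ₐ[QBar] ℂ) = ev (F0.map (algebraMap QBar ℂ)) := by
          apply MvPolynomial.algHom_ext
          intro b
          change (Algebra.ofId QBar ℂ) (φ (MvPolynomial.aeval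
            (fun b : Fin n × Fin n => PS b.1 b.2) (MvPolynomial.X b))) =
            MvPolynomial.aeval (fun b : Fin n × Fin n => F0.map (algebraMap QBar ℂ) b.1 b.2)
            (MvPolynomial.X b)
          rw [MvPolynomial.aeval_X, MvPolynomial.aeval_X]
          rfl
        exact congrArg (fun f => f p) h5
      exact h4
    rw [← h3, h2, map_zero, map_zero]

/-- the points with algebraic coordinates of the torsors -/
theorem point_mem {n : ℕ} {P F T : Matrix (Fin n) (Fin n) ℂ}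
    (hF : ∀ p : MvPolynomial (Fin n × Fin n) QBar, ev P p = 0 → ev F p = 0)
    (hT : ∀ i j, IsAlgebraic ℚ (T i j)) (p : MvPolynomial (Fin n × Fin n) ℚ)
    (hp : ev (P * T) p = 0) : ev (F * T) p = 0 := by
  let T' : Fin n → Fin n → QBar := fun i j => ⟨T i j, mem_algebraicClosure_iff.2 (hT i j)⟩
  let ψ : MvPolynomial (Fin n × Fin n) ℚ →ₐ[ℚ] MvPolynomial (Fin n × Fin n) QBar :=
    MvPolynomial.aeval fun b : Fin n × Fin n =>
      ∑ k, MvPolynomial.X (b.1, k) * MvPolynomial.C (T' k b.2)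
  have key : ∀ (Q : Matrix (Fin n) (Fin n) ℂ) (p : MvPolynomial (Fin n × Fin n) ℚ),
      ev Q (ψ p) = ev (Q * T) p := by
    intro Q p
    have h1 : ((ev (K := QBar) Q).restrictScalars ℚ).comp ψ = ev (K := ℚ) (Q * T) := by
      apply MvPolynomial.algHom_ext
      intro b
      change ev (K := QBar) Q (MvPolynomial.aeval (fun b : Fin n × Fin n =>
        ∑ k, MvPolynomial.X (b.1, k) * MvPolynomial.C (T' k b.2)) (MvPolynomial.X b)) =
        MvPolynomial.aeval (fun b : Fin n × Fin n => (Q * T) b.1 b.2) (MvPolynomial.X b)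
      rw [MvPolynomial.aeval_X, MvPolynomial.aeval_X, map_sum, Matrix.mul_apply]
      refine Finset.sum_congr rfl fun k _ => ?_
      rw [map_mul]
      exact congrArg₂ (· * ·) (MvPolynomial.aeval_X _ _) (MvPolynomial.aeval_C _ _)
    exact congrArg (fun f => f p) h1
  rw [← key]
  apply hF
  rw [key]
  exact hp

/-! ### Homomorphisms -/

section Hom

variable {n : ℕ}

/-- The complex matrix of a rational matrix. -/
def cQ {I J : Type} (A : Matrix I J ℚ) : Matrix I J ℂ := A.map (algebraMap ℚ ℂ)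

theorem cQ_mul {I J L : Type} [Fintype J] (A : Matrix I J ℚ) (B : Matrix J L ℚ) :
    cQ (A * B) = cQ A * cQ B := Matrix.map_mul

theorem cQ_one {I : Type} [DecidableEq I] : cQ (1 : Matrix I I ℚ) = 1 :=
  Matrix.map_one _ (map_zero _) (map_one _)

/-- the polynomials which vanish at the matrices `x` such that `A tpow(x) B = C tpow(x) D` -/
theorem lin_eq_iff {K : Type} [Field K] [Algebra K ℂ] {a b : ℕ} {I L : Type}
    (A : Matrix I (Fin a → Fin n) K) (B : Matrix (Fin a → Fin n) L K)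
    (C : Matrix I (Fin b → Fin n) K) (D : Matrix (Fin b → Fin n) L K)
    (x : Matrix (Fin n) (Fin n) ℂ) :
    (∀ i l, ev x (lin A B i l - lin C D i l) = 0) ↔
      (A.map (algebraMap K ℂ) * tpow a x * B.map (algebraMap K ℂ) : Matrix I L ℂ) =
        C.map (algebraMap K ℂ) * tpow b x * D.map (algebraMap K ℂ) := by
  constructor
  · intro h
    ext i l
    have h1 := h i l
    rw [map_sub, ev_lin, ev_lin] at h1
    exact sub_eq_zero.1 h1
  · intro h i l
    rw [map_sub, ev_lin, ev_lin, h, sub_self]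

/-- algebraic entries -/
theorem lift {I J : Type} {A : Matrix I J ℂ} (hA : ∀ i j, IsAlgebraic ℚ (A i j)) :
    ∃ A' : Matrix I J QBar, A'.map (algebraMap QBar ℂ) = A :=
  ⟨Matrix.of fun i j => ⟨A i j, mem_algebraicClosure_iff.2 (hA i j)⟩, by ext; rfl⟩

/-- The stabilizer of a homomorphism. -/
def stabHom {a b : ℕ} (t : Matrix (Fin a → Fin n) (Fin b → Fin n) ℚ) :
    Subgroup (GL (Fin n) ℂ) where
  carrier := {x | tpow a (x : Matrix (Fin n) (Fin n) ℂ) * cQ t =
    cQ t * tpow b (x : Matrix (Fin n) (Fin n) ℂ)}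
  one_mem' := by
    change tpow a ((1 : GL (Fin n) ℂ) : Matrix (Fin n) (Fin n) ℂ) * cQ t = cQ t * tpow b _
    rw [Units.val_one, tpow_one, tpow_one, Matrix.one_mul, Matrix.mul_one]
  mul_mem' := by
    intro x y hx hy
    change tpow a ((x * y : GL (Fin n) ℂ) : Matrix (Fin n) (Fin n) ℂ) * cQ t = cQ t * tpow b _
    rw [Units.val_mul, tpow_mul, tpow_mul, Matrix.mul_assoc, hy, ← Matrix.mul_assoc, hx,
      Matrix.mul_assoc]
  inv_mem' := by
    intro x hx
    change tpow a ((x⁻¹ : GL (Fin n) ℂ) : Matrix (Fin n) (Fin n) ℂ) * cQ t = cQ t * tpow b _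
    have h1 : tpow a ((x⁻¹ : GL (Fin n) ℂ) : Matrix (Fin n) (Fin n) ℂ) *
      tpow a (x : Matrix (Fin n) (Fin n) ℂ) = 1 := tpow_inv a x.inv_val
    have h2 : tpow b (x : Matrix (Fin n) (Fin n) ℂ) *
      tpow b ((x⁻¹ : GL (Fin n) ℂ) : Matrix (Fin n) (Fin n) ℂ) = 1 := tpow_inv b x.val_inv
    calc tpow a ((x⁻¹ : GL (Fin n) ℂ) : Matrix (Fin n) (Fin n) ℂ) * cQ t
        = tpow a ((x⁻¹ : GL (Fin n) ℂ) : Matrix (Fin n) (Fin n) ℂ) *
          (cQ t * tpow b (x : Matrix (Fin n) (Fin n) ℂ)) *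
            tpow b ((x⁻¹ : GL (Fin n) ℂ) : Matrix (Fin n) (Fin n) ℂ) := by
          rw [Matrix.mul_assoc, Matrix.mul_assoc, h2, Matrix.mul_one]
      _ = _ := by
          rw [← hx, ← Matrix.mul_assoc, h1, Matrix.one_mul]

theorem stabHom_alg {a b : ℕ} (t : Matrix (Fin a → Fin n) (Fin b → Fin n) ℚ) :
    ∃ I : Set (MvPolynomial (Fin n × Fin n) ℚ), ∀ x : GL (Fin n) ℂ, x ∈ stabHom t ↔
      ∀ p ∈ I, MvPolynomial.aeval (fun b : Fin n × Fin n =>
        (x : Matrix (Fin n) (Fin n) ℂ) b.1 b.2) p = 0 := by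
  refine ⟨{p | ∃ i l, p = lin (1 : Matrix (Fin a → Fin n) (Fin a → Fin n) ℚ) t i l -
    lin t (1 : Matrix (Fin b → Fin n) (Fin b → Fin n) ℚ) i l}, fun x => ?_⟩
  have h1 := lin_eq_iff (1 : Matrix (Fin a → Fin n) (Fin a → Fin n) ℚ) t t
    (1 : Matrix (Fin b → Fin n) (Fin b → Fin n) ℚ) (x : Matrix (Fin n) (Fin n) ℂ)
  have h2 : ((1 : Matrix (Fin a → Fin n) (Fin a → Fin n) ℚ).map (algebraMap ℚ ℂ)) =
    (1 : Matrix (Fin a → Fin n) (Fin a → Fin n) ℂ) := cQ_one
  have h3 : ((1 : Matrix (Fin b → Fin n) (Fin b → Fin n) ℚ).map (algebraMap ℚ ℂ)) =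
    (1 : Matrix (Fin b → Fin n) (Fin b → Fin n) ℂ) := cQ_one
  rw [h2, h3, Matrix.one_mul, Matrix.mul_one] at h1
  constructor
  · rintro hx p ⟨i, l, rfl⟩
    exact h1.2 hx i l
  · intro h
    exact h1.1 fun i l => h _ ⟨i, l, rfl⟩

/-- **A homomorphism of de Rham-Betti objects is fixed at the point of the torsor.** -/
theorem stabHom_mem {P F : Matrix (Fin n) (Fin n) ℂ}
    (hF : ∀ p : MvPolynomial (Fin n × Fin n) QBar, ev P p = 0 → ev F p = 0)
    {F' : Matrix (Fin n) (Fin n) ℂ} (h1 : F * F' = 1)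
    {x : GL (Fin n) ℂ} (hx : (x : Matrix (Fin n) (Fin n) ℂ) = P * F') {a b : ℕ}
    {t : Matrix (Fin a → Fin n) (Fin b → Fin n) ℚ}
    {u : Matrix (Fin a → Fin n) (Fin b → Fin n) ℂ} (hu : ∀ i j, IsAlgebraic ℚ (u i j))
    (h : tpow a P * u = cQ t * tpow b P) : x ∈ stabHom t := by
  obtain ⟨u', rfl⟩ := lift hu
  obtain ⟨t', ht'⟩ : ∃ t' : Matrix (Fin a → Fin n) (Fin b → Fin n) QBar,
      t'.map (algebraMap QBar ℂ) = cQ t := ⟨t.map (algebraMap ℚ QBar), by ext; rfl⟩
  have key := lin_eq_iff (1 : Matrix (Fin a → Fin n) (Fin a → Fin n) QBar) u' t'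
    (1 : Matrix (Fin b → Fin n) (Fin b → Fin n) QBar)
  have h2 : ((1 : Matrix (Fin a → Fin n) (Fin a → Fin n) QBar).map (algebraMap QBar ℂ)) =
    (1 : Matrix (Fin a → Fin n) (Fin a → Fin n) ℂ) := Matrix.map_one _ (map_zero _) (map_one _)
  have h3 : ((1 : Matrix (Fin b → Fin n) (Fin b → Fin n) QBar).map (algebraMap QBar ℂ)) =
    (1 : Matrix (Fin b → Fin n) (Fin b → Fin n) ℂ) := Matrix.map_one _ (map_zero _) (map_one _)
  simp only [h2, h3, Matrix.one_mul, Matrix.mul_one, ht'] at key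
  have h4 : tpow a F * u'.map (algebraMap QBar ℂ) = cQ t * tpow b F :=
    (key F).1 fun i l => hF _ ((key P).2 h i l)
  have h5 : tpow a F' * tpow a F = 1 := tpow_inv a (mul_eq_one_comm.1 h1)
  have h6 : tpow b F * tpow b F' = 1 := tpow_inv b h1
  have h7 : tpow a F' * cQ t = u'.map (algebraMap QBar ℂ) * tpow b F' := by
    calc tpow a F' * cQ t = tpow a F' * (cQ t * tpow b F) * tpow b F' := by
          rw [Matrix.mul_assoc, Matrix.mul_assoc, h6, Matrix.mul_one]
      _ = _ := by rw [← h4, ← Matrix.mul_assoc, h5, Matrix.one_mul]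
  change tpow a (x : Matrix (Fin n) (Fin n) ℂ) * cQ t =
    cQ t * tpow b (x : Matrix (Fin n) (Fin n) ℂ)
  rw [hx, tpow_mul, tpow_mul, Matrix.mul_assoc, h7, ← Matrix.mul_assoc, h, Matrix.mul_assoc]

/-! ### Subobjects -/

/-- The stabilizer of a subspace, with the basis given by the columns of `u`. -/
def stabSub {a m : ℕ} (u : Matrix (Fin a → Fin n) (Fin m) ℚ)
    (hu : ∃ v : Matrix (Fin m) (Fin a → Fin n) ℚ, v * u = 1) : Subgroup (GL (Fin n) ℂ) where
  carrier := {x | ∃ y : Matrix (Fin m) (Fin m) ℂ,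
    tpow a (x : Matrix (Fin n) (Fin n) ℂ) * cQ u = cQ u * y}
  one_mem' := ⟨1, by rw [Units.val_one, tpow_one, Matrix.one_mul, Matrix.mul_one]⟩
  mul_mem' := by
    rintro x y ⟨x', hx⟩ ⟨y', hy⟩
    exact ⟨x' * y', by rw [Units.val_mul, tpow_mul, Matrix.mul_assoc, hy, ← Matrix.mul_assoc, hx,
      Matrix.mul_assoc]⟩
  inv_mem' := by
    rintro x ⟨y, hy⟩
    obtain ⟨v, hv⟩ := hu
    have h1 : tpow a ((x⁻¹ : GL (Fin n) ℂ) : Matrix (Fin n) (Fin n) ℂ) *
      tpow a (x : Matrix (Fin n) (Fin n) ℂ) = 1 := tpow_inv a x.inv_val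
    have h2 : cQ v * cQ u = 1 := by rw [← cQ_mul, hv, cQ_one]
    have h3 : tpow a ((x⁻¹ : GL (Fin n) ℂ) : Matrix (Fin n) (Fin n) ℂ) * cQ u * y = cQ u := by
      rw [Matrix.mul_assoc, ← hy, ← Matrix.mul_assoc, h1, Matrix.one_mul]
    have h4 : cQ v * (tpow a ((x⁻¹ : GL (Fin n) ℂ) : Matrix (Fin n) (Fin n) ℂ) * cQ u) * y = 1 := by
      rw [Matrix.mul_assoc, h3, h2]
    have h5 := mul_eq_one_comm.1 h4
    refine ⟨cQ v * (tpow a ((x⁻¹ : GL (Fin n) ℂ) : Matrix (Fin n) (Fin n) ℂ) * cQ u), ?_⟩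
    calc tpow a ((x⁻¹ : GL (Fin n) ℂ) : Matrix (Fin n) (Fin n) ℂ) * cQ u
        = tpow a ((x⁻¹ : GL (Fin n) ℂ) : Matrix (Fin n) (Fin n) ℂ) * cQ u * (y *
          (cQ v * (tpow a ((x⁻¹ : GL (Fin n) ℂ) : Matrix (Fin n) (Fin n) ℂ) * cQ u))) := by
          rw [h5, Matrix.mul_one]
      _ = _ := by rw [← Matrix.mul_assoc, h3]

theorem stabSub_alg {a m : ℕ} (u : Matrix (Fin a → Fin n) (Fin m) ℚ)
    (hu : ∃ v : Matrix (Fin m) (Fin a → Fin n) ℚ, v * u = 1) :
    ∃ I : Set (MvPolynomial (Fin n × Fin n) ℚ), ∀ x : GL (Fin n) ℂ, x ∈ stabSub u hu ↔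
      ∀ p ∈ I, MvPolynomial.aeval (fun b : Fin n × Fin n =>
        (x : Matrix (Fin n) (Fin n) ℂ) b.1 b.2) p = 0 := by
  obtain ⟨v, hv⟩ := hu
  refine ⟨{p | ∃ i l, p = lin (1 : Matrix (Fin a → Fin n) (Fin a → Fin n) ℚ) u i l -
    lin (u * v) u i l}, fun x => ?_⟩
  have h1 := lin_eq_iff (1 : Matrix (Fin a → Fin n) (Fin a → Fin n) ℚ) u (u * v) u
    (x : Matrix (Fin n) (Fin n) ℂ)
  have h2 : ((1 : Matrix (Fin a → Fin n) (Fin a → Fin n) ℚ).map (algebraMap ℚ ℂ)) =
    (1 : Matrix (Fin a → Fin n) (Fin a → Fin n) ℂ) := cQ_one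
  have h3 : (u * v).map (algebraMap ℚ ℂ) = cQ u * cQ v := cQ_mul u v
  rw [h2, h3, Matrix.one_mul] at h1
  constructor
  · rintro ⟨y, hy⟩ p ⟨i, l, rfl⟩
    refine h1.2 ?_ i l
    change _ * cQ u = _ * cQ u
    have h4 : cQ v * cQ u = 1 := by rw [← cQ_mul, hv, cQ_one]
    rw [Matrix.mul_assoc, hy, Matrix.mul_assoc, ← Matrix.mul_assoc (cQ v), h4, Matrix.one_mul]
  · intro h
    refine ⟨cQ v * (tpow a (x : Matrix (Fin n) (Fin n) ℂ) * cQ u), ?_⟩
    rw [← Matrix.mul_assoc, ← Matrix.mul_assoc]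
    exact h1.1 fun i l => h _ ⟨i, l, rfl⟩

/-- **A subobject of de Rham-Betti objects is fixed at the point of the torsor.** -/
theorem stabSub_mem {P F : Matrix (Fin n) (Fin n) ℂ}
    (hF : ∀ p : MvPolynomial (Fin n × Fin n) QBar, ev P p = 0 → ev F p = 0)
    {F' : Matrix (Fin n) (Fin n) ℂ} (h1 : F * F' = 1)
    {x : GL (Fin n) ℂ} (hx : (x : Matrix (Fin n) (Fin n) ℂ) = P * F') {a m : ℕ}
    {u : Matrix (Fin a → Fin n) (Fin m) ℚ}
    (hu : ∃ v : Matrix (Fin m) (Fin a → Fin n) ℚ, v * u = 1)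
    {t : Matrix (Fin a → Fin n) (Fin m) ℂ} (ht : ∀ i j, IsAlgebraic ℚ (t i j))
    {c c' : Matrix (Fin m) (Fin m) ℂ} (hc : c * c' = 1)
    (h : tpow a P * t = cQ u * c) : x ∈ stabSub u hu := by
  obtain ⟨t', rfl⟩ := lift ht
  obtain ⟨v, hv⟩ := id hu
  have hv' : cQ v * cQ u = 1 := by rw [← cQ_mul, hv, cQ_one]
  obtain ⟨w, hw⟩ : ∃ w : Matrix (Fin a → Fin n) (Fin a → Fin n) QBar,
      w.map (algebraMap QBar ℂ) = cQ u * cQ v :=
    ⟨(u * v).map (algebraMap ℚ QBar), by rw [← cQ_mul]; ext; rfl⟩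
  have key := lin_eq_iff (1 : Matrix (Fin a → Fin n) (Fin a → Fin n) QBar) t' w t'
  have h2 : ((1 : Matrix (Fin a → Fin n) (Fin a → Fin n) QBar).map (algebraMap QBar ℂ)) =
    (1 : Matrix (Fin a → Fin n) (Fin a → Fin n) ℂ) := Matrix.map_one _ (map_zero _) (map_one _)
  simp only [h2, Matrix.one_mul, hw] at key
  set τ := t'.map (algebraMap QBar ℂ) with hτ
  have h4 : tpow a F * τ = cQ u * cQ v * tpow a F * τ := by
    refine (key F).1 fun i l => hF _ ((key P).2 ?_ i l)
    rw [Matrix.mul_assoc (cQ u * cQ v), h, Matrix.mul_assoc, ← Matrix.mul_assoc (cQ v), hv',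
      Matrix.one_mul]
  have hd : F.det ≠ 0 := fun h0 => by
    have h5 := congrArg Matrix.det h1
    rw [Matrix.det_mul, h0, zero_mul, Matrix.det_one] at h5
    exact zero_ne_one h5
  -- the matrix at the algebraic point is invertible
  have h5 : tpow a F' * tpow a F = 1 := tpow_inv a (mul_eq_one_comm.1 h1)
  have h6 : (c' * (cQ v * tpow a P)) * τ = 1 := by
    rw [Matrix.mul_assoc, Matrix.mul_assoc, h, ← Matrix.mul_assoc (cQ v), hv', Matrix.one_mul]
    exact mul_eq_one_comm.1 hc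
  set d := cQ v * tpow a F * τ with hd'
  have h7 : (c' * (cQ v * tpow a P) * (tpow a F' * cQ u)) * d = 1 := by
    have h8 : cQ u * d = tpow a F * τ := by
      rw [hd', ← Matrix.mul_assoc, ← Matrix.mul_assoc]
      exact h4.symm
    rw [Matrix.mul_assoc, Matrix.mul_assoc (tpow a F'), h8, ← Matrix.mul_assoc (tpow a F'), h5,
      Matrix.one_mul, h6]
  obtain ⟨e, he⟩ : ∃ e : Matrix (Fin m) (Fin m) ℂ, d * e = 1 :=
    ⟨_, mul_eq_one_comm.1 h7⟩
  have h9 : tpow a F' * cQ u = τ * e := by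
    calc tpow a F' * cQ u = tpow a F' * (cQ u * (d * e)) := by rw [he, Matrix.mul_one]
      _ = tpow a F' * (tpow a F * τ) * e := by
          rw [Matrix.mul_assoc (tpow a F'), ← Matrix.mul_assoc (cQ u)]
          congr 2
          rw [hd', ← Matrix.mul_assoc, ← Matrix.mul_assoc]
          exact h4.symm
      _ = _ := by rw [← Matrix.mul_assoc (tpow a F'), h5, Matrix.one_mul]
  refine ⟨c * e, ?_⟩
  rw [hx, tpow_mul, Matrix.mul_assoc, h9, ← Matrix.mul_assoc, h, Matrix.mul_assoc]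

end Hom

end Pool.Agent.Run7.h358.U2
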