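import Pool.Agent.Run7.h358.U2.Cn
import Pool.Agent.Run7.h358.U2.Ch3

set_option autoImplicit false
set_option linter.unusedSectionVars false

/-!
# There are no links between the indefinite places

The commutant is of dimension four over the centre. Let `X` be an element of the derived algebra of
a full subalgebra. Its square is a symmetric element of the centre. At a definite place it is at
most zero, and at an indefinite place it is positive for some `X`. So the field generated by the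
squares separates the indefinite places from the definite ones; and it does not separate
linked places.
-/

open Module Matrix

noncomputable section

namespace Pool.Agent.Run7.h358.U2

open Pool.Agent.Y102 Pool.Agent.W516.DR Pool.Agent.H204R3.GP Pool.Agent.W516.KC
  Pool.Agent.H204R3.SP Pool.Agent.TH119.MX Pool.Agent.R917 Pool.Agent.N208.AM Pool.Agent.N208.AD
  Pool.Agent.N208.BT

variable {g : ℕ}

/-- Every algebra of symmetric elements of `ℚ[z]` which separates the indefinite places from the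
definite places separates the indefinite places. -/
def SepD (A : AbVar g) (z : Module.End ℚ A.H1) (Sg : Finset ℝ) : Prop :=
  ∀ R : Subalgebra ℚ (Module.End ℚ A.H1), (∀ X ∈ R, ∃ q : Polynomial ℚ, X = Polynomial.aeval z q) →
    (∀ X ∈ R, ∀ u v, A.om (X u) v = A.om u (X v)) →
    (∀ a ∈ Sg, ∀ c : ℝ, (∃ x, x ≠ 0 ∧ Eig A z c x) → c ∉ Sg → -c ∉ Sg →
      ∃ q : Polynomial ℚ, Polynomial.aeval z q ∈ R ∧
        Polynomial.aeval ((a : ℂ) * Complex.I) q ≠ Polynomial.aeval ((c : ℂ) * Complex.I) q) →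
    ∀ a ∈ Sg, ∀ b ∈ Sg, a ≠ b → ∃ q : Polynomial ℚ, Polynomial.aeval z q ∈ R ∧
      Polynomial.aeval ((a : ℂ) * Complex.I) q ≠ Polynomial.aeval ((b : ℂ) * Complex.I) q

/-- the hypotheses -/
structure HU (A : AbVar g) (z : Module.End ℚ A.H1) (Sg : Finset ℝ) : Prop where
  hf : N208.LC.HF A z 2
  disj : ∀ al ∈ Sg, -al ∉ Sg
  e1 : ∀ al ∈ Sg, ∃ x, x ≠ 0 ∧ Eig A z al x
  e2 : ∀ al ∈ Sg, ∃ x, x ≠ 0 ∧ Eig A z (-al) x
  dfn : ∀ b : ℝ, (∃ x, x ≠ 0 ∧ Eig A z b x) → (∃ x, x ≠ 0 ∧ Eig A z (-b) x) → b ∈ Sg ∨ -b ∈ Sg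
  sep : SepD A z Sg

variable {A : AbVar g} {z : Module.End ℚ A.H1} {Sg : Finset ℝ}
  {𝔮 : Submodule ℚ (Module.End ℚ A.H1)}

theorem HU.hq (H : HU A z Sg) {al : ℝ} (ha : al ∈ Sg) : HQ A z al where
  mem := H.hf.mem
  cen := H.hf.cen
  skew := H.hf.skew
  gen := fun P hP hc => by
    obtain ⟨q, hq⟩ := H.hf.gen P hP hc
    exact ⟨q, by rw [hq]⟩
  ne := by
    rintro rfl
    exact H.disj 0 ha (by rwa [neg_zero])
  ex := by
    obtain ⟨x, hx, hxe⟩ := H.e1 al ha
    exact ⟨x, eig_mem_V0 H.hf.mem rfl hxe, hx⟩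

theorem HU.mixed (H : HU A z Sg) {al : ℝ} (ha : al ∈ Sg) {N : ℕ} {sg : Fin N → ℝ}
    {φ : VN N →ₗ[ℝ] (Fin g → ℂ)} (w : WN A z al N sg φ) : Mixed sg :=
  mixed_of (H.hq ha) (H.e1 al ha) (H.e2 al ha) w

theorem HU.two (H : HU A z Sg) {al : ℝ} (ha : al ∈ Sg) {N : ℕ} {sg : Fin N → ℝ}
    {φ : VN N →ₗ[ℝ] (Fin g → ℂ)} (w : WN A z al N sg φ) : N = 2 := by
  have h1 := rank_le (H.hq ha) w H.hf.field H.hf.deg
  obtain ⟨⟨i, hi⟩, j, hj⟩ := H.mixed ha w
  have hij : i ≠ j := by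
    rintro rfl
    rw [hi] at hj
    norm_num at hj
  have h2 : (i : ℕ) ≠ j := fun h => hij (Fin.ext h)
  have := i.2
  have := j.2
  omega

theorem HU.big (H : HU A z Sg) {al : ℝ} (ha : al ∈ Sg) {N : ℕ} {sg : Fin N → ℝ}
    {φ : VN N →ₗ[ℝ] (Fin g → ℂ)} (w : WN A z al N sg φ) (hq : A.Full 𝔮) :
    Big sg (rN A (der 𝔮) φ) := by
  have h2 := H.two ha w
  subst h2
  exact big_two w.isSg (N755.BGRR.main g A z al (H.hq ha) 2 sg φ w 𝔮 hq)

/-! ### The squares -/

/-- The squares are polynomials in `z`. -/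
theorem sq_poly (H : HU A z Sg) {al : ℝ} (ha : al ∈ Sg) {N : ℕ} {sg : Fin N → ℝ}
    {φ : VN N →ₗ[ℝ] (Fin g → ℂ)} (w : WN A z al N sg φ) (hq : A.Full 𝔮)
    {X : Module.End ℚ A.H1} (hX : X ∈ der 𝔮) : X * X ∈ C0 A ∧
      ∃ q : Polynomial ℚ, X * X = Polynomial.aeval z q := by
  have h1 := der_sq_C0 (H.hq ha) w H.hf.field (H.two ha w).le hq hX
  refine ⟨h1, H.hf.gen _ (fun Y hY => ?_) fun Q hQ => h1.1 Q hQ⟩
  exact (h1.2.1 Y (N768.BGPD.NA_CB (A.LA_le_NA hY))).symm

theorem eig_aeval (hz : z ∈ A.EA) {c : ℝ} {x : Fin g → ℂ} (hx : Eig A z c x) (q : Polynomial ℚ) :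
    A.ext (Polynomial.aeval z q) x = Polynomial.aeval ((c : ℂ) * Complex.I) q • x := by
  induction q using Polynomial.induction_on with
  | C a =>
    rw [Polynomial.aeval_C, Polynomial.aeval_C, Algebra.algebraMap_eq_smul_one, ext_smul,
      N768.BGPD.ext_one, LinearMap.smul_apply, Module.End.one_apply]
    rfl
  | add p q hp hq => rw [map_add, map_add, ext_add, LinearMap.add_apply, hp, hq, add_smul]
  | monomial k c' hk =>
    have e3 : ∀ {R : Type} [Ring R] [Algebra ℚ R] (u : R),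
        Polynomial.aeval u (Polynomial.C c' * Polynomial.X ^ (k + 1)) =
        Polynomial.aeval u (Polynomial.C c' * Polynomial.X ^ k) * u := fun u => by
      rw [pow_succ, ← mul_assoc, map_mul, Polynomial.aeval_X]
    have e4 : ∀ (r : ℂ), A.ext (Polynomial.aeval z (Polynomial.C c' * Polynomial.X ^ k)) (r • x) =
        r • A.ext (Polynomial.aeval z (Polynomial.C c' * Polynomial.X ^ k)) x := by
      intro r
      refine N887.BTC.EA_smul ?_ r x
      intro Y hY
      exact N208.LC.comm_aeval' (hz Y hY) _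
    rw [e3, e3, Pool.Agent.N208.AD.ext_mul, Module.End.mul_apply, show A.ext z x = _ from hx, e4,
      hk, smul_smul, mul_comm]

theorem symE {T : Module.End ℚ A.H1} (hT : ∀ u v, A.om (T u) v = A.om u (T v))
    (u v : Fin g → ℂ) : A.E (A.ext T u) v = A.E u (A.ext T v) := by
  have h2 : A.E.comp (A.ext T) = (A.E.flip.comp (A.ext T)).flip := by
    refine A.ext_per fun u => A.ext_per fun v => ?_
    change A.E (A.ext T (A.per u)) (A.per v) = A.E (A.per u) (A.ext T (A.per v))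
    rw [A.ext_apply, A.ext_apply, ← A.om_coe, ← A.om_coe, hT u v]
  exact congrArg (fun F : (Fin g → ℂ) →ₗ[ℝ] (Fin g → ℂ) →ₗ[ℝ] ℝ => F u v) h2

/-- Symmetric elements have real eigenvalues. -/
theorem real_of_sym (hz : z ∈ A.EA) {c : ℝ} {x : Fin g → ℂ} (hx : Eig A z c x) (h0 : x ≠ 0)
    {q : Polynomial ℚ} (hs : ∀ u v, A.om (Polynomial.aeval z q u) v =
      A.om u (Polynomial.aeval z q v)) : (Polynomial.aeval ((c : ℂ) * Complex.I) q).im = 0 := by
  have h1 := symE hs x x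
  rw [eig_aeval hz hx] at h1
  obtain ⟨r, hr⟩ : ∃ r, r = Polynomial.aeval ((c : ℂ) * Complex.I) q := ⟨_, rfl⟩
  rw [← hr] at h1 ⊢
  have h2 : r • x = r.re • x + r.im • (Complex.I • x) := by
    ext i
    simp only [Pi.smul_apply, Pi.add_apply, smul_eq_mul, Complex.real_smul]
    conv_lhs => rw [← Complex.re_add_im r]
    ring
  have h3 : A.E x x = 0 := by
    have := A.E_anti x x
    linarith
  have k1 : ∀ (a b : ℝ) (u v w : Fin g → ℂ), A.E (a • u + b • v) w = a * A.E u w + b * A.E v w := by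
    intro a b u v w
    rw [map_add, LinearMap.add_apply, LinearMap.map_smul A.E a u, LinearMap.map_smul A.E b v,
      LinearMap.smul_apply, LinearMap.smul_apply, smul_eq_mul, smul_eq_mul]
  have k2 : ∀ (a b : ℝ) (u v w : Fin g → ℂ), A.E w (a • u + b • v) = a * A.E w u + b * A.E w v := by
    intro a b u v w
    rw [map_add, LinearMap.map_smul (A.E w) a u, LinearMap.map_smul (A.E w) b v, smul_eq_mul,
      smul_eq_mul]
  rw [h2, k1, k2, h3, mul_zero, zero_add, zero_add, A.E_anti (Complex.I • x) x] at h1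
  have h4 := A.E_pos h0
  have h5 : r.im * A.E x (Complex.I • x) = 0 := by linarith
  exact (mul_eq_zero.1 h5).resolve_right h4.ne'

/-- At a definite place the elements of the Lie algebra commute with the complex structure. -/
theorem comm_J (H : HU A z Sg) {X : Module.End ℝ (Fin g → ℂ)}
    (hX : X ∈ spE A (A.NA : Set (Module.End ℚ A.H1))) {b : ℝ} (h1 : b ∉ Sg) (h2 : -b ∉ Sg)
    {y : Fin g → ℂ} (hy : Eig A z b y) : X (Complex.I • y) = Complex.I • X y := by
  have hm := H.hf.mem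
  by_cases hy0 : y = 0
  · rw [hy0, smul_zero, map_zero, smul_zero]
  have e1 : A.ext z (X y) = b • X (Complex.I • y) := by
    rw [← N887.BTC.comm_EA hm hX, hy, mul_smul, ← map_smul]
    rfl
  have e2 : A.ext z (X (Complex.I • y)) = -(b • X y) := by
    rw [← N887.BTC.comm_EA hm hX, N887.BTC.EA_smul hm, hy, smul_smul]
    have h3 : Complex.I * ((b : ℂ) * Complex.I) = -(b : ℂ) := by
      linear_combination (b : ℂ) * Complex.I_mul_I
    rw [h3, neg_smul, map_neg, ← map_smul]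
    rfl
  have e3 : Eig A z (-b) (X y + Complex.I • X (Complex.I • y)) := by
    unfold Eig
    rw [map_add, N887.BTC.EA_smul hm, e1, e2]
    have h4 : b • X (Complex.I • y) = (b : ℂ) • X (Complex.I • y) := rfl
    have h5 : b • X y = (b : ℂ) • X y := rfl
    rw [h4, h5]
    generalize X (Complex.I • y) = w'
    generalize X y = w
    ext i
    simp only [Pi.add_apply, Pi.smul_apply, Pi.neg_apply, smul_eq_mul, Complex.ofReal_neg]
    linear_combination (b : ℂ) * w' i * Complex.I_mul_I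
  have e4 : X y + Complex.I • X (Complex.I • y) = 0 := by
    by_contra hcon
    rcases H.dfn b ⟨y, hy0, hy⟩ ⟨_, hcon, e3⟩ with h3 | h3
    · exact h1 h3
    · exact h2 h3
  have e5 : X y = -(Complex.I • X (Complex.I • y)) := eq_neg_of_add_eq_zero_left e4
  rw [e5, smul_neg, smul_smul, Complex.I_mul_I, neg_one_smul, neg_neg]

/-- At a definite place the squares are at most zero. -/
theorem sq_nonpos (H : HU A z Sg) (hq : A.Full 𝔮) {X : Module.End ℚ A.H1} (hX : X ∈ der 𝔮)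
    {q : Polynomial ℚ} (hXq : X * X = Polynomial.aeval z q)
    (hs : ∀ u v, A.om (Polynomial.aeval z q u) v = A.om u (Polynomial.aeval z q v))
    {c : ℝ} (h1 : c ∉ Sg) (h2 : -c ∉ Sg) {y : Fin g → ℂ} (hy : Eig A z c y) (h0 : y ≠ 0) :
    (Polynomial.aeval ((c : ℂ) * Complex.I) q).re ≤ 0 := by
  have hXN : X ∈ A.NA := hq.le (hq.der_le hX)
  have e1 := comm_J H (mem_spE (S := (A.NA : Set (Module.End ℚ A.H1))) hXN) h1 h2 hy
  have e2 := eig_aeval H.hf.mem hy q
  have e3 := real_of_sym H.hf.mem hy h0 hs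
  obtain ⟨r, hr⟩ : ∃ r, r = Polynomial.aeval ((c : ℂ) * Complex.I) q := ⟨_, rfl⟩
  rw [← hr] at e2 e3 ⊢
  have e4 : r • y = r.re • y := by
    have h3 : r = (r.re : ℂ) := Complex.ext rfl (by rw [Complex.ofReal_im, e3])
    conv_lhs => rw [h3]
    rfl
  rw [← hXq, Pool.Agent.N208.AD.ext_mul, Module.End.mul_apply, e4] at e2
  have e5 : A.E (A.ext X (A.ext X y)) (Complex.I • y) =
      -A.E (A.ext X y) (Complex.I • A.ext X y) := by
    rw [N383.LCU.skewE (fun u v => A.NA_skew hXN u v), e1]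
  rw [e2, LinearMap.map_smul A.E r.re y, LinearMap.smul_apply, smul_eq_mul] at e5
  have e6 := A.E_pos h0
  have e7 : 0 ≤ A.E (A.ext X y) (Complex.I • A.ext X y) := by
    by_cases h3 : A.ext X y = 0
    · rw [h3, map_zero, LinearMap.zero_apply]
    · exact (A.E_pos h3).le
  by_contra hcon
  push Not at hcon
  have := mul_pos hcon e6
  linarith

/-- the hyperbolic element -/
def hyp : MN 2 := !![0, 1; 1, 0]

theorem hyp_sq : hyp * hyp = 1 := by
  unfold hyp
  ext i j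
  fin_cases i <;> fin_cases j <;> simp [Matrix.mul_apply, Fin.sum_univ_two]

theorem hyp_su {sg : Fin 2 → ℝ} (hm : Mixed sg) : hyp ∈ Su sg := by
  have h1 : sg 0 + sg 1 = 0 := by
    obtain ⟨⟨i, hi⟩, j, hj⟩ := hm
    have hij : i ≠ j := by
      rintro rfl
      rw [hi] at hj
      norm_num at hj
    fin_cases i <;> fin_cases j
    · exact absurd rfl hij
    · change sg 0 = 1 at hi
      change sg 1 = -1 at hj
      rw [hi, hj]
      norm_num
    · change sg 1 = 1 at hi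
      change sg 0 = -1 at hj
      rw [hi, hj]
      norm_num
    · exact absurd rfl hij
  have h2 : (sg 0 : ℂ) + sg 1 = 0 := by exact_mod_cast h1
  refine ⟨fun x y => ?_, ?_⟩
  · simp only [hs, Fin.sum_univ_two, hyp, Matrix.mulVec, dotProduct, Matrix.of_apply,
      Matrix.cons_val_zero, Matrix.cons_val_one, Matrix.cons_val', Matrix.cons_val_fin_one]
    simp only [zero_mul, one_mul, zero_add, add_zero]
    linear_combination (x 1 * star (y 0) + x 0 * star (y 1)) * h2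
  · rw [Matrix.trace_fin_two]
    simp [hyp]

theorem exists_fb {V : Type} [AddCommGroup V] [Module ℚ V] [FiniteDimensional ℚ V]
    (S : Submodule ℚ V) : ∃ n, Nonempty (Basis (Fin n) ℚ S) := ⟨_, ⟨Module.finBasis ℚ S⟩⟩

/-- Elements of the real span as combinations of a basis. -/
theorem spE_repr {S : Submodule ℚ (Module.End ℚ A.H1)} {n : ℕ} (b : Basis (Fin n) ℚ S)
    {y : Module.End ℝ (Fin g → ℂ)} (hy : y ∈ spE A (S : Set (Module.End ℚ A.H1))) :
    ∃ r : Fin n → ℝ, y = ∑ i, r i • A.ext (b i : Module.End ℚ A.H1) := by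
  have h1 : spE A (S : Set (Module.End ℚ A.H1)) ≤
      Submodule.span ℝ (Set.range fun i => A.ext (b i : Module.End ℚ A.H1)) := by
    unfold spE
    rw [Submodule.span_le]
    rintro _ ⟨X, hX, rfl⟩
    have h2 : (∑ i, (b.repr ⟨X, hX⟩) i • b i : S).1 = X :=
      congrArg Subtype.val (b.sum_repr ⟨X, hX⟩)
    rw [← h2, AddSubmonoidClass.coe_finsetSum, ext_sum]
    refine Submodule.sum_mem _ fun i _ => ?_
    rw [Submodule.coe_smul, ext_smul]
    exact Submodule.smul_mem _ _ (Submodule.subset_span ⟨i, rfl⟩)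
  obtain ⟨r, hr⟩ := (Submodule.mem_span_range_iff_exists_fun ℝ).1 (h1 hy)
  exact ⟨r, hr.symm⟩

/-- At an indefinite place there are positive squares. -/
theorem sq_pos (H : HU A z Sg) {al : ℝ} (ha : al ∈ Sg) (hq : A.Full 𝔮) :
    ∃ X ∈ der 𝔮, ∃ q : Polynomial ℚ, X * X = Polynomial.aeval z q ∧
      0 < (Polynomial.aeval ((al : ℂ) * Complex.I) q).re := by
  obtain ⟨W, hW⟩ := N755.BGWA.main g A z al (H.hq ha)
  obtain ⟨N, sg, φ, w⟩ := N455.BGWB.main g A z al (H.hq ha) W hW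
  have h2 := H.two ha w
  subst h2
  by_contra hcon
  push Not at hcon
  obtain ⟨n, ⟨b⟩⟩ := exists_fb (der 𝔮)
  have hex : ∀ i, ∃ t : MN 2, ∀ x, A.ext (b i : Module.End ℚ A.H1) (φ x) = φ (t *ᵥ x) :=
    fun i => N383.LCU.mat_CB (H.hq ha) w (der_CB hq (b i).2)
  choose t ht using hex
  let f : (Fin n → ℝ) → ℝ := fun r =>
    ((∑ i, r i • t i) * (∑ i, r i • t i)).trace.re
  have hf : Continuous f := by
    have h3 : Continuous fun r : Fin n → ℝ => ∑ i, r i • t i := by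
      fun_prop
    exact Complex.continuous_re.comp ((h3.matrix_mul h3).matrix_trace)
  have hrat : ∀ c : Fin n → ℚ, f (fun i => (c i : ℝ)) ≤ 0 := by
    intro c
    obtain ⟨X, hXd⟩ : ∃ X : Module.End ℚ A.H1, X = ∑ i, c i • (b i : Module.End ℚ A.H1) := ⟨_, rfl⟩
    have hX : X ∈ der 𝔮 := by
      rw [hXd]
      exact Submodule.sum_mem _ fun i _ => Submodule.smul_mem _ _ (b i).2
    have hXm : ∀ x, A.ext X (φ x) = φ ((∑ i, ((c i : ℚ) : ℝ) • t i) *ᵥ x) := by
      intro x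
      rw [hXd, ext_sum, LinearMap.sum_apply, Matrix.sum_mulVec, map_sum]
      refine Finset.sum_congr rfl fun i _ => ?_
      rw [ext_smul, LinearMap.smul_apply, ht, Matrix.smul_mulVec, map_smul]
    obtain ⟨-, q, hXq⟩ := sq_poly H ha w hq hX
    have h3 := hcon X hX q hXq
    have h4 : (∑ i, ((c i : ℚ) : ℝ) • t i) * (∑ i, ((c i : ℚ) : ℝ) • t i) =
        Polynomial.aeval ((al : ℂ) * Complex.I) q • (1 : MN 2) := by
      refine Matrix.mulVec_injective (funext fun x => w.inj ?_)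
      rw [← Matrix.mulVec_mulVec, ← hXm, ← hXm, ← Module.End.mul_apply,
        ← Pool.Agent.N208.AD.ext_mul, hXq, N768.BGPD.ext_aeval (H.hq ha) w, Matrix.smul_mulVec,
        Matrix.one_mulVec]
    change (((∑ i, ((c i : ℚ) : ℝ) • t i) * (∑ i, ((c i : ℚ) : ℝ) • t i)).trace).re ≤ 0
    rw [h4, Matrix.trace_smul, Matrix.trace_one, Fintype.card_fin, smul_eq_mul]
    have h5 : (Polynomial.aeval ((al : ℂ) * Complex.I) q * ((2 : ℕ) : ℂ)).re =
        (Polynomial.aeval ((al : ℂ) * Complex.I) q).re * 2 := by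
      rw [Complex.mul_re]
      simp
    rw [h5]
    linarith
  have hall : ∀ r, f r ≤ 0 := by
    have hd : DenseRange (Pi.map fun (_ : Fin n) (c : ℚ) => (c : ℝ)) :=
      DenseRange.piMap fun _ => Rat.denseRange_cast
    intro r
    exact hd.induction_on r (isClosed_le hf continuous_const) fun c => hrat c
  have hyp_mem : hyp ∈ rN A (der 𝔮) φ :=
    su_le w.isSg (N755.BGRR.main g A z al (H.hq ha) 2 sg φ w 𝔮 hq) (hyp_su (H.mixed ha w))
  obtain ⟨y, hy, hym⟩ := hyp_mem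
  obtain ⟨r, hr⟩ := spE_repr b hy
  have h3 : hyp = ∑ i, r i • t i := by
    refine Matrix.mulVec_injective (funext fun x => w.inj ?_)
    rw [← hym, hr, LinearMap.sum_apply, Matrix.sum_mulVec, map_sum]
    refine Finset.sum_congr rfl fun i _ => ?_
    rw [LinearMap.smul_apply, ht, Matrix.smul_mulVec, map_smul]
  have h4 := hall r
  change (((∑ i, r i • t i) * (∑ i, r i • t i)).trace).re ≤ 0 at h4
  rw [← h3, hyp_sq, Matrix.trace_one, Fintype.card_fin] at h4
  norm_num at h4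

/-! ### Links -/

/-- the algebra generated by the squares -/
def RS (𝔮 : Submodule ℚ (Module.End ℚ A.H1)) : Subalgebra ℚ (Module.End ℚ A.H1) :=
  Algebra.adjoin ℚ {T | ∃ X ∈ der 𝔮, T = X * X}

theorem RS_C0 (H : HU A z Sg) {al : ℝ} (ha : al ∈ Sg) {N : ℕ} {sg : Fin N → ℝ}
    {φ : VN N →ₗ[ℝ] (Fin g → ℂ)} (w : WN A z al N sg φ) (hq : A.Full 𝔮)
    {T : Module.End ℚ A.H1} (hT : T ∈ RS 𝔮) : T ∈ C0 A := by
  unfold RS at hT
  induction hT using Algebra.adjoin_induction with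
  | mem T hT =>
    obtain ⟨X, hX, rfl⟩ := hT
    exact (sq_poly H ha w hq hX).1
  | algebraMap r =>
    rw [Algebra.algebraMap_eq_smul_one]
    exact (C0 A).smul_mem _ C0_one
  | add a b _ _ ha hb => exact (C0 A).add_mem ha hb
  | mul a b _ _ ha hb => exact C0_mul ha hb

theorem RS_poly (H : HU A z Sg) {al : ℝ} (ha : al ∈ Sg) {N : ℕ} {sg : Fin N → ℝ}
    {φ : VN N →ₗ[ℝ] (Fin g → ℂ)} (w : WN A z al N sg φ) (hq : A.Full 𝔮)
    {T : Module.End ℚ A.H1} (hT : T ∈ RS 𝔮) : ∃ q : Polynomial ℚ, T = Polynomial.aeval z q := by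
  have h1 := RS_C0 H ha w hq hT
  refine H.hf.gen _ (fun Y hY => ?_) fun Q hQ => h1.1 Q hQ
  exact (h1.2.1 Y (N768.BGPD.NA_CB (A.LA_le_NA hY))).symm

theorem RS_D1 {T : Module.End ℚ A.H1} (hT : T ∈ RS 𝔮) : T ∈ N999.BGSL.D1 𝔮 := by
  unfold RS at hT
  have h1 : Algebra.adjoin ℚ {T | ∃ X ∈ der 𝔮, T = X * X} ≤ N999.BGSL.D1 𝔮 := by
    refine Algebra.adjoin_le ?_
    rintro _ ⟨X, hX, rfl⟩
    exact (N999.BGSL.D1 𝔮).mul_mem (Algebra.subset_adjoin hX) (Algebra.subset_adjoin hX)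
  exact h1 hT

/-- The algebra generated by the squares does not separate linked places. -/
theorem link_eq (H : HU A z Sg) {al be : ℝ} (ha : al ∈ Sg) (hb : be ∈ Sg) {N N' : ℕ}
    {sg : Fin N → ℝ} {sg' : Fin N' → ℝ} {φ : VN N →ₗ[ℝ] (Fin g → ℂ)}
    {φ' : VN N' →ₗ[ℝ] (Fin g → ℂ)} (w : WN A z al N sg φ) (w' : WN A z be N' sg' φ')
    (hq : A.Full 𝔮) (hL : Linked (rN2 A (der 𝔮) φ φ')) {q : Polynomial ℚ}
    (hT : Polynomial.aeval z q ∈ RS 𝔮) :
    Polynomial.aeval ((al : ℂ) * Complex.I) q = Polynomial.aeval ((be : ℂ) * Complex.I) q := by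
  rcases hL with ⟨S, hS0, hS⟩ | ⟨S, hS0, hS⟩
  · refine N999.BGSL.key (RingHom.id ℂ) (H.hq ha) (H.hq hb) w w' hq hS0 ?_ (RS_D1 hT) rfl
    intro p hp
    rw [hS p hp]
    congr 1
  · have h1 := N999.BGSL.key (starRingEnd ℂ) (H.hq ha) (H.hq hb) w w' hq hS0 hS (RS_D1 hT)
      (q := q) rfl
    obtain ⟨x, hx, hxe⟩ := H.e1 al ha
    have h2 := real_of_sym H.hf.mem hxe hx (RS_C0 H ha w hq hT).2.2
    have h3 : Polynomial.aeval ((starRingEnd ℂ) ((al : ℂ) * Complex.I)) q =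
        (starRingEnd ℂ) (Polynomial.aeval ((al : ℂ) * Complex.I) q) :=
      Polynomial.aeval_algHom_apply (starRingEnd ℂ).toRatAlgHom ((al : ℂ) * Complex.I) q
    rw [← h1, h3]
    exact (Complex.conj_eq_iff_im.2 h2).symm

/-- **There are no links.** -/
theorem nolink (H : HU A z Sg) {al be : ℝ} (ha : al ∈ Sg) (hb : be ∈ Sg) (hne : al ≠ be)
    {N N' : ℕ} {sg : Fin N → ℝ} {sg' : Fin N' → ℝ} {φ : VN N →ₗ[ℝ] (Fin g → ℂ)}
    {φ' : VN N' →ₗ[ℝ] (Fin g → ℂ)} (w : WN A z al N sg φ) (w' : WN A z be N' sg' φ')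
    (hq : A.Full 𝔮) : ¬ Linked (rN2 A (der 𝔮) φ φ') := by
  intro hL
  obtain ⟨q, hqR, hqne⟩ := H.sep (RS 𝔮) (fun T hT => RS_poly H ha w hq hT)
    (fun T hT => (RS_C0 H ha w hq hT).2.2) (fun a haS c hc h1 h2 => by
      obtain ⟨X, hX, q, hXq, hpos⟩ := sq_pos H haS hq
      refine ⟨q, by rw [← hXq]; exact Algebra.subset_adjoin ⟨X, hX, rfl⟩, fun heq => ?_⟩
      obtain ⟨y, hy0, hy⟩ := hc
      have h3 := sq_nonpos H hq hX hXq (by
        rw [← hXq]
        exact (sq_poly H ha w hq hX).1.2.2) h1 h2 hy hy0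
      rw [← heq] at h3
      exact absurd hpos (not_lt.2 h3)) al ha be hb hne
  exact hqne (link_eq H ha hb w w' hq hL hqR)

theorem HU.hg (H : HU A z Sg) : HG' A z Sg where
  hq := fun _ ha => H.hq ha
  disj := H.disj
  nolink := fun _ ha _ hb hne _ _ _ _ _ _ w w' _ hq => U2.nolink H ha hb hne w w' hq
  big := fun _ ha _ _ _ w => ⟨H.mixed ha w, fun _ hq => H.big ha w hq⟩

theorem HU.hl (H : HU A z Sg) (hne : Sg.Nonempty) : HL' A z Sg where
  hg := H.hg
  field := H.hf.field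
  ne := hne
  dfn := H.dfn

end Pool.Agent.Run7.h358.U2
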