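import Pool.Agent.N208.BT.Stm5

set_option autoImplicit false

/-!
# Skew-hermitian matrices of size two

A perfect irreducible real Lie algebra of skew-hermitian matrices of size two consists of all
skew-hermitian matrices of trace zero.
-/

open Module Matrix

noncomputable section

namespace Pool.Agent.Run7.h358.U2

open Pool.Agent.N208.BT

variable {sg : Fin 2 → ℝ}

theorem hs_add_left {N : ℕ} (sg : Fin N → ℝ) (x x' y : VN N) :
    hs sg (x + x') y = hs sg x y + hs sg x' y := by
  simp only [hs, Pi.add_apply, ← Finset.sum_add_distrib]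
  refine Finset.sum_congr rfl fun i _ => ?_
  ring

theorem hs_add_right {N : ℕ} (sg : Fin N → ℝ) (x y y' : VN N) :
    hs sg x (y + y') = hs sg x y + hs sg x y' := by
  simp only [hs, Pi.add_apply, star_add, ← Finset.sum_add_distrib]
  refine Finset.sum_congr rfl fun i _ => ?_
  ring

theorem hs_smul_left {N : ℕ} (sg : Fin N → ℝ) (c : ℂ) (x y : VN N) :
    hs sg (c • x) y = c * hs sg x y := by
  simp only [hs, Pi.smul_apply, smul_eq_mul, Finset.mul_sum]
  refine Finset.sum_congr rfl fun i _ => ?_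
  ring

theorem hs_smul_right {N : ℕ} (sg : Fin N → ℝ) (c : ℂ) (x y : VN N) :
    hs sg x (c • y) = star c * hs sg x y := by
  simp only [hs, Pi.smul_apply, smul_eq_mul, Finset.mul_sum, star_mul']
  refine Finset.sum_congr rfl fun i _ => ?_
  ring

theorem hs_star {N : ℕ} (sg : Fin N → ℝ) (x y : VN N) : star (hs sg x y) = hs sg y x := by
  simp only [hs, star_sum, star_mul', star_star]
  refine Finset.sum_congr rfl fun i _ => ?_
  have h1 : star ((sg i : ℂ)) = (sg i : ℂ) := Complex.conj_ofReal _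
  rw [h1]
  ring

/-- the matrix entries of a skew-hermitian operator -/
theorem entry {X : MN 2} (h : IsSks sg X) (i j : Fin 2) :
    (sg i : ℂ) * X i j + (sg j : ℂ) * star (X j i) = 0 := by
  have h1 := h (Pi.single j 1) (Pi.single i 1)
  simp only [hs, Fin.sum_univ_two, Matrix.mulVec_single_one, Matrix.col_apply] at h1
  fin_cases i <;> fin_cases j <;> simpa using h1

/-- the skew-hermitian operators of trace zero -/
def Su (sg : Fin 2 → ℝ) : Submodule ℝ (MN 2) where
  carrier := {X | IsSks sg X ∧ X.trace = 0}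
  zero_mem' := ⟨fun x y => by simp [hs], Matrix.trace_zero _ _⟩
  add_mem' := by
    rintro X Y ⟨h1, h2⟩ ⟨h1', h2'⟩
    refine ⟨fun x y => ?_, by rw [Matrix.trace_add, h2, h2', add_zero]⟩
    have e1 := h1 x y
    have e2 := h1' x y
    rw [Matrix.add_mulVec, Matrix.add_mulVec, hs_add_left, hs_add_right]
    linear_combination e1 + e2
  smul_mem' := by
    rintro c X ⟨h1, h2⟩
    refine ⟨fun x y => ?_, by rw [Matrix.trace_smul, h2, smul_zero]⟩
    have e1 := h1 x y
    have e3 : ∀ v : VN 2, (c • X) *ᵥ v = (c : ℂ) • (X *ᵥ v) := fun v => by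
      rw [Matrix.smul_mulVec]
      rfl
    rw [e3, e3, hs_smul_left, hs_smul_right]
    have e2 : star ((c : ℂ)) = (c : ℂ) := Complex.conj_ofReal _
    rw [e2]
    linear_combination (c : ℂ) * e1

theorem finrank_su (hsg : IsSg sg) : finrank ℝ (Su sg) ≤ 3 := by
  let f : Su sg →ₗ[ℝ] ℝ × ℂ :=
    { toFun := fun X => ((X.1 0 0).im, X.1 0 1)
      map_add' := fun X Y => by simp
      map_smul' := fun c X => by simp }
  have hf : Function.Injective f := by
    rw [injective_iff_map_eq_zero]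
    rintro ⟨X, hX, ht⟩ h0
    have h1 : (X 0 0).im = 0 := congrArg Prod.fst h0
    have h2 : X 0 1 = 0 := congrArg Prod.snd h0
    have hs0 : (sg 0 : ℂ) ≠ 0 := by
      rcases hsg 0 with h | h <;> rw [h] <;> norm_num
    have hs1 : (sg 1 : ℂ) ≠ 0 := by
      rcases hsg 1 with h | h <;> rw [h] <;> norm_num
    have h3 : X 0 0 = 0 := by
      have h4 := entry hX 0 0
      rw [← mul_add] at h4
      have h5 := (mul_eq_zero.1 h4).resolve_left hs0
      have h6 := congrArg Complex.re h5
      rw [Complex.add_re, Complex.star_def, Complex.conj_re, Complex.zero_re] at h6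
      exact Complex.ext (by rw [Complex.zero_re]; linarith) h1
    have h4 : X 1 0 = 0 := by
      have h5 := entry hX 1 0
      rw [h2, star_zero, mul_zero, add_zero] at h5
      exact (mul_eq_zero.1 h5).resolve_left hs1
    have h5 : X 1 1 = 0 := by
      rw [Matrix.trace_fin_two, h3, zero_add] at ht
      exact ht
    refine Subtype.ext ?_
    ext i j
    fin_cases i <;> fin_cases j
    · exact h3
    · exact h2
    · exact h4
    · exact h5
  have h1 := LinearMap.finrank_le_finrank_of_injective hf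
  have h2 : finrank ℝ (ℝ × ℂ) = 3 := by
    rw [Module.finrank_prod, Module.finrank_self, Complex.finrank_real_complex]
  omega

theorem exists_pair (𝔯 : Submodule ℝ (MN 2)) (h : finrank ℝ 𝔯 ≤ 2) :
    ∃ x y : MN 2, 𝔯 ≤ Submodule.span ℝ {x, y} := by
  let b := Module.finBasis ℝ 𝔯
  let f : Fin 2 → MN 2 := fun i => if hi : (i : ℕ) < finrank ℝ 𝔯 then (b ⟨i, hi⟩ : MN 2) else 0
  refine ⟨f 0, f 1, fun X hX => ?_⟩
  have h1 : ∀ k : Fin (finrank ℝ 𝔯), (b k : MN 2) ∈ Submodule.span ℝ {f 0, f 1} := by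
    intro k
    have hk : (k : ℕ) < 2 := lt_of_lt_of_le k.2 h
    have h2 : f ⟨k, hk⟩ = b k := by
      change (if hi : (k : ℕ) < finrank ℝ 𝔯 then (b ⟨k, hi⟩ : MN 2) else 0) = _
      rw [dif_pos k.2]
    rw [← h2]
    generalize (⟨k, hk⟩ : Fin 2) = l
    fin_cases l
    · exact Submodule.subset_span (Or.inl rfl)
    · exact Submodule.subset_span (Or.inr rfl)
  have h3 : (∑ i, (b.repr ⟨X, hX⟩) i • b i : 𝔯).1 = X :=
    congrArg Subtype.val (b.sum_repr ⟨X, hX⟩)
  rw [← h3, AddSubmonoidClass.coe_finsetSum]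
  exact Submodule.sum_mem _ fun k _ => Submodule.smul_mem _ _ (h1 k)

theorem span_comm {x y X Y : MN 2} (hX : X ∈ Submodule.span ℝ {x, y})
    (hY : Y ∈ Submodule.span ℝ {x, y}) : ∃ c : ℝ, X * Y - Y * X = c • (x * y - y * x) := by
  obtain ⟨a, b, rfl⟩ := Submodule.mem_span_pair.1 hX
  obtain ⟨c, d, rfl⟩ := Submodule.mem_span_pair.1 hY
  refine ⟨a * d - b * c, ?_⟩
  simp only [add_mul, mul_add, smul_mul_assoc, mul_smul_comm]
  module

/-- the trace vanishes on perfect Lie algebras -/
theorem trace_zero_of_perf {N : ℕ} {𝔯 : Submodule ℝ (MN N)}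
    (h : 𝔯 ≤ Submodule.span ℝ {Z | ∃ X ∈ 𝔯, ∃ Y ∈ 𝔯, Z = X * Y - Y * X}) :
    ∀ X ∈ 𝔯, X.trace = 0 := by
  intro X hX
  have h1 := h hX
  clear hX
  induction h1 using Submodule.span_induction with
  | mem X hX =>
    obtain ⟨a, -, b, -, rfl⟩ := hX
    rw [Matrix.trace_sub, Matrix.trace_mul_comm, sub_self]
  | zero => exact Matrix.trace_zero _ _
  | add a b _ _ ha hb => rw [Matrix.trace_add, ha, hb, add_zero]
  | smul c a _ ha => rw [Matrix.trace_smul, ha, smul_zero]

theorem su_le (hsg : IsSg sg) {𝔯 : Submodule ℝ (MN 2)} (h : RRs sg 𝔯) : Su sg ≤ 𝔯 := by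
  have h1 : 𝔯 ≤ Su sg := fun X hX => ⟨h.sk X hX, trace_zero_of_perf h.perf X hX⟩
  have h3 : 3 ≤ finrank ℝ 𝔯 := by
    by_contra hcon
    obtain ⟨x, y, hxy⟩ := exists_pair 𝔯 (by omega)
    have h4 : 𝔯 ≤ Submodule.span ℝ {x * y - y * x} := by
      refine h.perf.trans (Submodule.span_le.2 ?_)
      rintro Z ⟨X, hX, Y, hY, rfl⟩
      obtain ⟨c, hc⟩ := span_comm (hxy hX) (hxy hY)
      rw [hc]
      exact Submodule.smul_mem _ c (Submodule.subset_span rfl)
    have h5 : 𝔯 ≤ ⊥ := by
      refine h.perf.trans (Submodule.span_le.2 ?_)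
      rintro Z ⟨X, hX, Y, hY, rfl⟩
      obtain ⟨a, ha⟩ := Submodule.mem_span_singleton.1 (h4 hX)
      obtain ⟨b, hb⟩ := Submodule.mem_span_singleton.1 (h4 hY)
      rw [← ha, ← hb]
      simp only [smul_mul_assoc, mul_smul_comm, smul_smul]
      rw [mul_comm a b, sub_self]
      exact Submodule.zero_mem _
    rcases h.irr (Submodule.span ℂ {(Pi.single 0 1 : VN 2)}) (fun m hm u _ => by
      rw [(Submodule.mem_bot ℝ).1 (h5 hm), Matrix.zero_mulVec]
      exact Submodule.zero_mem _) with h6 | h6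
    · rw [Submodule.span_singleton_eq_bot] at h6
      have h7 := congrFun h6 0
      rw [Pi.single_eq_same] at h7
      exact one_ne_zero h7
    · have h7 : (Pi.single 1 1 : VN 2) ∈ Submodule.span ℂ {(Pi.single 0 1 : VN 2)} := by
        rw [h6]
        exact Submodule.mem_top
      obtain ⟨c, hc⟩ := Submodule.mem_span_singleton.1 h7
      have h8 := congrFun hc 1
      rw [Pi.smul_apply, Pi.single_eq_of_ne (by decide : (1 : Fin 2) ≠ 0), smul_zero,
        Pi.single_eq_same] at h8
      exact zero_ne_one h8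
  exact (Submodule.eq_of_le_of_finrank_le h1 ((finrank_su hsg).trans h3)).ge

theorem Rs_mulVec {N : ℕ} (sg : Fin N → ℝ) (a b x : VN N) : Rs sg a b *ᵥ x = hs sg x b • a := by
  funext i
  rw [Matrix.mulVec, dotProduct, Pi.smul_apply, smul_eq_mul]
  have h1 : hs sg x b = ∑ j, x j * hs sg (Pi.single j 1) b := by
    conv_lhs => rw [pi_eq_sum_univ' x]
    have h2 : ∀ s : Finset (Fin N), hs sg (∑ j ∈ s, x j • (Pi.single j 1 : VN N)) b =
        ∑ j ∈ s, x j * hs sg (Pi.single j 1) b := by
      classical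
      intro s
      induction s using Finset.induction_on with
      | empty => simp [hs]
      | insert a s ha ih => rw [Finset.sum_insert ha, Finset.sum_insert ha, hs_add_left, ih,
          hs_smul_left]
    rw [← h2 Finset.univ]
  rw [h1, Finset.sum_mul]
  refine Finset.sum_congr rfl fun j _ => ?_
  simp only [Rs, Matrix.of_apply]
  ring

theorem root_su (sg : Fin 2 → ℝ) {x : VN 2} (hx : hs sg x x = 0) :
    Complex.I • Rs sg x x ∈ Su sg := by
  refine ⟨fun u v => ?_, ?_⟩
  · rw [Matrix.smul_mulVec, Matrix.smul_mulVec, Rs_mulVec, Rs_mulVec, hs_smul_left, hs_smul_left,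
      hs_smul_right, hs_smul_right, hs_star]
    have h1 : star Complex.I = -Complex.I := Complex.conj_I
    rw [h1]
    ring
  · rw [Matrix.trace_smul]
    have h1 : (Rs sg x x).trace = hs sg x x := by
      rw [Matrix.trace_fin_two]
      simp only [Rs, Matrix.of_apply, hs, Fin.sum_univ_two]
      simp
      ring
    rw [h1, hx, smul_zero]

/-- **Matrices of size two.** -/
theorem big_two (hsg : IsSg sg) {𝔯 : Submodule ℝ (MN 2)} (h : RRs sg 𝔯) : Big sg 𝔯 :=
  fun _ hx => su_le hsg h (root_su sg hx)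

end Pool.Agent.Run7.h358.U2
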