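import Pool.Agent.Run7.h358.U2.Mat
import Pool.Agent.N383.LCU
import Pool.Agent.N208.LC.Cen
import Pool.Agent.N768.BGPD

set_option autoImplicit false
set_option linter.unusedSectionVars false

/-!
# The rank of the simple submodules
-/

open Module Matrix

noncomputable section

namespace Pool.Agent.Run7.h358.U2

open Pool.Agent.Y102 Pool.Agent.W516.DR Pool.Agent.H204R3.GP Pool.Agent.W516.KC
  Pool.Agent.H204R3.SP Pool.Agent.TH119.MX Pool.Agent.R917 Pool.Agent.N208.AM Pool.Agent.N208.AD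
  Pool.Agent.N208.BT

variable {g : ℕ} {A : AbVar g} {z : Module.End ℚ A.H1} {al : ℝ} {N : ℕ} {sg : Fin N → ℝ}
  {φ : VN N →ₗ[ℝ] (Fin g → ℂ)}

theorem ext_sum {ι : Type} (s : Finset ι) (f : ι → Module.End ℚ A.H1) :
    A.ext (∑ i ∈ s, f i) = ∑ i ∈ s, A.ext (f i) := by
  classical
  induction s using Finset.induction_on with
  | empty => rw [Finset.sum_empty, Finset.sum_empty, ext_zero]
  | insert a s ha ih => rw [Finset.sum_insert ha, Finset.sum_insert ha, ext_add, ih]

theorem ext_comm {T P : Module.End ℚ A.H1} (hT : T ∈ CB A) (hP : P ∈ A.EA) :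
    A.ext T * A.ext P = A.ext P * A.ext T := by
  rw [← Pool.Agent.N208.AD.ext_mul, ← Pool.Agent.N208.AD.ext_mul, hT P hP]

/-- Elements of the commutant which vanish on a simple submodule are zero. -/
theorem zero_of_W (h : HQ A z al) (w : WN A z al N sg φ)
    (field : ∀ q : Polynomial ℚ, Polynomial.aeval z q ≠ 0 →
      Function.Injective (Polynomial.aeval z q))
    {T : Module.End ℚ A.H1} (hT : T ∈ CB A) (h0 : ∀ x, A.ext T (φ x) = 0) : T = 0 :=
  N383.LCU.K h field fun x hx => w.gen (A.ext T) (fun _ hP => ext_comm hT hP) h0 x hx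

theorem z_CB (h : HQ A z al) : z ∈ CB A := h.cen

theorem aeval_CB (h : HQ A z al) (q : Polynomial ℚ) : Polynomial.aeval z q ∈ CB A :=
  fun P hP => (N208.LC.comm_aeval' (h.cen P hP).symm q).symm

/-- the monoid of matrices of the elements of the commutant -/
def MS (h : HQ A z al) (w : WN A z al N sg φ) : Submonoid (MN N) where
  carrier := {m | ∃ X ∈ CB A, ∀ x, A.ext X (φ x) = φ (m *ᵥ x)}
  one_mem' := ⟨1, N768.BGPD.CB_one, fun x => by
    rw [N768.BGPD.ext_one, Module.End.one_apply, Matrix.one_mulVec]⟩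
  mul_mem' := by
    rintro a b ⟨X, hX, e⟩ ⟨Y, hY, e'⟩
    exact ⟨X * Y, N768.BGPD.CB_mul hX hY, fun x => by
      rw [Pool.Agent.N208.AD.ext_mul, Module.End.mul_apply, e', e, Matrix.mulVec_mulVec]⟩

theorem span_top (h : HQ A z al) (w : WN A z al N sg φ) :
    Submodule.span ℂ (MS h w : Set (MN N)) = ⊤ := by
  have h1 : (Algebra.adjoin ℂ (MS h w : Set (MN N))).toSubmodule =
      Submodule.span ℂ (MS h w : Set (MN N)) := by
    rw [Algebra.adjoin_eq_span, Submonoid.closure_eq]
  rw [← h1, eq_top_iff]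
  intro m _
  rw [Subalgebra.mem_toSubmodule]
  refine N768.BG.burnside_mat w.pos _ (fun U hU => ?_) m
  refine w.simple U fun X hX x hx y hy => ?_
  obtain ⟨m', hm'⟩ := N383.LCU.mat_CB h w (N768.BGPD.NA_CB hX)
  have h2 := hU m' (Algebra.subset_adjoin ⟨X, N768.BGPD.NA_CB hX, hm'⟩) x hx
  rw [hm'] at hy
  rwa [← w.inj hy]

theorem finrank_fun {ι V : Type} [Fintype ι] [AddCommGroup V] [Module ℚ V]
    [FiniteDimensional ℚ V] : finrank ℚ (ι → V) = Fintype.card ι * finrank ℚ V := by
  rw [Module.finrank_pi_fintype ℚ (M := fun _ : ι => V), Finset.sum_const, Finset.card_univ,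
    smul_eq_mul]

/-- **The rank.** -/
theorem rank_le (h : HQ A z al) (w : WN A z al N sg φ)
    (field : ∀ q : Polynomial ℚ, Polynomial.aeval z q ≠ 0 →
      Function.Injective (Polynomial.aeval z q)) {n : ℕ}
    (deg : finrank ℚ (CB A) = n ^ 2 * finrank ℚ (Algebra.adjoin ℚ {z})) : N ≤ n := by
  classical
  obtain ⟨b, hb, hsp, hli⟩ := exists_linearIndependent ℂ (MS h w : Set (MN N))
  rw [span_top h w] at hsp
  have hbf : Finite b := hli.finite
  have : Fintype b := Fintype.ofFinite b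
  have hcard : Fintype.card b = N ^ 2 := by
    have h1 : finrank ℂ (Submodule.span ℂ (Set.range ((↑) : b → MN N))) = Fintype.card b :=
      finrank_span_eq_card hli
    rw [Subtype.range_coe, hsp, finrank_top] at h1
    rw [← h1, Module.finrank_matrix, Module.finrank_self, Fintype.card_fin]
    ring
  have hex : ∀ i : b, ∃ X ∈ CB A, ∀ x, A.ext X (φ x) = φ ((i : MN N) *ᵥ x) := fun i => hb i.2
  choose T hT hTm using hex
  obtain ⟨F, hF⟩ : ∃ F : Submodule ℚ (Module.End ℚ A.H1), F = (Algebra.adjoin ℚ {z}).toSubmodule :=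
    ⟨_, rfl⟩
  have hFm : ∀ a, a ∈ F ↔ ∃ q : Polynomial ℚ, a = Polynomial.aeval z q := by
    intro a
    rw [hF, Subalgebra.mem_toSubmodule, Algebra.adjoin_singleton_eq_range_aeval]
    exact ⟨fun ⟨q, hq⟩ => ⟨q, hq.symm⟩, fun ⟨q, hq⟩ => ⟨q, hq.symm⟩⟩
  have hFC : ∀ a ∈ F, a ∈ CB A := by
    intro a ha
    obtain ⟨q, rfl⟩ := (hFm a).1 ha
    exact aeval_CB h q
  let L : (b → F) →ₗ[ℚ] CB A :=
    { toFun := fun f => ⟨∑ i, (f i : Module.End ℚ A.H1) * T i, Submodule.sum_mem _ fun i _ =>
        N768.BGPD.CB_mul (hFC _ (f i).2) (hT i)⟩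
      map_add' := fun f f' => by
        refine Subtype.ext ?_
        change ∑ i, ((f i + f' i : F) : Module.End ℚ A.H1) * T i = _
        simp only [Submodule.coe_add, add_mul, Finset.sum_add_distrib]
      map_smul' := fun c f => by
        refine Subtype.ext ?_
        change ∑ i, ((c • f i : F) : Module.End ℚ A.H1) * T i = c • _
        simp only [Submodule.coe_smul, smul_mul_assoc, Finset.smul_sum] }
  have hL : Function.Injective L := by
    rw [injective_iff_map_eq_zero]
    intro f hf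
    have h1 : ∑ i, (f i : Module.End ℚ A.H1) * T i = 0 := congrArg Subtype.val hf
    have hq : ∀ i, ∃ q : Polynomial ℚ, (f i : Module.End ℚ A.H1) = Polynomial.aeval z q :=
      fun i => (hFm _).1 (f i).2
    choose q hq using hq
    have h2 : ∑ i, Polynomial.aeval ((al : ℂ) * Complex.I) (q i) • (i : MN N) = 0 := by
      refine Matrix.mulVec_injective (funext fun x => w.inj ?_)
      rw [Matrix.zero_mulVec, map_zero, Matrix.sum_mulVec, map_sum]
      have h3 := congrArg (fun X => A.ext X (φ x)) h1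
      simp only [ext_sum, LinearMap.sum_apply, ext_zero, LinearMap.zero_apply] at h3
      rw [← h3]
      refine Finset.sum_congr rfl fun i _ => ?_
      rw [hq, Pool.Agent.N208.AD.ext_mul, Module.End.mul_apply, hTm, N768.BGPD.ext_aeval h w,
        Matrix.smul_mulVec]
    have h3 := Fintype.linearIndependent_iff.1 hli _ h2
    funext i
    refine Subtype.ext (zero_of_W h w field (hFC _ (f i).2) fun x => ?_)
    rw [hq, N768.BGPD.ext_aeval h w, h3 i, zero_smul, map_zero]
  have h1 := LinearMap.finrank_le_finrank_of_injective hL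
  have hpi : finrank ℚ (b → F) = N ^ 2 * finrank ℚ F := by
    rw [← hcard]
    exact finrank_fun (ι := b) (V := F)
  rw [deg, hpi] at h1
  have h2 : finrank ℚ F = finrank ℚ (Algebra.adjoin ℚ {z}) := by rw [hF]; rfl
  rw [h2] at h1
  have h3 : 0 < finrank ℚ (Algebra.adjoin ℚ {z}) := by
    rw [← h2]
    refine Submodule.one_le_finrank_iff.2 fun h01 => ?_
    have h3 : (1 : Module.End ℚ A.H1) ∈ F := (hFm 1).2 ⟨1, (map_one _).symm⟩
    rw [h01, Submodule.mem_bot] at h3
    obtain ⟨x, hx, hx0⟩ := h.ex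
    apply hx0
    have h5 := congrArg (fun X => A.ext X x) h3
    simp only [ext_zero, N768.BGPD.ext_one, LinearMap.zero_apply, Module.End.one_apply] at h5
    exact h5
  have h4 : N ^ 2 ≤ n ^ 2 := Nat.le_of_mul_le_mul_right h1 h3
  exact (Nat.pow_le_pow_iff_left two_ne_zero).1 h4

end Pool.Agent.Run7.h358.U2
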